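import Pool.Agent.H6Z.Mm
import Pool.Agent.Results.MP_852da8_nt.LowMomentsNearTheLine

set_option autoImplicit false

/-! The main term of the moments of moments. -/

namespace Pool.Agent.H6Z.Mm

open MeasureTheory Filter Topology Complex
open Pool.Agent.Results.MP_852da8_nt.LowMomentsNearTheLine (arith arith_bd arith_eq main)

/-- `(s - 1) ζ(s)` -/
noncomputable def gz : ℂ → ℂ := Function.update (fun s => (s - 1) * riemannZeta s) 1 1

lemma gz_ne {s : ℂ} (hs : s ≠ 1) : gz s = (s - 1) * riemannZeta s := Function.update_of_ne hs _ _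

lemma gz_one : gz 1 = 1 := Function.update_self _ _ _

lemma gz_cont : Continuous gz := by
  rw [continuous_iff_continuousAt]
  intro s
  by_cases hs : s = 1
  · subst hs
    unfold gz
    rw [continuousAt_update_same]
    exact riemannZeta_residue_one
  · have h1 : ContinuousAt (fun s : ℂ => (s - 1) * riemannZeta s) s :=
      (continuousAt_id.sub continuousAt_const).mul (differentiableAt_riemannZeta hs).continuousAt
    refine h1.congr ?_
    filter_upwards [isOpen_ne.mem_nhds hs] with w hw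
    exact (gz_ne hw).symm

/-- the zeta value -/
noncomputable def zl (δ u : ℝ) : ℝ := ‖riemannZeta (1 + 2 * δ + u * I)‖

lemma zl_nonneg (δ u : ℝ) : 0 ≤ zl δ u := norm_nonneg _

lemma ne_one {δ u : ℝ} (h : δ ≠ 0 ∨ u ≠ 0) : (1 + 2 * (δ:ℂ) + u * I) ≠ 1 := by
  intro he
  have h1 := congrArg Complex.re he
  have h2 := congrArg Complex.im he
  simp at h1 h2
  rcases h with h | h
  · exact h h1
  · exact h h2

lemma zl_pos {δ u : ℝ} (hδ : 0 ≤ δ) : 0 < zl δ u := by
  unfold zl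
  rw [norm_pos_iff]
  apply riemannZeta_ne_zero_of_one_le_re
  simp
  exact hδ

lemma zl_gz {δ u : ℝ} (h : δ ≠ 0 ∨ u ≠ 0) : ‖gz (1 + 2 * δ + u * I)‖ = ‖(2 * δ + u * I : ℂ)‖ * zl δ u := by
  rw [gz_ne (ne_one h), norm_mul]
  unfold zl
  congr 2
  ring

lemma zl_bd (H : ℝ) : ∃ C : ℝ, 1 ≤ C ∧ ∀ δ u : ℝ, 0 ≤ δ → δ ≤ 1 / 16 → |u| ≤ H → (δ ≠ 0 ∨ u ≠ 0) →
    ‖(2 * δ + u * I : ℂ)‖ * zl δ u ≤ C := by
  have hc : Continuous fun q : ℝ × ℝ => gz (1 + 2 * q.1 + q.2 * I) := gz_cont.comp (by fun_prop)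
  obtain ⟨C, hC⟩ := (isCompact_Icc.prod isCompact_Icc : IsCompact (Set.Icc (0:ℝ) (1 / 16) ×ˢ Set.Icc (-H) H))
    |>.exists_bound_of_continuousOn hc.continuousOn
  refine ⟨max C 1, le_max_right _ _, fun δ u h1 h2 h3 h4 => ?_⟩
  rw [← zl_gz h4]
  exact (hC (δ, u) ⟨⟨h1, h2⟩, abs_le.1 h3⟩).trans (le_max_left _ _)

lemma norm_ge_u (δ u : ℝ) : |u| ≤ ‖(2 * δ + u * I : ℂ)‖ := by
  have := Complex.abs_im_le_norm (2 * δ + u * I : ℂ)
  simpa using this

lemma norm_ge_d (δ u : ℝ) : |2 * δ| ≤ ‖(2 * δ + u * I : ℂ)‖ := by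
  have := Complex.abs_re_le_norm (2 * δ + u * I : ℂ)
  simpa using this

lemma zl_cont {δ : ℝ} (hδ : 0 < δ) : Continuous (zl δ) := by
  unfold zl
  refine Continuous.norm ?_
  rw [continuous_iff_continuousAt]
  intro u
  exact ContinuousAt.comp (f := fun u : ℝ => (1 + 2 * (δ:ℂ) + u * I))
    (differentiableAt_riemannZeta (ne_one (Or.inl hδ.ne'))).continuousAt (by fun_prop)

lemma zl_lim {u : ℝ} (hu : u ≠ 0) : Tendsto (fun δ : ℝ => zl δ u) (𝓝[>] 0) (𝓝 (zl 0 u)) := by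
  have h1 : ContinuousAt (fun δ : ℝ => zl δ u) 0 := by
    unfold zl
    refine ContinuousAt.norm ?_
    exact ContinuousAt.comp (f := fun δ : ℝ => (1 + 2 * (δ:ℂ) + u * I))
      (differentiableAt_riemannZeta (ne_one (Or.inr hu))).continuousAt (by fun_prop)
  exact h1.tendsto.mono_left nhdsWithin_le_nhds

lemma diag_lim : Tendsto (fun δ : ℝ => 2 * δ * zl δ 0) (𝓝[>] 0) (𝓝 1) := by
  have hc : Continuous fun δ : ℝ => ‖gz (1 + 2 * δ + (0:ℝ) * I)‖ := (gz_cont.comp (by fun_prop)).norm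
  have h1 := (hc.tendsto 0).mono_left (nhdsWithin_le_nhds (s := Set.Ioi 0))
  have e0 : ‖gz (1 + 2 * ((0:ℝ):ℂ) + ((0:ℝ):ℂ) * I)‖ = 1 := by
    have : (1 + 2 * ((0:ℝ):ℂ) + ((0:ℝ):ℂ) * I) = 1 := by simp
    rw [this, gz_one, norm_one]
  rw [e0] at h1
  refine h1.congr' ?_
  filter_upwards [self_mem_nhdsWithin] with δ hδ
  have hδ' : 0 < δ := hδ
  rw [zl_gz (Or.inl hδ'.ne')]
  congr 1
  have e : (2 * (δ:ℂ) + ((0:ℝ):ℂ) * I) = ((2 * δ : ℝ) : ℂ) := by push_cast; ring
  rw [e, Complex.norm_real, Real.norm_of_nonneg (by positivity)]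

/-! ### the integrand -/

/-- the integrand of the main term -/
noncomputable def F (n : ℕ) (k δ : ℝ) (h : Fin n → ℝ) : ℝ := main (fun _ => k) h δ

/-- the limit of the normalised integrand -/
noncomputable def F0 (n : ℕ) (k : ℝ) (h : Fin n → ℝ) : ℝ :=
  ‖arith (fun _ => k) h‖ * ∏ j : Fin n, ∏ l, if l = j then 1 else zl 0 (h j - h l) ^ (k * k)

lemma zl_eq (δ a b : ℝ) : ‖riemannZeta (1 + 2 * δ + (a - b) * I)‖ = zl δ (a - b) := by
  unfold zl
  push_cast
  rfl

lemma F_eq (n : ℕ) (k δ : ℝ) (h : Fin n → ℝ) : F n k δ h =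
    ‖arith (fun _ => k) h‖ * ∏ j : Fin n, (zl δ 0 ^ (k * k) * ∏ l, if l = j then 1 else zl δ (h j - h l) ^ (k * k)) := by
  unfold F main
  simp only [zl_eq]
  congr 1
  refine Finset.prod_congr rfl fun j _ => ?_
  rw [← Finset.mul_prod_erase _ _ (Finset.mem_univ j), sub_self,
    ← Finset.mul_prod_erase Finset.univ (fun l => if l = j then 1 else zl δ (h j - h l) ^ (k * k)) (Finset.mem_univ j),
    if_pos rfl, one_mul]
  congr 1
  refine Finset.prod_congr rfl fun l hl => ?_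
  rw [if_neg (Finset.ne_of_mem_erase hl)]

lemma arith_cont (n : ℕ) (k : ℝ) : Continuous fun h : Fin n → ℝ => ‖arith (fun _ => k) h‖ := by
  have h1 := Pool.Agent.N748.MJ.conF n
  have h2 : Continuous fun h : Fin n → ℝ => Pool.Agent.N748.MJ.aV (Pool.Agent.N748.MJ.SM.cc fun _ => k)
      (Pool.Agent.N748.MJ.SM.cc fun _ => k) h :=
    h1.comp (g := fun q : (Fin n → ℂ) × (Fin n → ℂ) × (Fin n → ℝ) => Pool.Agent.N748.MJ.aV q.1 q.2.1 q.2.2)
      (f := fun h : Fin n → ℝ => (Pool.Agent.N748.MJ.SM.cc fun _ => k, Pool.Agent.N748.MJ.SM.cc fun _ => k, h))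
      (by fun_prop)
  simp only [arith_eq]
  exact h2.norm

lemma F_cont (n : ℕ) {k δ : ℝ} (hδ : 0 < δ) : Continuous (F n k δ) := by
  have e : F n k δ = fun h => ‖arith (fun _ => k) h‖ *
      ∏ j : Fin n, (zl δ 0 ^ (k * k) * ∏ l, if l = j then 1 else zl δ (h j - h l) ^ (k * k)) := funext (F_eq n k δ)
  rw [e]
  refine (arith_cont n k).mul (continuous_finsetProd _ fun j _ => continuous_const.mul
    (continuous_finsetProd _ fun l _ => ?_))
  split_ifs
  · exact continuous_const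
  · refine ((zl_cont hδ).comp ?_).rpow_const fun x => Or.inr (mul_self_nonneg k)
    fun_prop

lemma F_nonneg (n : ℕ) (k δ : ℝ) (h : Fin n → ℝ) : 0 ≤ F n k δ h := by
  rw [F_eq]
  refine mul_nonneg (norm_nonneg _) (Finset.prod_nonneg fun j _ => mul_nonneg
    (Real.rpow_nonneg (zl_nonneg _ _) _) (Finset.prod_nonneg fun l _ => ?_))
  split_ifs
  · exact zero_le_one
  · exact Real.rpow_nonneg (zl_nonneg _ _) _

lemma prod_le_pow {n : ℕ} {x : Fin n → ℝ} (hx : ∀ j, 0 ≤ x j) : ∏ j, x j ≤ 1 + ∑ j, x j ^ n := by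
  have hs0 : ∀ j, 0 ≤ x j ^ n := fun j => pow_nonneg (hx j) n
  rcases Nat.eq_zero_or_pos n with h0 | h0
  · subst h0
    simp
  · obtain ⟨j0, -, hj0⟩ := Finset.exists_max_image Finset.univ x ⟨⟨0, h0⟩, Finset.mem_univ _⟩
    have h2 : ∏ j, x j ≤ ∏ _j : Fin n, x j0 :=
      Finset.prod_le_prod (fun j _ => hx j) fun j _ => hj0 j (Finset.mem_univ _)
    rw [Finset.prod_const, Finset.card_univ, Fintype.card_fin] at h2
    have h5 := Finset.single_le_sum (fun j _ => hs0 j) (Finset.mem_univ j0)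
    linarith

/-- the normalised integrand is dominated -/
theorem dom (n : ℕ) {k H : ℝ} (hH : 0 ≤ H) : ∃ C : ℝ, 0 ≤ C ∧ ∀ δ : ℝ, 0 < δ → δ ≤ 1 / 16 → ∀ h ∈ Box n H,
    (∀ j l : Fin n, j ≠ l → h j ≠ h l) →
    (2 * δ) ^ (n * (k * k)) * F n k δ h ≤ C * (1 + ∑ j, star (n * (k * k)) j h) := by
  obtain ⟨C1, hC1, h1⟩ := zl_bd H
  obtain ⟨c0, C0, hc0, ha⟩ := arith_bd n |k| (abs_nonneg k)
  obtain ⟨κ, hκ⟩ : ∃ κ : ℝ, κ = k * k := ⟨_, rfl⟩
  have hκ0 : 0 ≤ κ := by rw [hκ]; exact mul_self_nonneg k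
  obtain ⟨M, hM⟩ : ∃ M : ℝ, M = ((C1 ^ κ) ^ n) ^ n := ⟨_, rfl⟩
  have hCκ : 1 ≤ C1 ^ κ := Real.one_le_rpow hC1 hκ0
  have hM1 : 1 ≤ M := by rw [hM]; exact one_le_pow₀ (one_le_pow₀ hCκ)
  have hC00 : 0 ≤ C0 := by
    have := (ha (fun _ => k) (fun _ => 0) fun _ => le_rfl).2.1
    exact (norm_nonneg _).trans this
  refine ⟨C0 * ((C1 ^ κ) ^ n * M), by positivity, fun δ hδ hδ16 h hh hne => ?_⟩
  rw [F_eq, ← hκ]
  have e1 : (2 * δ) ^ (n * κ) = ∏ _j : Fin n, (2 * δ) ^ κ := by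
    rw [Finset.prod_const, Finset.card_univ, Fintype.card_fin, ← Real.rpow_natCast, ← Real.rpow_mul (by positivity),
      mul_comm κ (n:ℝ)]
  have e2 : (2 * δ) ^ (n * κ) * (‖arith (fun _ => k) h‖ *
      ∏ j : Fin n, (zl δ 0 ^ κ * ∏ l, if l = j then 1 else zl δ (h j - h l) ^ κ)) =
      ‖arith (fun _ => k) h‖ * ((∏ _j : Fin n, ((2 * δ) ^ κ * zl δ 0 ^ κ)) *
        ∏ j : Fin n, ∏ l, if l = j then 1 else zl δ (h j - h l) ^ κ) := by
    rw [e1, Finset.prod_mul_distrib, Finset.prod_mul_distrib]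
    ring
  rw [e2]
  have h3 : ‖arith (fun _ => k) h‖ ≤ C0 := (ha (fun _ => k) h fun _ => le_rfl).2.1
  have h4 : (2 * δ) ^ κ * zl δ 0 ^ κ ≤ C1 ^ κ := by
    rw [← Real.mul_rpow (by positivity) (zl_nonneg _ _)]
    refine Real.rpow_le_rpow (mul_nonneg (by positivity) (zl_nonneg _ _)) ?_ hκ0
    have h5 := h1 δ 0 hδ.le hδ16 (by rw [abs_zero]; exact hH) (Or.inl hδ.ne')
    have h6 := norm_ge_d δ 0
    rw [abs_of_pos (by positivity)] at h6
    exact (mul_le_mul_of_nonneg_right h6 (zl_nonneg _ _)).trans h5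
  have h7 : ∏ _j : Fin n, ((2 * δ) ^ κ * zl δ 0 ^ κ) ≤ (C1 ^ κ) ^ n := by
    rw [Finset.prod_const, Finset.card_univ, Fintype.card_fin]
    exact pow_le_pow_left₀ (mul_nonneg (by positivity) (Real.rpow_nonneg (zl_nonneg _ _) _)) h4 n
  have hz0 : ∀ j : Fin n, 0 ≤ ∏ l, if l = j then 1 else zl δ (h j - h l) ^ κ := by
    intro j
    refine Finset.prod_nonneg fun l _ => ?_
    split_ifs
    · exact zero_le_one
    · exact Real.rpow_nonneg (zl_nonneg _ _) _
  have h8 : ∏ j : Fin n, ∏ l, (if l = j then 1 else zl δ (h j - h l) ^ κ) ≤ M * (1 + ∑ j, star (n * κ) j h) := by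
    refine (prod_le_pow hz0).trans ?_
    have h9 : ∀ j : Fin n, (∏ l, if l = j then 1 else zl δ (h j - h l) ^ κ) ^ n ≤ M * star (n * κ) j h := by
      intro j
      rw [← Finset.prod_pow]
      have e3 : M * star (n * κ) j h = ∏ l : Fin n, ((C1 ^ κ) ^ n * if l = j then 1 else |h j - h l| ^ (-(n * κ))) := by
        rw [Finset.prod_mul_distrib, Finset.prod_const, Finset.card_univ, Fintype.card_fin, hM]
        rfl
      rw [e3]
      refine Finset.prod_le_prod (fun l _ => ?_) fun l _ => ?_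
      · split_ifs
        · rw [one_pow]; exact zero_le_one
        · exact pow_nonneg (Real.rpow_nonneg (zl_nonneg _ _) _) _
      · by_cases hl : l = j
        · rw [if_pos hl, if_pos hl, one_pow, mul_one]
          exact one_le_pow₀ hCκ
        · rw [if_neg hl, if_neg hl]
          have hu : h j - h l ≠ 0 := sub_ne_zero.2 (hne j l (Ne.symm hl))
          have hu0 : 0 < |h j - h l| := abs_pos.2 hu
          have hb := box_mem.1 hh
          have huH : |h j - h l| ≤ H := by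
            rw [abs_le]
            constructor <;> linarith [(hb j).1, (hb j).2, (hb l).1, (hb l).2]
          have h10 : zl δ (h j - h l) ≤ C1 / |h j - h l| := by
            rw [le_div_iff₀ hu0]
            have h11 := h1 δ (h j - h l) hδ.le hδ16 huH (Or.inl hδ.ne')
            have h12 := mul_le_mul_of_nonneg_right (norm_ge_u δ (h j - h l)) (zl_nonneg δ (h j - h l))
            linarith
          calc (zl δ (h j - h l) ^ κ) ^ n ≤ ((C1 / |h j - h l|) ^ κ) ^ n :=
                pow_le_pow_left₀ (Real.rpow_nonneg (zl_nonneg _ _) _)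
                  (Real.rpow_le_rpow (zl_nonneg _ _) h10 hκ0) n
            _ = (C1 ^ κ) ^ n * |h j - h l| ^ (-(n * κ)) := by
                rw [Real.div_rpow (by linarith) hu0.le, div_pow, div_eq_mul_inv, ← Real.rpow_natCast (|h j - h l| ^ κ) n,
                  ← Real.rpow_mul hu0.le, Real.rpow_neg hu0.le, mul_comm κ (n:ℝ)]
    have h13 : ∑ j : Fin n, (∏ l, if l = j then 1 else zl δ (h j - h l) ^ κ) ^ n ≤ M * ∑ j, star (n * κ) j h := by
      rw [Finset.mul_sum]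
      exact Finset.sum_le_sum fun j _ => h9 j
    linarith
  have hst : 0 ≤ ∑ j, star (n * κ) j h := by
    refine Finset.sum_nonneg fun j _ => Finset.prod_nonneg fun l _ => ?_
    split_ifs
    · exact zero_le_one
    · exact Real.rpow_nonneg (abs_nonneg _) _
  calc ‖arith (fun _ => k) h‖ * ((∏ _j : Fin n, ((2 * δ) ^ κ * zl δ 0 ^ κ)) *
        ∏ j : Fin n, ∏ l, if l = j then 1 else zl δ (h j - h l) ^ κ) ≤
        C0 * ((C1 ^ κ) ^ n * (M * (1 + ∑ j, star (n * κ) j h))) := by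
          have h14 : 0 ≤ ∏ j : Fin n, ∏ l, (if l = j then 1 else zl δ (h j - h l) ^ κ) :=
            Finset.prod_nonneg fun j _ => hz0 j
          exact mul_le_mul h3 (mul_le_mul h7 h8 h14 (by positivity)) (mul_nonneg (Finset.prod_nonneg fun j _ =>
            mul_nonneg (by positivity) (Real.rpow_nonneg (zl_nonneg _ _) _)) h14) hC00
    _ = _ := by ring

lemma F_lim (n : ℕ) (k : ℝ) {h : Fin n → ℝ} (hne : ∀ j l : Fin n, j ≠ l → h j ≠ h l) :
    Tendsto (fun δ : ℝ => (2 * δ) ^ (n * (k * k)) * F n k δ h) (𝓝[>] 0) (𝓝 (F0 n k h)) := by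
  obtain ⟨κ, hκ⟩ : ∃ κ : ℝ, κ = k * k := ⟨_, rfl⟩
  have hκ0 : 0 ≤ κ := by rw [hκ]; exact mul_self_nonneg k
  have h1 : Tendsto (fun δ : ℝ => ‖arith (fun _ => k) h‖ * ((∏ _j : Fin n, (2 * δ * zl δ 0) ^ κ) *
      ∏ j : Fin n, ∏ l, if l = j then 1 else zl δ (h j - h l) ^ κ)) (𝓝[>] 0)
      (𝓝 (‖arith (fun _ => k) h‖ * ((∏ _j : Fin n, (1:ℝ) ^ κ) *
        ∏ j : Fin n, ∏ l, if l = j then 1 else zl 0 (h j - h l) ^ κ))) := by
    refine tendsto_const_nhds.mul ((tendsto_finsetProd _ fun j _ => diag_lim.rpow_const (Or.inr hκ0)).mul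
      (tendsto_finsetProd _ fun j _ => tendsto_finsetProd _ fun l _ => ?_))
    by_cases hl : l = j
    · simp only [if_pos hl]
      exact tendsto_const_nhds
    · simp only [if_neg hl]
      exact (zl_lim (sub_ne_zero.2 (hne j l (Ne.symm hl)))).rpow_const (Or.inr hκ0)
  have e0 : ‖arith (fun _ => k) h‖ * ((∏ _j : Fin n, (1:ℝ) ^ κ) *
        ∏ j : Fin n, ∏ l, if l = j then 1 else zl 0 (h j - h l) ^ κ) = F0 n k h := by
    unfold F0
    simp only [Real.one_rpow, Finset.prod_const_one, one_mul, hκ]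
  rw [e0] at h1
  refine h1.congr' ?_
  filter_upwards [self_mem_nhdsWithin] with δ hδ
  have hδ' : 0 < δ := hδ
  rw [F_eq, ← hκ]
  have e1 : (2 * δ) ^ (n * κ) = ∏ _j : Fin n, (2 * δ) ^ κ := by
    rw [Finset.prod_const, Finset.card_univ, Fintype.card_fin, ← Real.rpow_natCast, ← Real.rpow_mul (by positivity),
      mul_comm κ (n:ℝ)]
  have e2 : ∀ _j : Fin n, (2 * δ * zl δ 0) ^ κ = (2 * δ) ^ κ * zl δ 0 ^ κ := fun _ =>
    Real.mul_rpow (by positivity) (zl_nonneg _ _)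
  rw [e1, Finset.prod_congr rfl fun j _ => e2 j, Finset.prod_mul_distrib, Finset.prod_mul_distrib]
  ring

/-- the limit of the normalised main term -/
theorem main_lim (n : ℕ) {k H : ℝ} (hH : 0 ≤ H) (hn : n * (k * k) < 1) :
    Tendsto (fun δ : ℝ => (2 * δ) ^ (n * (k * k)) * ∫ h in Box n H, F n k δ h) (𝓝[>] 0) (𝓝 (∫ h in Box n H, F0 n k h)) ∧
      IntegrableOn (F0 n k) (Box n H) := by
  obtain ⟨C, hC, hdom⟩ := dom n (k := k) hH
  have hae : ∀ᵐ h : Fin n → ℝ ∂(volume.restrict (Box n H)), h ∈ Box n H ∧ ∀ j l : Fin n, j ≠ l → h j ≠ h l := by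
    filter_upwards [ae_restrict_mem (box_meas n H), ae_restrict_of_ae (ae_ne n)] with h h1 h2
    exact ⟨h1, h2⟩
  have hbi : Integrable (fun h : Fin n → ℝ => C * (1 + ∑ j, star (n * (k * k)) j h)) (volume.restrict (Box n H)) := by
    refine Integrable.const_mul (Integrable.add ?_ (integrable_finsetSum _ fun j _ => star_int hn hH j)) C
    exact integrableOn_const (box_compact n H).measure_lt_top.ne
  have hFn : ∀ δ : ℝ, 0 < δ → ∀ h : Fin n → ℝ, ‖(2 * δ) ^ (n * (k * k)) * F n k δ h‖ =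
      (2 * δ) ^ (n * (k * k)) * F n k δ h := fun δ hδ h =>
    Real.norm_of_nonneg (mul_nonneg (by positivity) (F_nonneg _ _ _ _))
  have h16 : ∀ᶠ δ : ℝ in 𝓝[>] 0, 0 < δ ∧ δ ≤ 1 / 16 := by
    filter_upwards [self_mem_nhdsWithin, nhdsWithin_le_nhds (Iic_mem_nhds (show (0:ℝ) < 1 / 16 by norm_num))]
      with δ h1 h2
    exact ⟨h1, h2⟩
  constructor
  · have h1 : Tendsto (fun δ : ℝ => ∫ h in Box n H, (2 * δ) ^ (n * (k * k)) * F n k δ h) (𝓝[>] 0)
        (𝓝 (∫ h in Box n H, F0 n k h)) := by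
      refine tendsto_integral_filter_of_dominated_convergence
        (fun h : Fin n → ℝ => C * (1 + ∑ j, star (n * (k * k)) j h)) ?_ ?_ hbi ?_
      · filter_upwards [self_mem_nhdsWithin] with δ hδ
        exact (continuous_const.mul (F_cont n hδ)).aestronglyMeasurable
      · filter_upwards [h16] with δ hδ
        filter_upwards [hae] with h hh
        rw [hFn δ hδ.1]
        exact hdom δ hδ.1 hδ.2 h hh.1 hh.2
      · filter_upwards [hae] with h hh
        exact F_lim n k hh.2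
    refine h1.congr fun δ => ?_
    rw [integral_const_mul]
  · refine Integrable.mono' hbi ?_ ?_
    · refine (((arith_cont n k).measurable).mul (Finset.measurable_prod _ fun j _ => Finset.measurable_prod _
        fun l _ => ?_)).aestronglyMeasurable
      split_ifs
      · exact measurable_const
      · have hm : Measurable (zl 0) := by
          have hc : ContinuousOn (zl 0) {0}ᶜ := by
            intro u hu
            unfold zl
            refine ContinuousAt.continuousWithinAt (ContinuousAt.norm ?_)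
            exact ContinuousAt.comp (f := fun u : ℝ => (1 + 2 * ((0:ℝ):ℂ) + u * I))
              (differentiableAt_riemannZeta (ne_one (Or.inr hu))).continuousAt (by fun_prop)
          exact measurable_of_continuousOn_compl_singleton 0 hc
        exact (hm.comp ((measurable_pi_apply j).sub (measurable_pi_apply l))).pow_const _
    · filter_upwards [hae] with h hh
      have h2 := F_lim n k hh.2
      have h3 : F0 n k h ≤ C * (1 + ∑ j, star (n * (k * k)) j h) := by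
        refine le_of_tendsto h2 ?_
        filter_upwards [h16] with δ hδ
        exact hdom δ hδ.1 hδ.2 h hh.1 hh.2
      have h4 : 0 ≤ F0 n k h := by
        refine ge_of_tendsto h2 ?_
        filter_upwards [self_mem_nhdsWithin] with δ hδ
        have hδ' : 0 < δ := hδ
        exact mul_nonneg (by positivity) (F_nonneg _ _ _ _)
      rwa [Real.norm_of_nonneg h4]

end Pool.Agent.H6Z.Mm
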