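import Mathlib

set_option autoImplicit false

/-! Tools for the moments of moments: Fubini, integrability of products of negative powers of differences. -/

namespace Pool.Agent.H6Z.Mm

open MeasureTheory Filter Topology

/-- the box `[0, H]^n` -/
def Box (n : ℕ) (H : ℝ) : Set (Fin n → ℝ) := Set.univ.pi fun _ => Set.Icc 0 H

lemma box_mem {n : ℕ} {H : ℝ} {h : Fin n → ℝ} : h ∈ Box n H ↔ ∀ j, 0 ≤ h j ∧ h j ≤ H := by
  constructor
  · intro hh j
    exact hh j (Set.mem_univ j)
  · intro hh j _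
    exact hh j

lemma box_compact (n : ℕ) (H : ℝ) : IsCompact (Box n H) := isCompact_univ_pi fun _ => isCompact_Icc

lemma box_meas (n : ℕ) (H : ℝ) : MeasurableSet (Box n H) := MeasurableSet.univ_pi fun _ => measurableSet_Icc

lemma box_restrict (n : ℕ) (H : ℝ) : (volume : Measure (Fin n → ℝ)).restrict (Box n H) =
    Measure.pi fun _ : Fin n => (volume : Measure ℝ).restrict (Set.Icc 0 H) := by
  unfold Box
  rw [volume_pi, Measure.restrict_pi_pi]

lemma pow_eq {n : ℕ} {H : ℝ} (hH : 0 ≤ H) (g : ℝ → ℝ) (t : ℝ) :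
    (∫ x in (0:ℝ)..H, g (t + x)) ^ n = ∫ h in Box n H, ∏ j, g (t + h j) := by
  rw [box_restrict, integral_fintype_prod_eq_pow (fun x => g (t + x)), Fintype.card_fin,
    intervalIntegral.integral_of_le hH, integral_Icc_eq_integral_Ioc]

lemma prod_integrable {n : ℕ} {H T : ℝ} {g : ℝ → ℝ} (hg : Continuous g) :
    Integrable (Function.uncurry fun (t : ℝ) (h : Fin n → ℝ) => ∏ j, g (t + h j))
      ((volume.restrict (Set.Icc 0 T)).prod (volume.restrict (Box n H))) := by
  rw [Measure.prod_restrict]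
  have hc : Continuous (Function.uncurry fun (t : ℝ) (h : Fin n → ℝ) => ∏ j, g (t + h j)) := by
    refine continuous_finsetProd _ fun j _ => hg.comp ?_
    exact continuous_fst.add ((continuous_apply j).comp continuous_snd)
  exact hc.continuousOn.integrableOn_compact (isCompact_Icc.prod (box_compact n H))

/-- Fubini -/
theorem fub {n : ℕ} {H T : ℝ} (hH : 0 ≤ H) (hT : 0 ≤ T) {g : ℝ → ℝ} (hg : Continuous g) :
    ∫ t in (0:ℝ)..T, (∫ x in (0:ℝ)..H, g (t + x)) ^ n =
      ∫ h in Box n H, ∫ t in (0:ℝ)..T, ∏ j, g (t + h j) := by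
  simp_rw [pow_eq hH, intervalIntegral.integral_of_le hT, ← integral_Icc_eq_integral_Ioc]
  exact integral_integral_swap (prod_integrable hg)

lemma inner_integrable {n : ℕ} {H T : ℝ} (hT : 0 ≤ T) {g : ℝ → ℝ} (hg : Continuous g) :
    IntegrableOn (fun h : Fin n → ℝ => ∫ t in (0:ℝ)..T, ∏ j, g (t + h j)) (Box n H) := by
  simp_rw [intervalIntegral.integral_of_le hT, ← integral_Icc_eq_integral_Ioc]
  exact (prod_integrable (n := n) (H := H) (T := T) hg).integral_prod_right

/-! ### negative powers -/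

lemma abs_rpow_int {s : ℝ} (hs : s < 1) (H : ℝ) : IntervalIntegrable (fun u : ℝ => |u| ^ (-s)) volume (-H) H := by
  have h0 : ∀ A : ℝ, 0 ≤ A → IntervalIntegrable (fun u : ℝ => |u| ^ (-s)) volume 0 A := by
    intro A hA
    have h1 : IntervalIntegrable (fun u : ℝ => u ^ (-s)) volume 0 A :=
      intervalIntegral.intervalIntegrable_rpow' (by linarith)
    refine h1.congr ?_
    rw [Set.uIoc_of_le hA]
    intro u hu
    simp only [abs_of_pos hu.1]
  have h2 : ∀ A : ℝ, 0 ≤ A → IntervalIntegrable (fun u : ℝ => |u| ^ (-s)) volume 0 (-A) := by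
    intro A hA
    have h3 := (IntervalIntegrable.iff_comp_neg (f := fun u : ℝ => |u| ^ (-s)) (a := 0) (b := A)).1 (h0 A hA)
    simpa only [abs_neg, neg_zero] using h3
  have h4 : ∀ A : ℝ, IntervalIntegrable (fun u : ℝ => |u| ^ (-s)) volume 0 A := by
    intro A
    rcases le_total 0 A with h | h
    · exact h0 A h
    · have := h2 (-A) (by linarith)
      simpa using this
  exact (h4 (-H)).symm.trans (h4 H)

lemma sec_int {s : ℝ} (hs : s < 1) {H : ℝ} (hH : 0 ≤ H) (x : ℝ) :
    IntegrableOn (fun u : ℝ => |x - u| ^ (-s)) (Set.Icc 0 H) := by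
  rw [integrableOn_Icc_iff_integrableOn_Ioc, ← intervalIntegrable_iff_integrableOn_Ioc_of_le hH]
  obtain ⟨A, hA⟩ : ∃ A : ℝ, A = |x| + H := ⟨_, rfl⟩
  have h1 := (abs_rpow_int hs A).comp_sub_right x
  have h2 : IntervalIntegrable (fun u : ℝ => |u - x| ^ (-s)) volume 0 H := by
    refine h1.mono_set ?_
    have hx := neg_abs_le x
    have hx2 := le_abs_self x
    rw [Set.uIcc_of_le hH, Set.uIcc_of_le (by linarith)]
    exact Set.Icc_subset_Icc (by linarith) (by linarith)
  refine h2.congr ?_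
  intro u _
  simp only [abs_sub_comm u x]

lemma sec_le {s : ℝ} (hs : s < 1) {H : ℝ} (hH : 0 ≤ H) {x : ℝ} (hx : x ∈ Set.Icc 0 H) :
    ∫ u in Set.Icc 0 H, |x - u| ^ (-s) ≤ ∫ v in (-H)..H, |v| ^ (-s) := by
  rw [integral_Icc_eq_integral_Ioc, ← intervalIntegral.integral_of_le hH]
  have e : ∫ u in (0:ℝ)..H, |x - u| ^ (-s) = ∫ v in (0 - x)..(H - x), |v| ^ (-s) := by
    rw [← intervalIntegral.integral_comp_sub_right (fun v => |v| ^ (-s)) x]
    refine intervalIntegral.integral_congr fun u _ => ?_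
    simp only [abs_sub_comm u x]
  rw [e]
  refine intervalIntegral.integral_mono_interval (by linarith [hx.2]) (by linarith) (by linarith [hx.1])
    (Eventually.of_forall fun v => ?_) (abs_rpow_int hs H)
  exact Real.rpow_nonneg (abs_nonneg _) _

/-- the star with centre `j` -/
noncomputable def star {n : ℕ} (s : ℝ) (j : Fin n) (h : Fin n → ℝ) : ℝ :=
  ∏ l, if l = j then 1 else |h j - h l| ^ (-s)

lemma star_succ {n : ℕ} (s : ℝ) (j : Fin (n + 1)) (h : Fin (n + 1) → ℝ) :
    star s j h = ∏ i : Fin n, |h j - h (j.succAbove i)| ^ (-s) := by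
  unfold star
  rw [Fin.prod_univ_succAbove _ j, if_pos rfl, one_mul]
  refine Finset.prod_congr rfl fun i _ => ?_
  rw [if_neg (Fin.succAbove_ne j i)]

lemma star_meas {n : ℕ} (s : ℝ) (j : Fin n) : Measurable (star (n := n) s j) := by
  unfold star
  refine Finset.measurable_prod _ fun l _ => ?_
  split_ifs
  · exact measurable_const
  · exact (((measurable_pi_apply j).sub (measurable_pi_apply l)).norm).pow_const _

lemma pair_int (n : ℕ) {s : ℝ} (hs : s < 1) {H : ℝ} (hH : 0 ≤ H) :
    Integrable (fun q : ℝ × (Fin n → ℝ) => ∏ i, |q.1 - q.2 i| ^ (-s))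
      ((volume.restrict (Set.Icc 0 H)).prod (volume.restrict (Box n H))) := by
  have hm : Measurable (fun q : ℝ × (Fin n → ℝ) => ∏ i, |q.1 - q.2 i| ^ (-s)) := by
    refine Finset.measurable_prod _ fun i _ => ?_
    have h1 : Measurable fun q : ℝ × (Fin n → ℝ) => q.2 i := (measurable_pi_apply i).comp measurable_snd
    exact ((measurable_fst.sub h1).norm).pow_const _
  have : IsFiniteMeasure ((volume : Measure ℝ).restrict (Set.Icc 0 H)) := ⟨by simp⟩
  have hsec : ∀ x : ℝ, Integrable (fun y : Fin n → ℝ => ∏ i, |x - y i| ^ (-s)) (volume.restrict (Box n H)) := by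
    intro x
    rw [box_restrict]
    exact Integrable.fintype_prod (f := fun _ u => |x - u| ^ (-s)) fun _ => sec_int hs hH x
  rw [integrable_prod_iff hm.aestronglyMeasurable]
  refine ⟨Eventually.of_forall fun x => hsec x, ?_⟩
  have hnn : ∀ (x : ℝ) (y : Fin n → ℝ), ‖∏ i, |x - y i| ^ (-s)‖ = ∏ i, |x - y i| ^ (-s) := fun x y =>
    Real.norm_of_nonneg (Finset.prod_nonneg fun i _ => Real.rpow_nonneg (abs_nonneg _) _)
  simp only [hnn]
  have e : ∀ x : ℝ, ∫ y : Fin n → ℝ, ∏ i, |x - y i| ^ (-s) ∂(volume.restrict (Box n H)) =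
      (∫ u in Set.Icc 0 H, |x - u| ^ (-s)) ^ n := by
    intro x
    rw [box_restrict, integral_fintype_prod_eq_pow (fun u => |x - u| ^ (-s)), Fintype.card_fin]
  obtain ⟨C, hC⟩ : ∃ C : ℝ, C = ∫ v in (-H)..H, |v| ^ (-s) := ⟨_, rfl⟩
  refine Integrable.of_bound (C := C ^ n) ?_ ?_
  · exact (hm.stronglyMeasurable.integral_prod_right'
      (ν := volume.restrict (Box n H))).aestronglyMeasurable
  · filter_upwards [ae_restrict_mem measurableSet_Icc] with x hx
    have h0 : 0 ≤ ∫ u in Set.Icc 0 H, |x - u| ^ (-s) :=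
      integral_nonneg fun u => Real.rpow_nonneg (abs_nonneg _) _
    rw [e, Real.norm_of_nonneg (pow_nonneg h0 n), hC]
    exact pow_le_pow_left₀ h0 (sec_le hs hH hx) n

theorem star_int {n : ℕ} {s : ℝ} (hs : s < 1) {H : ℝ} (hH : 0 ≤ H) (j : Fin n) :
    IntegrableOn (star (n := n) s j) (Box n H) := by
  cases n with
  | zero => exact j.elim0
  | succ n =>
    have he := volume_preserving_piFinSuccAbove (fun _ : Fin (n + 1) => ℝ) j
    have h1 := pair_int n hs hH
    rw [Measure.prod_restrict] at h1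
    have h2 : IntegrableOn (fun q : ℝ × (Fin n → ℝ) => ∏ i, |q.1 - q.2 i| ^ (-s))
        (Set.Icc 0 H ×ˢ Box n H) (volume.prod volume) := h1
    have h3 := (he.integrableOn_comp_preimage (MeasurableEquiv.measurableEmbedding _)).2 h2
    have e1 : (MeasurableEquiv.piFinSuccAbove (fun _ : Fin (n + 1) => ℝ) j) ⁻¹' (Set.Icc 0 H ×ˢ Box n H) =
        Box (n + 1) H := by
      ext h
      rw [Set.mem_preimage, Set.mem_prod, box_mem, box_mem]
      constructor
      · rintro ⟨a1, a2⟩ l
        rcases eq_or_ne l j with rfl | hl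
        · exact a1
        · obtain ⟨i, rfl⟩ := Fin.exists_succAbove_eq hl
          exact a2 i
      · intro a
        exact ⟨a j, fun i => a _⟩
    rw [e1] at h3
    refine h3.congr_fun (fun h _ => ?_) (box_meas _ _)
    rw [star_succ]
    rfl

/-- the coordinates are distinct almost everywhere -/
theorem ae_ne (n : ℕ) : ∀ᵐ h : Fin n → ℝ, ∀ j l : Fin n, j ≠ l → h j ≠ h l := by
  rw [ae_all_iff]
  intro j
  rw [ae_all_iff]
  intro l
  by_cases hjl : j = l
  · exact Eventually.of_forall fun h h1 => absurd hjl h1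
  · let S : Submodule ℝ (Fin n → ℝ) :=
      { carrier := {h | h j = h l}
        add_mem' := by
          intro a b ha hb
          show a j + b j = a l + b l
          rw [show a j = a l from ha, show b j = b l from hb]
        zero_mem' := rfl
        smul_mem' := by
          intro c a ha
          show c * a j = c * a l
          rw [show a j = a l from ha] }
    have hS : S ≠ ⊤ := by
      intro h
      have h1 : (Pi.single j 1 : Fin n → ℝ) ∈ S := by rw [h]; trivial
      have h2 : (Pi.single j 1 : Fin n → ℝ) j = (Pi.single j 1 : Fin n → ℝ) l := h1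
      rw [Pi.single_eq_same, Pi.single_eq_of_ne (Ne.symm hjl)] at h2
      exact one_ne_zero h2
    have h0 := Measure.addHaar_submodule (volume : Measure (Fin n → ℝ)) S hS
    have h3 : {h : Fin n → ℝ | ¬ (j ≠ l → h j ≠ h l)} ⊆ (S : Set (Fin n → ℝ)) := by
      intro h hh
      by_contra hc
      exact hh fun _ => hc
    exact measure_mono_null h3 h0

end Pool.Agent.H6Z.Mm
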