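import Pool.Agent.H6Z.Fl
import Pool.Agent.H52R4.PZT1

set_option autoImplicit false

/-! The fourth moment of zeta on lines near the critical line, over the whole interval. -/

namespace Pool.Agent.H6Z.Fz

open Finset Filter MeasureTheory Topology Complex

/-- the modulus of zeta -/
noncomputable def zf (Δ t : ℝ) : ℝ := ‖riemannZeta (1 / 2 + Δ + t * I)‖

lemma zf_nonneg (Δ t : ℝ) : 0 ≤ zf Δ t := norm_nonneg _

lemma zf_cont {Δ : ℝ} (hΔ : Δ < 1 / 2) : Continuous (zf Δ) := by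
  unfold zf
  refine Continuous.norm ?_
  rw [continuous_iff_continuousAt]
  intro t
  have h1 : (1 / 2 + (Δ : ℂ) + (t:ℂ) * I) ≠ 1 := by
    intro h
    have h2 := congrArg Complex.re h
    norm_num at h2
    linarith
  exact ContinuousAt.comp (f := fun t : ℝ => (1 / 2 + (Δ : ℂ) + (t:ℂ) * I))
    (differentiableAt_riemannZeta h1).continuousAt (by fun_prop)

lemma zf_even (Δ t : ℝ) : zf Δ (-t) = zf Δ t := by
  unfold zf
  have h := riemannZeta_conj (1 / 2 + (Δ : ℂ) + t * I)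
  have e : (1 / 2 + (Δ : ℂ) + ((-t : ℝ) : ℂ) * I) = (starRingEnd ℂ) (1 / 2 + (Δ : ℂ) + t * I) := by
    apply Complex.ext <;> simp
  rw [e, h, RCLike.norm_conj]

lemma zf4_cont {Δ : ℝ} (hΔ : Δ < 1 / 2) : Continuous fun t => zf Δ t ^ 4 := (zf_cont hΔ).pow 4

/-- a crude bound -/
lemma crude : ∃ C : ℝ, 1 ≤ C ∧ ∀ Δ t : ℝ, 0 ≤ Δ → Δ ≤ 1 / 16 → 0 ≤ t → zf Δ t ≤ C * (1 + t) := by
  have hcont : ContinuousOn (fun q : ℝ × ℝ => zf q.1 q.2) (Set.Icc 0 (1 / 16) ×ˢ Set.Icc 0 1) := by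
    intro q hq
    have h1 : (1 / 2 + (q.1 : ℂ) + (q.2:ℂ) * I) ≠ 1 := by
      intro h
      have h2 := congrArg Complex.re h
      norm_num at h2
      have := hq.1.2
      norm_num at this
      linarith
    have h2 : ContinuousAt (fun q : ℝ × ℝ => riemannZeta (1 / 2 + (q.1 : ℂ) + (q.2:ℂ) * I)) q :=
      ContinuousAt.comp (f := fun q : ℝ × ℝ => (1 / 2 + (q.1 : ℂ) + (q.2:ℂ) * I))
        (differentiableAt_riemannZeta h1).continuousAt (by fun_prop)
    exact h2.norm.continuousWithinAt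
  obtain ⟨C, hC⟩ := (isCompact_Icc.prod isCompact_Icc).exists_bound_of_continuousOn hcont
  refine ⟨max C 80 + 1, by linarith [le_max_right C 80], fun Δ t h1 h2 h3 => ?_⟩
  rcases le_total t 1 with h | h
  · have h4 := hC (Δ, t) ⟨⟨h1, h2⟩, ⟨h3, h⟩⟩
    rw [Real.norm_of_nonneg (zf_nonneg _ _)] at h4
    have h5 : zf Δ t ≤ C := h4
    have h6 := le_max_left C 80
    have h7 := le_max_right C 80
    nlinarith
  · have h4 := Pool.Agent.H52R4.PZT1.zeta_right (s := 1 / 2 + (Δ : ℂ) + t * I) (by simp; linarith)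
      (by simp; linarith) (by simp; rw [abs_of_nonneg h3]; exact h)
    have e : (1 / 2 + (Δ : ℂ) + t * I).im = t := by simp
    rw [e, abs_of_nonneg h3] at h4
    have h5 : zf Δ t ≤ 80 * t := h4
    have h7 := le_max_right C 80
    nlinarith

/-- the exponents -/
noncomputable def al (n : ℕ) : ℝ := (10 / 11) ^ n

lemma al_pos (n : ℕ) : 0 < al n := by unfold al; positivity

lemma al_le (n : ℕ) : al n ≤ 1 := by unfold al; exact pow_le_one₀ (by norm_num) (by norm_num)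

/-- induction -/
theorem iter (n : ℕ) : ∃ C : ℝ, 0 < C ∧ ∀ᶠ T : ℝ in atTop, ∀ Δ : ℝ, 2 ^ n / Real.log T ≤ Δ → Δ ≤ 1 / 16 →
    ∫ t in (T ^ al n)..(T / 2), zf Δ t ^ 4 ≤ C * (T * (1 / Δ) ^ 4) := by
  induction n with
  | zero =>
    refine ⟨1, one_pos, ?_⟩
    filter_upwards [eventually_gt_atTop 1] with T hT Δ h1 h2
    have hl : 0 < Real.log T := Real.log_pos hT
    have hΔ : 0 < Δ := lt_of_lt_of_le (by positivity) h1
    have e : T ^ al 0 = T := by unfold al; simp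
    rw [e, intervalIntegral.integral_symm]
    have h3 : 0 ≤ ∫ t in (T / 2)..T, zf Δ t ^ 4 :=
      intervalIntegral.integral_nonneg (by linarith) fun t _ => by have := zf_nonneg Δ t; positivity
    have h4 : 0 ≤ 1 * (T * (1 / Δ) ^ 4) := by
      have : 0 < T := by linarith
      positivity
    linarith
  | succ n ih =>
    obtain ⟨C1, hC1, h1⟩ := ih
    obtain ⟨C2, hC2, h2⟩ := Fl.fm_line
    refine ⟨C1 + C2, by positivity, ?_⟩
    have ht : Tendsto (fun T : ℝ => 2 * T ^ ((9:ℝ) / 10)) atTop atTop :=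
      (tendsto_rpow_atTop (by norm_num)).const_mul_atTop (by norm_num)
    have t0 : ∀ a b : ℝ, 0 < b → ∀ᶠ T : ℝ in atTop, a ≤ T ^ b := fun a b hb =>
      (tendsto_rpow_atTop hb).eventually_ge_atTop a
    filter_upwards [ht.eventually h1, h2, eventually_ge_atTop 16, t0 2 (1 / 10) (by norm_num),
      t0 2 (10 / 11 - 9 / 10) (by norm_num)] with T h1 h2 hT hT2 hT3 Δ hΔ1 hΔ2
    have hT0 : 0 < T := by linarith
    have hT1 : 1 ≤ T := by linarith
    have hl : 0 < Real.log T := Real.log_pos (by linarith)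
    have hΔ : 0 < Δ := lt_of_lt_of_le (by positivity) hΔ1
    have hc := zf4_cont (show Δ < 1 / 2 by linarith)
    have hnn : ∀ t, 0 ≤ zf Δ t ^ 4 := fun t => by have := zf_nonneg Δ t; positivity
    obtain ⟨a, ha⟩ : ∃ a : ℝ, a = T ^ al (n + 1) := ⟨_, rfl⟩
    obtain ⟨b, hb⟩ : ∃ b : ℝ, b = T ^ ((9:ℝ) / 10) := ⟨_, rfl⟩
    have hb0 : 0 < b := by rw [hb]; positivity
    have hbT : 2 * b ≤ T := by
      have h3 : b * T ^ ((1:ℝ) / 10) = T := by rw [hb, ← Real.rpow_add hT0]; norm_num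
      nlinarith
    have hbb : 2 * b ≤ T ^ ((10:ℝ) / 11) := by
      have h3 : b * T ^ ((10:ℝ) / 11 - 9 / 10) = T ^ ((10:ℝ) / 11) := by
        rw [hb, ← Real.rpow_add hT0]; norm_num
      nlinarith
    have hba : (2 * b) ^ al n ≤ a := by
      calc (2 * b) ^ al n ≤ (T ^ ((10:ℝ) / 11)) ^ al n := Real.rpow_le_rpow (by positivity) hbb (al_pos n).le
        _ = a := by
          rw [← Real.rpow_mul hT0.le, ha]
          unfold al
          congr 1
          rw [pow_succ]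
          ring
    -- the upper part
    have hup : ∫ t in b..(T / 2), zf Δ t ^ 4 ≤ C2 * (T * (1 / Δ) ^ 4) := by
      have hr : 1 / Real.log T ≤ Δ := by
        refine le_trans ?_ hΔ1
        gcongr
        exact one_le_pow₀ (by norm_num)
      refine le_trans ?_ (h2 Δ hr hΔ2)
      refine intervalIntegral.integral_mono_interval ?_ (by linarith) le_rfl
        (Eventually.of_forall hnn) (hc.intervalIntegrable _ _)
      rw [hb]
      exact Real.rpow_le_rpow_of_exponent_le hT1 (by norm_num)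
    -- the lower part
    have hlow : ∫ t in a..b, zf Δ t ^ 4 ≤ C1 * (T * (1 / Δ) ^ 4) := by
      have hlog : Real.log T ≤ 2 * Real.log (2 * b) := by
        have h3 : Real.log b = 9 / 10 * Real.log T := by rw [hb, Real.log_rpow hT0]
        have h4 : Real.log b ≤ Real.log (2 * b) := Real.log_le_log hb0 (by linarith)
        linarith
      have hl2 : 0 < Real.log (2 * b) := by linarith
      have h3 := h1 Δ (by
        rw [← hb]
        refine le_trans ?_ hΔ1
        rw [div_le_div_iff₀ hl2 hl, pow_succ]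
        nlinarith [pow_pos (show (0:ℝ) < 2 by norm_num) n]) hΔ2
      rw [← hb] at h3
      have e2 : 2 * b / 2 = b := by ring
      rw [e2] at h3
      have h4 : C1 * (2 * b * (1 / Δ) ^ 4) ≤ C1 * (T * (1 / Δ) ^ 4) := by gcongr
      rcases le_total a b with hab | hab
      · refine le_trans ?_ (h3.trans h4)
        exact intervalIntegral.integral_mono_interval hba hab le_rfl
          (Eventually.of_forall hnn) (hc.intervalIntegrable _ _)
      · rw [intervalIntegral.integral_symm]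
        have h5 : 0 ≤ ∫ t in b..a, zf Δ t ^ 4 := intervalIntegral.integral_nonneg hab fun t _ => hnn t
        have h6 : 0 ≤ C1 * (T * (1 / Δ) ^ 4) := by positivity
        linarith
    rw [← ha]
    have hadd := intervalIntegral.integral_add_adjacent_intervals (μ := volume) (hc.intervalIntegrable a b)
      (hc.intervalIntegrable b (T / 2))
    rw [← hadd]
    linarith

/-- the whole interval -/
theorem full : ∃ C : ℝ, 0 < C ∧ ∀ᶠ T : ℝ in atTop, ∀ Δ : ℝ, 2 ^ 17 / Real.log T ≤ Δ → Δ ≤ 1 / 16 →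
    ∫ t in (0:ℝ)..(T / 2), zf Δ t ^ 4 ≤ C * (T * (1 / Δ) ^ 4) := by
  obtain ⟨C1, hC1, h1⟩ := iter 17
  obtain ⟨C2, hC2, h2⟩ := crude
  refine ⟨C1 + C2 ^ 4 * 2 ^ 4, by positivity, ?_⟩
  filter_upwards [h1, eventually_ge_atTop 2] with T h1 hT Δ hΔ1 hΔ2
  have hT0 : 0 < T := by linarith
  have hT1 : 1 ≤ T := by linarith
  have hl : 0 < Real.log T := Real.log_pos (by linarith)
  have hΔ : 0 < Δ := lt_of_lt_of_le (by positivity) hΔ1
  have hc := zf4_cont (show Δ < 1 / 2 by linarith)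
  have h3 := h1 Δ hΔ1 hΔ2
  have hadd := intervalIntegral.integral_add_adjacent_intervals (μ := volume) (hc.intervalIntegrable 0 (T ^ al 17))
    (hc.intervalIntegrable (T ^ al 17) (T / 2))
  rw [← hadd]
  have ha1 : 1 ≤ T ^ al 17 := Real.one_le_rpow hT1 (al_pos _).le
  have hlow : ∫ t in (0:ℝ)..(T ^ al 17), zf Δ t ^ 4 ≤ C2 ^ 4 * 2 ^ 4 * T := by
    have h4 : ∀ t ∈ Set.Icc (0:ℝ) (T ^ al 17), zf Δ t ^ 4 ≤ C2 ^ 4 * 2 ^ 4 * (T ^ al 17) ^ 4 := by
      intro t ht
      have h5 := h2 Δ t hΔ.le hΔ2 ht.1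
      have h6 : C2 * (1 + t) ≤ C2 * (2 * T ^ al 17) := mul_le_mul_of_nonneg_left (by linarith [ht.2]) (by linarith)
      calc zf Δ t ^ 4 ≤ (C2 * (2 * T ^ al 17)) ^ 4 := pow_le_pow_left₀ (zf_nonneg _ _) (h5.trans h6) 4
        _ = _ := by ring
    have h7 : ∫ t in (0:ℝ)..(T ^ al 17), zf Δ t ^ 4 ≤ ∫ _t in (0:ℝ)..(T ^ al 17), C2 ^ 4 * 2 ^ 4 * (T ^ al 17) ^ 4 :=
      intervalIntegral.integral_mono_on (by linarith) (hc.intervalIntegrable _ _)
        (continuous_const.intervalIntegrable _ _) h4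
    rw [intervalIntegral.integral_const, smul_eq_mul] at h7
    refine h7.trans ?_
    have h8 : (T ^ al 17 - 0) * (C2 ^ 4 * 2 ^ 4 * (T ^ al 17) ^ 4) = C2 ^ 4 * 2 ^ 4 * (T ^ al 17) ^ 5 := by ring
    rw [h8]
    refine mul_le_mul_of_nonneg_left ?_ (by positivity)
    rw [← Real.rpow_natCast, ← Real.rpow_mul hT0.le]
    calc T ^ (al 17 * ((5:ℕ):ℝ)) ≤ T ^ (1:ℝ) := by
          refine Real.rpow_le_rpow_of_exponent_le hT1 ?_
          unfold al
          norm_num
      _ = T := Real.rpow_one T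
  have h9 : (1:ℝ) ≤ (1 / Δ) ^ 4 := by
    refine one_le_pow₀ ?_
    rw [one_le_div hΔ]
    linarith
  have h10 : C2 ^ 4 * 2 ^ 4 * T ≤ C2 ^ 4 * 2 ^ 4 * (T * (1 / Δ) ^ 4) := by
    refine mul_le_mul_of_nonneg_left ?_ (by positivity)
    nlinarith
  linarith

/-- with shifts -/
theorem shifted : ∃ C : ℝ, 0 < C ∧ ∀ᶠ T : ℝ in atTop, ∀ Δ h : ℝ, 2 ^ 17 / Real.log T ≤ Δ → Δ ≤ 1 / 16 →
    |h| ≤ T ^ ((1:ℝ) / 2) → ∫ t in (0:ℝ)..T, zf Δ (t + h) ^ 4 ≤ C * (T * (1 / Δ) ^ 4) := by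
  obtain ⟨C, hC, h1⟩ := full
  refine ⟨8 * C, by positivity, ?_⟩
  have h4 : Tendsto (fun T : ℝ => 4 * T) atTop atTop := tendsto_id.const_mul_atTop (by norm_num)
  filter_upwards [h4.eventually h1, eventually_ge_atTop 2] with T h1 hT Δ h hΔ1 hΔ2 hh
  have hT0 : 0 < T := by linarith
  have hl : 0 < Real.log T := Real.log_pos (by linarith)
  have hΔ : 0 < Δ := lt_of_lt_of_le (by positivity) hΔ1
  have hc := zf4_cont (show Δ < 1 / 2 by linarith)
  have hnn : ∀ t, 0 ≤ zf Δ t ^ 4 := fun t => by have := zf_nonneg Δ t; positivity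
  have hlog : Real.log T ≤ Real.log (4 * T) := Real.log_le_log hT0 (by linarith)
  have h2 := h1 Δ (le_trans (by gcongr) hΔ1) hΔ2
  have e1 : 4 * T / 2 = 2 * T := by ring
  rw [e1] at h2
  have hs : T ^ ((1:ℝ) / 2) ≤ T := by
    calc T ^ ((1:ℝ) / 2) ≤ T ^ (1:ℝ) := Real.rpow_le_rpow_of_exponent_le (by linarith) (by norm_num)
      _ = T := Real.rpow_one T
  have hh' := abs_le.1 (hh.trans hs)
  have e2 : ∫ t in (0:ℝ)..T, zf Δ (t + h) ^ 4 = ∫ t in (0 + h)..(T + h), zf Δ t ^ 4 :=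
    intervalIntegral.integral_comp_add_right (fun t => zf Δ t ^ 4) h
  rw [e2]
  have e3 : ∫ t in (-(2 * T))..(0:ℝ), zf Δ t ^ 4 = ∫ t in (0:ℝ)..(2 * T), zf Δ t ^ 4 := by
    have h5 := intervalIntegral.integral_comp_neg (f := fun t => zf Δ t ^ 4) (a := 0) (b := 2 * T)
    rw [neg_zero] at h5
    rw [← h5]
    refine intervalIntegral.integral_congr fun t _ => ?_
    simp only [zf_even]
  have h6 : ∫ t in (0 + h)..(T + h), zf Δ t ^ 4 ≤ ∫ t in (-(2 * T))..(2 * T), zf Δ t ^ 4 :=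
    intervalIntegral.integral_mono_interval (by linarith) (by linarith) (by linarith)
      (Eventually.of_forall hnn) (hc.intervalIntegrable _ _)
  have hadd := intervalIntegral.integral_add_adjacent_intervals (μ := volume) (hc.intervalIntegrable (-(2 * T)) 0)
    (hc.intervalIntegrable 0 (2 * T))
  rw [e3] at hadd
  have h7 : C * (4 * T * (1 / Δ) ^ 4) * 2 = 8 * C * (T * (1 / Δ) ^ 4) := by ring
  linarith

end Pool.Agent.H6Z.Fz
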