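import Pool.Agent.H370R2.PC2
import Pool.Agent.H370R2.DirGood

set_option autoImplicit false

/-! The number of zeros with a height in a set that is small in the sense of windows. -/

namespace Pool.Agent.H6Z

open Finset Filter MeasureTheory Topology Complex

/-- the multiplicity of a zero of zeta -/
noncomputable def mu (s : ℂ) : ℝ := (H370.mult riemannZeta s : ℝ)

lemma mu_nonneg (s : ℂ) : 0 ≤ mu s := Nat.cast_nonneg _

/-- the zeros near a given height -/
theorem near_le : ∃ C : ℝ, 0 < C ∧ ∀ T : ℝ, 4 ≤ T → ∀ S : Finset ℂ, S ⊆ H370.Zf riemannZeta T (2 * T) → ∀ t : ℝ,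
    (∀ s ∈ S, |s.im - t| ≤ 1) → ∑ s ∈ S, mu s ≤ C * Real.log T := by
  obtain ⟨C, hC, h⟩ := H370.Zg_le H370.good_zeta
  refine ⟨Real.exp (1 / 2) * C, by positivity, ?_⟩
  intro T hT S hS t ht
  have h1 := h T hT T (2 * T) le_rfl le_rfl t
  unfold H370.Zg at h1
  have h2 : ∑ s ∈ S, mu s ≤ Real.exp (1 / 2) * ∑ s ∈ H370.Zf riemannZeta T (2 * T),
      (H370.mult riemannZeta s : ℝ) * Real.exp (-(s.im - t) ^ 2 / 2) := by
    rw [Finset.mul_sum]
    calc ∑ s ∈ S, mu s ≤ ∑ s ∈ S, Real.exp (1 / 2) * (mu s * Real.exp (-(s.im - t) ^ 2 / 2)) := by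
          refine Finset.sum_le_sum fun s hs => ?_
          have h3 := abs_le.1 (ht s hs)
          have h4 : (s.im - t) ^ 2 ≤ 1 := by nlinarith [h3.1, h3.2]
          have h5 : (1:ℝ) ≤ Real.exp (1 / 2) * Real.exp (-(s.im - t) ^ 2 / 2) := by
            rw [← Real.exp_add]
            exact Real.one_le_exp (by linarith)
          have := mul_le_mul_of_nonneg_left h5 (mu_nonneg s)
          linarith
      _ ≤ _ := Finset.sum_le_sum_of_subset_of_nonneg hS fun s _ _ =>
          mul_nonneg (Real.exp_pos _).le (mul_nonneg (mu_nonneg s) (Real.exp_pos _).le)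
  calc ∑ s ∈ S, mu s ≤ Real.exp (1 / 2) * (C * Real.log T) :=
        h2.trans (mul_le_mul_of_nonneg_left h1 (Real.exp_pos _).le)
    _ = _ := by ring

/-- the zeros with a height in a small set -/
theorem count_bad : ∃ C : ℝ, 0 < C ∧ ∀ T : ℝ, 4 ≤ T → ∀ S : Finset ℂ, S ⊆ H370.Zf riemannZeta T (2 * T) → ∀ (h B : ℝ)
    (W : Set ℝ), (∀ s ∈ S, ∀ t : ℝ, s.im + h - 1 ≤ t → t ≤ s.im + h → t ∈ W) → 0 ≤ B → volume W ≤ ENNReal.ofReal B →
    ∑ s ∈ S, mu s ≤ C * Real.log T * B := by
  classical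
  obtain ⟨C, hC, hnear⟩ := near_le
  refine ⟨C, hC, ?_⟩
  intro T hT S hS h B W hW hB hv
  have hlog : 0 < Real.log T := Real.log_pos (by linarith)
  obtain ⟨I, hI⟩ : ∃ I : ℂ → Set ℝ, I = fun s => Set.Icc (s.im + h - 1) (s.im + h) := ⟨_, rfl⟩
  obtain ⟨U, hU⟩ : ∃ U : Set ℝ, U = ⋃ s ∈ S, I s := ⟨_, rfl⟩
  have hIm : ∀ s, MeasurableSet (I s) := by intro s; rw [hI]; exact measurableSet_Icc
  have hUW : U ⊆ W := by
    rw [hU]
    refine Set.iUnion₂_subset fun s hs t ht => ?_
    rw [hI] at ht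
    exact hW s hs t ht.1 ht.2
  have hUv : volume U ≤ ENNReal.ofReal B := (measure_mono hUW).trans hv
  have h1 : ∫⁻ t, ∑ s ∈ S, ENNReal.ofReal (mu s) * (I s).indicator 1 t = ENNReal.ofReal (∑ s ∈ S, mu s) := by
    rw [lintegral_finsetSum]
    · rw [ENNReal.ofReal_sum_of_nonneg fun s _ => mu_nonneg s]
      refine Finset.sum_congr rfl fun s _ => ?_
      rw [lintegral_const_mul _ (measurable_one.indicator (hIm s)), lintegral_indicator_one (hIm s), hI]
      simp
    · intro s _
      exact (measurable_one.indicator (hIm s)).const_mul _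
  have h2 : ∀ t, ∑ s ∈ S, ENNReal.ofReal (mu s) * (I s).indicator 1 t ≤
      ENNReal.ofReal (C * Real.log T) * U.indicator 1 t := by
    intro t
    by_cases ht : t ∈ U
    · rw [Set.indicator_of_mem ht]
      have h3 : ∑ s ∈ S, ENNReal.ofReal (mu s) * (I s).indicator 1 t =
          ∑ s ∈ S.filter (fun s => t ∈ I s), ENNReal.ofReal (mu s) := by
        rw [Finset.sum_filter]
        refine Finset.sum_congr rfl fun s _ => ?_
        by_cases hs : t ∈ I s
        · rw [if_pos hs, Set.indicator_of_mem hs]; simp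
        · rw [if_neg hs, Set.indicator_of_notMem hs]; simp
      rw [h3, ← ENNReal.ofReal_sum_of_nonneg fun s _ => mu_nonneg s]
      simp only [Pi.one_apply, mul_one]
      refine ENNReal.ofReal_le_ofReal ?_
      refine hnear T hT _ ((Finset.filter_subset _ _).trans hS) (t - h) ?_
      intro s hs
      rw [Finset.mem_filter, hI] at hs
      obtain ⟨_, h5, h6⟩ := hs
      rw [abs_le]
      constructor <;> linarith
    · have h3 : ∀ s ∈ S, t ∉ I s := by
        intro s hs hts
        apply ht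
        rw [hU]
        exact Set.mem_iUnion₂.2 ⟨s, hs, hts⟩
      rw [Finset.sum_eq_zero fun s hs => by rw [Set.indicator_of_notMem (h3 s hs), mul_zero]]
      exact zero_le
  have hUm : MeasurableSet U := by
    rw [hU]
    exact Finset.measurableSet_biUnion S fun s _ => hIm s
  have h4 : ENNReal.ofReal (∑ s ∈ S, mu s) ≤ ENNReal.ofReal (C * Real.log T * B) := by
    rw [← h1]
    calc _ ≤ ∫⁻ t, ENNReal.ofReal (C * Real.log T) * U.indicator 1 t := lintegral_mono h2
      _ = ENNReal.ofReal (C * Real.log T) * volume U := by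
          rw [lintegral_const_mul _ (measurable_one.indicator hUm), lintegral_indicator_one hUm]
      _ ≤ ENNReal.ofReal (C * Real.log T) * ENNReal.ofReal B := by gcongr
      _ = _ := (ENNReal.ofReal_mul (by positivity)).symm
  exact (ENNReal.ofReal_le_ofReal_iff (by positivity)).1 h4

end Pool.Agent.H6Z
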