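import Pool.Agent.H6Z.Ty
import Pool.Agent.Q97.UM.Base8

set_option autoImplicit false

/-! The zeros in the moment measures. -/

namespace Pool.Agent.H6Z

open Finset Filter MeasureTheory Topology Complex
open Pool.Agent.N748.MG Pool.Agent.N748.MJ
open Pool.Agent.N748.MJ.SM (cc Lr G kp)
open Pool.Agent.Q97.UM (dp N2 cv ZI b_SAMP b_SAMPI)

/-- the zeros with ordinate in `(X, 2X]` -/
noncomputable def ZX (X : ℝ) : Finset ℂ := H370.Zf riemannZeta X (2 * X)

theorem ub : S_UB := by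
  obtain ⟨θ, hθ, hθ1, h⟩ := b_SAMP 1 one_pos
  refine ⟨θ, hθ, hθ1, ?_⟩
  filter_upwards [h, eventually_ge_atTop (3:ℝ)] with T hT hT3 N hN b
  have h1 := (abs_le.1 (hT N hN b).2.2).2
  have hN2 : 0 ≤ T * N2 N b := mul_nonneg (by linarith) (N2_nonneg N b)
  have hlog : 0 ≤ Real.log T := Real.log_nonneg (by linarith)
  have hpi : (3:ℝ) < Real.pi := Real.pi_gt_three
  have h2 : Real.log T / (2 * Real.pi) * (T * N2 N b) ≤ Real.log T * (T * N2 N b) := by
    apply mul_le_mul_of_nonneg_right _ hN2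
    rw [div_le_iff₀ (by positivity)]
    nlinarith
  have h3 : ∑ s ∈ H370.Zf riemannZeta T (2 * T), mu s * ‖dp N b s.im‖ ^ 2 =
      ∑ s ∈ H370.Zf riemannZeta T (2 * T), (Pool.Agent.Q97.UM.mz s : ℝ) * ‖dp N b s.im‖ ^ 2 := rfl
  rw [h3]
  nlinarith

theorem total_le : ∀ᶠ X : ℝ in atTop, ∑ s ∈ ZX X, mu s ≤ 2 * (X * Real.log X) := by
  obtain ⟨θ, hθ, _, h⟩ := ub
  filter_upwards [h, eventually_ge_atTop (3:ℝ)] with X hX hX3
  have h1 := hX 1 (by rw [Nat.cast_one]; exact Real.one_le_rpow (by linarith) hθ.le) (fun _ => 1)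
  have hN : N2 1 (fun _ => (1 : ℂ)) = 1 := by simp [N2]
  have hdp : ∀ t : ℝ, dp 1 (fun _ => (1 : ℂ)) t = 1 := by intro t; simp [dp]
  simp only [hN, hdp, norm_one, one_pow, mul_one] at h1
  unfold ZX
  linarith

open Classical in
/-- comparison of the sums -/
lemma cmp_sum {m : ℕ} {R D θ ε C5 B X δ : ℝ} {h : Fin m → ℝ} {y : ℝ} {K : ℕ} {G0 : Finset ℂ}
    (hG : GZ R D θ ε C5 B X δ h y K G0) (hX : 1 ≤ X) (hδ : 0 < δ)
    (htot : ∑ s ∈ ZX X, mu s ≤ 2 * (X * Real.log X))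
    (k : Fin m → ℝ) (hk : ∀ j, |k j| ≤ R) (S : Finset ℂ) (hS : S ⊆ ZX X) :
    |(∑ s ∈ S.filter (fun s => s ∈ G0), mu s * G k h δ s.im) - ∑ s ∈ S, mu s * ‖AV (cc k) h y K (pw δ s.im)‖ ^ 2| ≤
      3 * (δ ^ D * (X * Real.log X)) := by
  have hδD : 0 < δ ^ D := Real.rpow_pos_of_pos hδ D
  have h1 := Finset.sum_filter_add_sum_filter_not S (fun s => s ∈ G0)
    (fun s => mu s * ‖AV (cc k) h y K (pw δ s.im)‖ ^ 2)
  have h2 : |(∑ s ∈ S.filter (fun s => s ∈ G0), mu s * G k h δ s.im) -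
      ∑ s ∈ S.filter (fun s => s ∈ G0), mu s * ‖AV (cc k) h y K (pw δ s.im)‖ ^ 2| ≤ δ ^ D * (2 * (X * Real.log X)) := by
    rw [← Finset.sum_sub_distrib]
    calc |∑ s ∈ S.filter (fun s => s ∈ G0), (mu s * G k h δ s.im - mu s * ‖AV (cc k) h y K (pw δ s.im)‖ ^ 2)|
        ≤ ∑ s ∈ S.filter (fun s => s ∈ G0), |mu s * G k h δ s.im - mu s * ‖AV (cc k) h y K (pw δ s.im)‖ ^ 2| :=
          Finset.abs_sum_le_sum_abs _ _
      _ ≤ ∑ s ∈ S.filter (fun s => s ∈ G0), mu s * δ ^ D := by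
          refine Finset.sum_le_sum fun s hs => ?_
          rw [← mul_sub, abs_mul, abs_of_nonneg (mu_nonneg s)]
          exact mul_le_mul_of_nonneg_left (hG.cmp k hk s (Finset.mem_filter.1 hs).2) (mu_nonneg s)
      _ ≤ ∑ s ∈ ZX X, mu s * δ ^ D := by
          refine Finset.sum_le_sum_of_subset_of_nonneg ((Finset.filter_subset _ _).trans hS) fun s _ _ => ?_
          exact mul_nonneg (mu_nonneg s) hδD.le
      _ = δ ^ D * ∑ s ∈ ZX X, mu s := by rw [← Finset.sum_mul]; ring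
      _ ≤ _ := mul_le_mul_of_nonneg_left htot hδD.le
  have h3 : ∑ s ∈ S.filter (fun s => ¬ s ∈ G0), mu s * ‖AV (cc k) h y K (pw δ s.im)‖ ^ 2 ≤
      δ ^ D * (X * Real.log X) := by
    refine le_trans (Finset.sum_le_sum_of_subset_of_nonneg ?_ fun s _ _ =>
      mul_nonneg (mu_nonneg s) (by positivity)) (hG.bad2 k hk)
    intro s hs
    rw [Finset.mem_filter] at hs
    rw [Finset.mem_sdiff]
    exact ⟨hS hs.1, hs.2⟩
  have h4 : 0 ≤ ∑ s ∈ S.filter (fun s => ¬ s ∈ G0), mu s * ‖AV (cc k) h y K (pw δ s.im)‖ ^ 2 :=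
    Finset.sum_nonneg fun s _ => mul_nonneg (mu_nonneg s) (by positivity)
  rw [← h1]
  rw [abs_le] at h2 ⊢
  constructor <;> linarith [h2.1, h2.2]

open Classical in
/-- the weights of the zeros without typical size -/
lemma atyp {m : ℕ} {R η D θ ε C5 B X δ Ca : ℝ} {h : Fin m → ℝ} {y : ℝ} {K : ℕ} {G0 : Finset ℂ}
    (hG : GZ (R + η) D θ ε C5 B X δ h y K G0) (hX : 1 ≤ X) (hδ : 0 < δ) (hδ16 : δ ≤ 1 / 16) (hR : 0 < R) (hη : 0 < η)
    (hCa : 0 ≤ Ca)
    (htot : ∑ s ∈ ZX X, mu s ≤ 2 * (X * Real.log X))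
    (hub : ∀ b : ℕ → ℂ, ∑ s ∈ ZX X, mu s * ‖dp (Nb y K) b s.im‖ ^ 2 ≤ 2 * (Real.log X * (X * N2 (Nb y K) b)))
    (hD : (m * (R + η)) ^ 2 ≤ D)
    (ha : ∀ k : Fin m → ℝ, (∀ j, |k j| ≤ R + η) → (aV (cc k) (cc k) h).re + ε ≤ Ca)
    (k : Fin m → ℝ) (hk : ∀ j, |k j| ≤ R) :
    ∑ s ∈ G0.filter (fun s => ¬ Ty k h η δ s.im), mu s * G k h δ s.im ≤
      2 * m * (2 * Ca + 3) * δ ^ (η ^ 2) * (X * Real.log X * Real.exp (Lr k h δ)) := by
  obtain ⟨L, hL⟩ : ∃ L, L = Real.log (1 / δ) := ⟨_, rfl⟩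
  have hL1 : 1 ≤ L := by rw [hL]; exact log_inv_ge hδ hδ16
  have hlog : Real.log δ = -L := by rw [hL, one_div, Real.log_inv, neg_neg]
  have hXl : 0 ≤ X * Real.log X := mul_nonneg (by linarith) (Real.log_nonneg hX)
  have hG0Z : G0 ⊆ ZX X := hG.sub
  -- the sum over the good zeros
  have hall : ∀ k' : Fin m → ℝ, (∀ j, |k' j| ≤ R + η) →
      ∑ s ∈ G0, mu s * G k' h δ s.im ≤ (2 * Ca + 3) * (X * Real.log X * Real.exp (Lr k' h δ)) := by
    intro k' hk'
    have h1 := (abs_le.1 (cmp_sum hG hX hδ htot k' hk' G0 hG0Z)).2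
    rw [Finset.filter_true_of_mem fun s hs => hs] at h1
    have h2 : ∑ s ∈ G0, mu s * ‖AV (cc k') h y K (pw δ s.im)‖ ^ 2 ≤
        2 * (Real.log X * (X * N2 (Nb y K) (bV (cc k') h y K δ))) := by
      refine le_trans ?_ (hub (bV (cc k') h y K δ))
      simp only [dp_bV]
      exact Finset.sum_le_sum_of_subset_of_nonneg hG0Z fun s _ _ => mul_nonneg (mu_nonneg s) (by positivity)
    have h3 := (abs_le.1 (hG.main k' hk')).2
    have h4 : N2 (Nb y K) (bV (cc k') h y K δ) ≤ Ca * Real.exp (Lr k' h δ) := by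
      have h5 : Real.exp (-(Lr k' h δ)) * N2 (Nb y K) (bV (cc k') h y K δ) ≤ Ca := by
        linarith [ha k' hk']
      have h6 := mul_le_mul_of_nonneg_right h5 (Real.exp_pos (Lr k' h δ)).le
      calc N2 (Nb y K) (bV (cc k') h y K δ) =
          Real.exp (-(Lr k' h δ)) * N2 (Nb y K) (bV (cc k') h y K δ) * Real.exp (Lr k' h δ) := by
            rw [mul_right_comm, ← Real.exp_add, neg_add_cancel, Real.exp_zero, one_mul]
        _ ≤ _ := h6
    have h7 : δ ^ D ≤ Real.exp (Lr k' h δ) := by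
      have h8 := (abs_le.1 (Lr_abs hδ hδ16 (by positivity : 0 ≤ R + η) k' h hk')).1
      rw [← hL] at h8
      rw [Real.rpow_def_of_pos hδ, hlog]
      refine Real.exp_le_exp.2 ?_
      have := mul_le_mul_of_nonneg_right hD (by linarith : 0 ≤ L)
      linarith
    have h9 : 2 * (Real.log X * (X * N2 (Nb y K) (bV (cc k') h y K δ))) ≤
        2 * Ca * (X * Real.log X * Real.exp (Lr k' h δ)) := by
      calc 2 * (Real.log X * (X * N2 (Nb y K) (bV (cc k') h y K δ))) =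
          2 * (X * Real.log X) * N2 (Nb y K) (bV (cc k') h y K δ) := by ring
        _ ≤ 2 * (X * Real.log X) * (Ca * Real.exp (Lr k' h δ)) := by gcongr
        _ = _ := by ring
    have h10 : 3 * (δ ^ D * (X * Real.log X)) ≤ 3 * (X * Real.log X * Real.exp (Lr k' h δ)) := by
      have := mul_le_mul_of_nonneg_right h7 hXl
      linarith
    linarith
  -- one exponent changed
  have hone : ∀ (τ : ℝ) (j : Fin m), (τ = η ∨ τ = -η) →
      ∑ s ∈ G0, mu s * G (kp k τ j) h δ s.im * Real.exp (-(2 * τ * mn k h δ (h j)) - 2 * η ^ 2 * L) ≤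
        (2 * Ca + 3) * δ ^ (η ^ 2) * (X * Real.log X * Real.exp (Lr k h δ)) := by
    intro τ j hτ
    have hτ2 : τ ^ 2 = η ^ 2 := by rcases hτ with h | h <;> rw [h] <;> ring
    have hτa : |τ| = η := by
      rcases hτ with h | h
      · rw [h, abs_of_pos hη]
      · rw [h, abs_neg, abs_of_pos hη]
    have hk' : ∀ i, |kp k τ j i| ≤ R + η := by
      intro i
      unfold kp
      refine (abs_add_le _ _).trans ?_
      have h1 : |if i = j then τ else 0| ≤ η := by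
        split_ifs
        · exact hτa.le
        · rw [abs_zero]; exact hη.le
      linarith [hk i]
    rw [← Finset.sum_mul]
    have h1 := mul_le_mul_of_nonneg_right (hall (kp k τ j) hk')
      (Real.exp_pos (-(2 * τ * mn k h δ (h j)) - 2 * η ^ 2 * L)).le
    refine h1.trans ?_
    rw [Lr_kp hδ hδ16]
    have h2 : Real.exp (Lr k h δ + 2 * τ * mn k h δ (h j) + τ ^ 2 * lz δ 0) *
        Real.exp (-(2 * τ * mn k h δ (h j)) - 2 * η ^ 2 * L) ≤ δ ^ (η ^ 2) * Real.exp (Lr k h δ) := by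
      rw [Real.rpow_def_of_pos hδ, hlog, ← Real.exp_add, ← Real.exp_add, hτ2]
      refine Real.exp_le_exp.2 ?_
      have h3 := (abs_le.1 (lz_abs hδ hδ16 0)).2
      rw [← hL] at h3
      have := mul_le_mul_of_nonneg_left h3 (sq_nonneg η)
      linarith
    have h4 : 0 ≤ (2 * Ca + 3) * (X * Real.log X) := by positivity
    calc (2 * Ca + 3) * (X * Real.log X * Real.exp (Lr k h δ + 2 * τ * mn k h δ (h j) + τ ^ 2 * lz δ 0)) *
        Real.exp (-(2 * τ * mn k h δ (h j)) - 2 * η ^ 2 * L) =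
        (2 * Ca + 3) * (X * Real.log X) * (Real.exp (Lr k h δ + 2 * τ * mn k h δ (h j) + τ ^ 2 * lz δ 0) *
        Real.exp (-(2 * τ * mn k h δ (h j)) - 2 * η ^ 2 * L)) := by ring
      _ ≤ (2 * Ca + 3) * (X * Real.log X) * (δ ^ (η ^ 2) * Real.exp (Lr k h δ)) := mul_le_mul_of_nonneg_left h2 h4
      _ = _ := by ring
  have hpt : ∀ s ∈ G0.filter (fun s => ¬ Ty k h η δ s.im), mu s * G k h δ s.im ≤
      ∑ j, (mu s * G (kp k η j) h δ s.im * Real.exp (-(2 * η * mn k h δ (h j)) - 2 * η ^ 2 * L) +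
        mu s * G (kp k (-η) j) h δ s.im * Real.exp (-(2 * -η * mn k h δ (h j)) - 2 * η ^ 2 * L)) := by
    intro s hs
    rw [Finset.mem_filter] at hs
    have h1 := chern hη (fun j => by
      have := hG.nz s hs.1 j
      unfold mz
      exact norm_ne_zero_iff.2 this) hs.2
    refine (mul_le_mul_of_nonneg_left h1 (mu_nonneg s)).trans (le_of_eq ?_)
    rw [Finset.mul_sum]
    refine Finset.sum_congr rfl fun j _ => ?_
    rw [← hL, mul_add]
    have e1 : -(2 * η * (mn k h δ (h j) + η * L)) = -(2 * η * mn k h δ (h j)) - 2 * η ^ 2 * L := by ring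
    have e2 : 2 * η * (mn k h δ (h j) - η * L) = -(2 * -η * mn k h δ (h j)) - 2 * η ^ 2 * L := by ring
    rw [e1, e2]
    ring
  calc ∑ s ∈ G0.filter (fun s => ¬ Ty k h η δ s.im), mu s * G k h δ s.im
      ≤ ∑ s ∈ G0.filter (fun s => ¬ Ty k h η δ s.im),
        ∑ j, (mu s * G (kp k η j) h δ s.im * Real.exp (-(2 * η * mn k h δ (h j)) - 2 * η ^ 2 * L) +
        mu s * G (kp k (-η) j) h δ s.im * Real.exp (-(2 * -η * mn k h δ (h j)) - 2 * η ^ 2 * L)) :=
        Finset.sum_le_sum hpt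
    _ ≤ ∑ s ∈ G0,
        ∑ j, (mu s * G (kp k η j) h δ s.im * Real.exp (-(2 * η * mn k h δ (h j)) - 2 * η ^ 2 * L) +
        mu s * G (kp k (-η) j) h δ s.im * Real.exp (-(2 * -η * mn k h δ (h j)) - 2 * η ^ 2 * L)) := by
        refine Finset.sum_le_sum_of_subset_of_nonneg (Finset.filter_subset _ _) fun s _ _ => ?_
        refine Finset.sum_nonneg fun j _ => ?_
        exact add_nonneg (mul_nonneg (mul_nonneg (mu_nonneg s) (SM.G_nn _ _ _ _)) (Real.exp_pos _).le)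
          (mul_nonneg (mul_nonneg (mu_nonneg s) (SM.G_nn _ _ _ _)) (Real.exp_pos _).le)
    _ = ∑ j, ((∑ s ∈ G0, mu s * G (kp k η j) h δ s.im * Real.exp (-(2 * η * mn k h δ (h j)) - 2 * η ^ 2 * L)) +
        ∑ s ∈ G0, mu s * G (kp k (-η) j) h δ s.im * Real.exp (-(2 * -η * mn k h δ (h j)) - 2 * η ^ 2 * L)) := by
        rw [Finset.sum_comm]
        refine Finset.sum_congr rfl fun j _ => ?_
        rw [Finset.sum_add_distrib]
    _ ≤ ∑ _j : Fin m, ((2 * Ca + 3) * δ ^ (η ^ 2) * (X * Real.log X * Real.exp (Lr k h δ)) +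
        (2 * Ca + 3) * δ ^ (η ^ 2) * (X * Real.log X * Real.exp (Lr k h δ))) :=
        Finset.sum_le_sum fun j _ => add_le_add (hone η j (Or.inl rfl)) (hone (-η) j (Or.inr rfl))
    _ = _ := by
        rw [Finset.sum_const, Finset.card_univ, Fintype.card_fin, nsmul_eq_mul]
        ring

end Pool.Agent.H6Z
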