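import Pool.Agent.H6Z.Fl
import Pool.Agent.H6Z.Core

set_option autoImplicit false

/-! The moments of order below four of zeta near the critical line, over the zeros. -/

namespace Pool.Agent.H6Z

open Finset Filter MeasureTheory Topology Complex
open Pool.Agent.N748 Pool.Agent.N748.MG Pool.Agent.N748.MJ

/-- from the numbers of large values to the moments -/
lemma layer {S : Finset ℂ} {w x : ℂ → ℝ} {ν A B : ℝ} (hw : ∀ s, 0 ≤ w s) (hx : ∀ s, 0 ≤ x s) (hν : 0 < ν)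
    (hν2 : ν ≤ 2) (hA : ∑ s ∈ S, w s ≤ A) (hB : 0 ≤ B)
    (hN : ∀ κ : ℝ, 1 ≤ κ → ∑ s ∈ S.filter (fun s => κ ≤ x s), w s ≤ B / κ ^ 2) :
    ∑ s ∈ S, w s * x s ^ (2 - ν) ≤ A + 4 * B / (1 - 2 ^ (-ν)) := by
  classical
  obtain ⟨r, hr⟩ : ∃ r : ℝ, r = 2 ^ (-ν) := ⟨_, rfl⟩
  have hr0 : 0 < r := by rw [hr]; positivity
  have hr1 : r < 1 := by rw [hr]; exact Real.rpow_lt_one_of_one_lt_of_neg (by norm_num) (by linarith)
  obtain ⟨n, hn⟩ := pow_unbounded_of_one_lt (∑ s ∈ S, x s) (by norm_num : (1:ℝ) < 2)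
  have hxn : ∀ s ∈ S, x s < 2 ^ n := fun s hs =>
    (Finset.single_le_sum (fun s _ => hx s) hs).trans_lt hn
  have hpt : ∀ s ∈ S, x s ^ (2 - ν) ≤ 1 + ∑ i ∈ range n, if (2:ℝ) ^ i ≤ x s then ((2:ℝ) ^ (i + 1)) ^ (2 - ν) else 0 := by
    intro s hs
    have h0 : ∀ i ∈ range n, 0 ≤ if (2:ℝ) ^ i ≤ x s then ((2:ℝ) ^ (i + 1)) ^ (2 - ν) else 0 := by
      intro i _
      split_ifs
      · positivity
      · exact le_rfl
    rcases lt_or_ge (x s) 1 with h1 | h1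
    · have := Real.rpow_le_one (hx s) h1.le (by linarith : 0 ≤ 2 - ν)
      linarith [Finset.sum_nonneg h0]
    · obtain ⟨i, hi1, hi2⟩ := exists_nat_pow_near h1 (by norm_num : (1:ℝ) < 2)
      have hin : i < n := by
        have h2 := hi1.trans_lt (hxn s hs)
        exact (pow_lt_pow_iff_right₀ (by norm_num : (1:ℝ) < 2)).1 h2
      have h3 := Finset.single_le_sum h0 (mem_range.2 hin)
      simp only [if_pos hi1] at h3
      have h4 : x s ^ (2 - ν) ≤ ((2:ℝ) ^ (i + 1)) ^ (2 - ν) := Real.rpow_le_rpow (hx s) hi2.le (by linarith)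
      linarith
  have hgeo : ∑ i ∈ range n, r ^ i ≤ 1 / (1 - r) := by
    rw [geom_sum_eq hr1.ne, ← neg_div_neg_eq]
    have : 0 ≤ r ^ n := by positivity
    have h1 : 0 < 1 - r := by linarith
    rw [neg_sub, neg_sub]
    gcongr
    linarith
  calc ∑ s ∈ S, w s * x s ^ (2 - ν)
      ≤ ∑ s ∈ S, w s * (1 + ∑ i ∈ range n, if (2:ℝ) ^ i ≤ x s then ((2:ℝ) ^ (i + 1)) ^ (2 - ν) else 0) :=
        Finset.sum_le_sum fun s hs => mul_le_mul_of_nonneg_left (hpt s hs) (hw s)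
    _ = ∑ s ∈ S, w s + ∑ i ∈ range n, ((2:ℝ) ^ (i + 1)) ^ (2 - ν) * ∑ s ∈ S.filter (fun s => (2:ℝ) ^ i ≤ x s), w s := by
        simp_rw [mul_add, mul_one, Finset.sum_add_distrib, Finset.mul_sum]
        rw [Finset.sum_comm]
        congr 1
        refine Finset.sum_congr rfl fun i _ => ?_
        rw [Finset.sum_filter]
        refine Finset.sum_congr rfl fun s _ => ?_
        split_ifs
        · ring
        · ring
    _ ≤ A + ∑ i ∈ range n, 4 * B * r ^ i := by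
        refine add_le_add hA (Finset.sum_le_sum fun i _ => ?_)
        have h2i : (1:ℝ) ≤ 2 ^ i := one_le_pow₀ (by norm_num)
        have h2p : (0:ℝ) < 2 ^ i := by positivity
        have h1 := hN _ h2i
        have h3 : ((2:ℝ) ^ (i + 1)) ^ (2 - ν) ≤ 4 * (((2:ℝ) ^ i) ^ 2 * r ^ i) := by
          have e1 : ((2:ℝ) ^ (i + 1)) ^ (2 - ν) = 2 ^ (2 - ν) * ((2:ℝ) ^ i) ^ (2 - ν) := by
            rw [pow_succ', Real.mul_rpow (by norm_num) h2p.le]
          have e2 : ((2:ℝ) ^ i) ^ (2 - ν) = ((2:ℝ) ^ i) ^ 2 * r ^ i := by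
            rw [sub_eq_add_neg, Real.rpow_add h2p, Real.rpow_two, hr, ← Real.rpow_natCast ((2:ℝ) ^ (-ν)),
              ← Real.rpow_natCast (2:ℝ), ← Real.rpow_mul (by norm_num), ← Real.rpow_mul (by norm_num)]
            congr 2
            ring
          have e3 : (2:ℝ) ^ (2 - ν) ≤ 4 := by
            calc (2:ℝ) ^ (2 - ν) ≤ 2 ^ (2:ℝ) := Real.rpow_le_rpow_of_exponent_le (by norm_num) (by linarith)
              _ = 4 := by norm_num
          rw [e1, e2]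
          exact mul_le_mul_of_nonneg_right e3 (by positivity)
        calc ((2:ℝ) ^ (i + 1)) ^ (2 - ν) * ∑ s ∈ S.filter (fun s => (2:ℝ) ^ i ≤ x s), w s
            ≤ 4 * (((2:ℝ) ^ i) ^ 2 * r ^ i) * (B / (2 ^ i) ^ 2) :=
              mul_le_mul h3 h1 (Finset.sum_nonneg fun s _ => hw s) (by positivity)
          _ = 4 * B * r ^ i := by field_simp
    _ = A + 4 * B * ∑ i ∈ range n, r ^ i := by rw [← Finset.mul_sum]
    _ ≤ A + 4 * B * (1 / (1 - r)) := by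
        have := mul_le_mul_of_nonneg_left hgeo (by positivity : 0 ≤ 4 * B)
        linarith
    _ = _ := by rw [hr]; ring

open Classical in
/-- the number of the zeros near which zeta is large -/
theorem weak : ∃ C : ℝ, 0 < C ∧ Ev fun X δ => ∀ h : ℝ, |h| ≤ X ^ ((1:ℝ) / 2) → ∀ κ : ℝ, 0 < κ →
    ∑ s ∈ (ZX X).filter (fun s => κ ≤ mz δ (s.im + h) ^ 2), mu s ≤ C * (X * Real.log X * (1 / δ) ^ 5) / κ ^ 2 := by
  obtain ⟨Cf, hCf, hfm⟩ := Fl.fm_line
  obtain ⟨Cs, hCs, hsup⟩ := HM.SUP.main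
  obtain ⟨Cn, hCn, hcount⟩ := count_bad
  refine ⟨Cn * (Cs * 3 * (Cf * 8 * 16)), by positivity, ?_⟩
  have t0 : ∀ a b : ℝ, 0 < b → ∀ᶠ T : ℝ in atTop, a ≤ T ^ b := fun a b hb =>
    (tendsto_rpow_atTop hb).eventually_ge_atTop a
  have h8 : ∀ᶠ X : ℝ in atTop, ∀ Δ : ℝ, 1 / Real.log (8 * X) ≤ Δ → Δ ≤ 1 / 16 →
      ∫ t in ((8 * X) ^ ((4:ℝ) / 5))..(8 * X / 2), ‖riemannZeta (1 / 2 + Δ + t * I)‖ ^ 4 ≤ Cf * (8 * X * (1 / Δ) ^ 4) :=
    (tendsto_id.const_mul_atTop (by norm_num : (0:ℝ) < 8)).eventually hfm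
  have E := ((Ev.of_ev h8).and (Ev.of_le (show (0:ℝ) < 1 / 24 by norm_num))).and ((Ev.lam 2).and
    ((Ev.of_ev (eventually_ge_atTop (100:ℝ))).and ((Ev.of_ev (t0 32 (1 / 5) (by norm_num))).and
      (Ev.of_ev (t0 8 (1 / 2) (by norm_num))))))
  refine E.mono ?_
  rintro X δ hX1 hδ hδ16 ⟨⟨hf, hδ24⟩, hlam, hX100, hX5, hX2⟩ h hh κ hκ
  have hX0 : 0 < X := by linarith
  have hlog := log_inv_ge hδ hδ16
  have hδL : 2 ≤ δ * Real.log X := by nlinarith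
  have hLX : 0 < Real.log X := Real.log_pos (by linarith)
  have hL8 : Real.log X ≤ Real.log (8 * X) := Real.log_le_log hX0 (by linarith)
  have hfo : ∀ δ' : ℝ, δ / 2 ≤ δ' → δ' ≤ 3 * δ / 2 →
      ∫ t in ((8 * X) ^ ((4:ℝ) / 5))..(8 * X / 2), ‖(fun s : ℂ => riemannZeta s ^ 2) (1 / 2 + δ' + t * I)‖ ^ 2 ≤
        Cf * (8 * X * (16 * (1 / δ) ^ 4)) := by
    intro δ' h1 h2
    have h3 : 0 < δ' := by linarith
    have h4 : 1 / Real.log (8 * X) ≤ δ' := by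
      rw [div_le_iff₀ (by linarith)]
      have : δ / 2 * Real.log X ≤ δ' * Real.log (8 * X) := mul_le_mul h1 hL8 hLX.le h3.le
      linarith
    have h5 := hf δ' h4 (by linarith)
    have h6 : (1 / δ') ^ 4 ≤ 16 * (1 / δ) ^ 4 := by
      have h7 : 1 / δ' ≤ 2 * (1 / δ) := by
        rw [show 2 * (1 / δ) = 1 / (δ / 2) by field_simp]
        exact one_div_le_one_div_of_le (by linarith) h1
      calc (1 / δ') ^ 4 ≤ (2 * (1 / δ)) ^ 4 := pow_le_pow_left₀ (by positivity) h7 4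
        _ = _ := by ring
    have h7 : ∀ t : ℝ, ‖(fun s : ℂ => riemannZeta s ^ 2) (1 / 2 + δ' + t * I)‖ ^ 2 =
        ‖riemannZeta (1 / 2 + δ' + t * I)‖ ^ 4 := by
      intro t
      simp only [norm_pow]
      ring
    simp_rw [h7]
    refine h5.trans ?_
    gcongr
  have hdiff : DifferentiableOn ℂ (fun s : ℂ => riemannZeta s ^ 2) {s : ℂ | 1 / 2 < s.re ∧ s.re < 1} := by
    intro s hs
    have hs1 : s ≠ 1 := by
      intro h
      rw [h] at hs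
      have := hs.2
      simp at this
    exact ((differentiableAt_riemannZeta hs1).pow 2).differentiableWithinAt
  have r0 : (8 * X) ^ ((4:ℝ) / 5) ≤ X / 4 := by
    have e1 : (8 * X) ^ ((4:ℝ) / 5) = 8 ^ ((4:ℝ) / 5) * X ^ ((4:ℝ) / 5) := Real.mul_rpow (by norm_num) hX0.le
    have e2 : (8:ℝ) ^ ((4:ℝ) / 5) ≤ 8 := by
      calc (8:ℝ) ^ ((4:ℝ) / 5) ≤ 8 ^ (1:ℝ) := Real.rpow_le_rpow_of_exponent_le (by norm_num) (by norm_num)
        _ = 8 := Real.rpow_one 8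
    have e3 : X ^ ((4:ℝ) / 5) * X ^ ((1:ℝ) / 5) = X := by rw [← Real.rpow_add hX0]; norm_num
    have e4 : X ^ ((4:ℝ) / 5) * 32 ≤ X := by
      have := mul_le_mul_of_nonneg_left hX5 (Real.rpow_nonneg hX0.le ((4:ℝ) / 5))
      linarith
    have e5 := mul_le_mul_of_nonneg_right e2 (Real.rpow_nonneg hX0.le ((4:ℝ) / 5))
    rw [e1]
    linarith
  have r1 : X ^ ((1:ℝ) / 2) ≤ X / 8 := by
    have e3 : X ^ ((1:ℝ) / 2) * X ^ ((1:ℝ) / 2) = X := by rw [← Real.rpow_add hX0]; norm_num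
    have := mul_le_mul_of_nonneg_left hX2 (Real.rpow_nonneg hX0.le ((1:ℝ) / 2))
    linarith
  have hsv := hsup (fun s => riemannZeta s ^ 2) hdiff δ ((8 * X) ^ ((4:ℝ) / 5)) (8 * X / 2)
    (Cf * (8 * X * (16 * (1 / δ) ^ 4))) hδ hδ16 (by linarith) (by positivity) hfo 1 κ zero_le_one hκ
  have hh2 := abs_le.1 (hh.trans r1)
  have hc := hcount X (by linarith) ((ZX X).filter (fun s => κ ≤ mz δ (s.im + h) ^ 2)) (Finset.filter_subset _ _) h
    (Cs * (1 + 2) * (Cf * (8 * X * (16 * (1 / δ) ^ 4))) / (δ * κ ^ 2)) _ (fun s hs t ht1 ht2 => by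
      rw [Finset.mem_filter] at hs
      have hz := (H370.mem_Zf H370.good_zeta (show (1:ℝ) ≤ X by linarith)).1 hs.1
      obtain ⟨hz1, hz2, hz3⟩ := hz
      refine ⟨?_, ?_, s.im + h, ht2, by linarith, ?_⟩
      · linarith
      · linarith
      · rw [norm_pow]
        have e : (1 / 2 + (δ:ℂ) + ((s.im + h : ℝ) : ℂ) * I) = pw δ (s.im + h) := rfl
        rw [e]
        exact hs.2) (by positivity) hsv
  refine hc.trans (le_of_eq ?_)
  field_simp
  ring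

open Classical in
/-- **the moments of order below four over the zeros** -/
theorem momv (ν : ℝ) (hν : 0 < ν) (hν2 : ν ≤ 2) : ∃ C : ℝ, 0 < C ∧ Ev fun X δ => ∀ h : ℝ, |h| ≤ X ^ ((1:ℝ) / 2) →
    ∑ s ∈ ZX X, mu s * (mz δ (s.im + h) ^ 2) ^ (2 - ν) ≤ C * (X * Real.log X * (1 / δ) ^ 5) := by
  obtain ⟨C, hC, hw⟩ := weak
  have hr1 : (2:ℝ) ^ (-ν) < 1 := Real.rpow_lt_one_of_one_lt_of_neg (by norm_num) (by linarith)
  have hr : 0 < 1 - (2:ℝ) ^ (-ν) := by linarith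
  refine ⟨2 + 4 * C / (1 - 2 ^ (-ν)), by positivity, ?_⟩
  refine ((hw.and (Ev.of_ev total_le)).and (Ev.of_ev (eventually_ge_atTop (3:ℝ)))).mono ?_
  rintro X δ hX1 hδ hδ16 ⟨⟨hwX, htot⟩, hX3⟩ h hh
  have hXl : 0 ≤ X * Real.log X := mul_nonneg (by linarith) (Real.log_nonneg hX1)
  have h1 := layer (S := ZX X) (w := mu) (x := fun s => mz δ (s.im + h) ^ 2) (ν := ν) (A := 2 * (X * Real.log X))
    (B := C * (X * Real.log X * (1 / δ) ^ 5)) mu_nonneg (fun s => sq_nonneg _) hν hν2 htot (by positivity)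
    (fun κ hκ => hwX h hh κ (by linarith))
  refine h1.trans ?_
  have h2 : X * Real.log X ≤ X * Real.log X * (1 / δ) ^ 5 := by
    have h3 : 1 ≤ 1 / δ := by rw [one_le_div hδ]; linarith
    have := one_le_pow₀ h3 (n := 5)
    nlinarith
  have h3 : 4 * (C * (X * Real.log X * (1 / δ) ^ 5)) / (1 - 2 ^ (-ν)) =
      4 * C / (1 - 2 ^ (-ν)) * (X * Real.log X * (1 / δ) ^ 5) := by ring
  rw [h3]
  linarith

end Pool.Agent.H6Z
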