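import Pool.Agent.H6Z.Core2
import Pool.Agent.H6Z.Mv

set_option autoImplicit false

/-! The zeros in the moment measures: all good zeros. -/

namespace Pool.Agent.H6Z

open Finset Filter MeasureTheory Topology Complex
open Pool.Agent.N748.MG Pool.Agent.N748.MJ
open Pool.Agent.N748.MJ.SM (cc Lr G kp)
open Pool.Agent.Q97.UM (dp N2 cv ZI b_SAMP b_SAMPI)

open Classical in
theorem core_all (ε : ℝ) (hε : 0 < ε) (hε1 : ε ≤ 1) : ∃ κ : ℝ, 0 < κ ∧ κ ≤ 1 ∧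
    ∀ (m : ℕ) (R D : ℝ), 0 < R → 0 < D →
    ∃ c0 Ca D' θ' ε2 B : ℝ, 0 < c0 ∧ 0 < Ca ∧ D + (m * R) ^ 2 + 1 ≤ D' ∧
      Ev fun X δ => ∀ h : Fin m → ℝ, (∀ j, |h j| ≤ X ^ ((1:ℝ) / 2)) →
      ∃ (y : ℝ) (K : ℕ) (G0 : Finset ℂ), GZ R D' θ' ε2 1 B X δ h y K G0 ∧
        ∀ k : Fin m → ℝ, (∀ j, |k j| ≤ R) → c0 ≤ ar k h ∧ ar k h ≤ Ca ∧
          |(∑ s ∈ (ZX X).filter (fun s => s ∈ G0), mu s * G k h δ s.im) -
            ar k h / (2 * Real.pi) * Wt k h δ X| ≤ ε * (ar k h / (2 * Real.pi) * Wt k h δ X) ∧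
          (2 - H370.cMTinv - ε) * (ar k h / (2 * Real.pi) * Wt k h δ X) ≤
            ∑ s ∈ (ZI κ X).filter (fun s => s ∈ G0), G k h δ s.im := by
  obtain ⟨ε1, hε1d⟩ : ∃ ε1 : ℝ, ε1 = ε / 64 := ⟨_, rfl⟩
  have hε10 : 0 < ε1 := by rw [hε1d]; positivity
  obtain ⟨κ, θI, hκ, hκ1, hθI, hθI1, hI⟩ := b_SAMPI ε1 hε10
  obtain ⟨θS, hθS, hθS1, hS⟩ := b_SAMP ε1 hε10
  refine ⟨κ, hκ, hκ1, ?_⟩
  intro m R D hR hD
  obtain ⟨c0, C0, hc0, hC0, hpos⟩ := posF m R hR.le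
  obtain ⟨E, hE⟩ : ∃ E : ℝ, E = (m * R) ^ 2 := ⟨_, rfl⟩
  have hE0 : 0 ≤ E := by rw [hE]; positivity
  obtain ⟨D', hD'⟩ : ∃ D' : ℝ, D' = D + E + 1 := ⟨_, rfl⟩
  have hD'0 : 0 < D' := by rw [hD']; positivity
  obtain ⟨θ', hθ'⟩ : ∃ θ' : ℝ, θ' = min θI θS := ⟨_, rfl⟩
  have hθ'0 : 0 < θ' := by rw [hθ']; exact lt_min hθI hθS
  have hθ'I : θ' ≤ θI := by rw [hθ']; exact min_le_left _ _
  have hθ'S : θ' ≤ θS := by rw [hθ']; exact min_le_right _ _
  obtain ⟨ε2, hε2⟩ : ∃ ε2 : ℝ, ε2 = min (c0 * ε1) 1 := ⟨_, rfl⟩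
  have hε20 : 0 < ε2 := by rw [hε2]; positivity
  have hε2c : ε2 ≤ c0 * ε1 := by rw [hε2]; exact min_le_left _ _
  have hε21 : ε2 ≤ 1 := by rw [hε2]; exact min_le_right _ _
  obtain ⟨Ca, hCa⟩ : ∃ Ca : ℝ, Ca = C0 + 1 := ⟨_, rfl⟩
  have hCa0 : 0 < Ca := by rw [hCa]; positivity
  obtain ⟨B, hB, hdj⟩ := dj ub m R D' θ' ε2 1 hR hD'0 hθ'0 hε20 one_pos
  refine ⟨c0, Ca, D', θ', ε2, B, hc0, hCa0, by rw [hD', hE], ?_⟩
  have hev := (((((hdj.and (Ev.of_ev hI)).and (Ev.of_ev hS))).and (Ev.of_ev total_le)).and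
    (Ev.small (C := 3) (c := 1) (e := c0 * ε1) (by norm_num) (by positivity))).and
    (Ev.of_ev (eventually_ge_atTop (16:ℝ)))
  refine hev.mono ?_
  rintro X δ hX1 hδ hδ16 ⟨⟨⟨⟨⟨hdjX, hIX⟩, hSX⟩, htot⟩, hs1⟩, hX16⟩ h hh
  obtain ⟨y, K, G0, hG⟩ := hdjX h hh
  refine ⟨y, K, G0, hG, ?_⟩
  intro k hk
  have hX0 : 0 < X := by linarith
  have hlX : 0 < Real.log X := Real.log_pos (by linarith)
  have hδ1 : δ ≤ 1 := by linarith
  have har : ∀ k' : Fin m → ℝ, (∀ j, |k' j| ≤ R) → c0 ≤ ar k' h ∧ ar k' h ≤ C0 := by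
    intro k' hk''
    obtain ⟨a, ha, haV⟩ := (hpos h).2 k' hk''
    have haV' : aV (cc k') (cc k') h = (a : ℂ) := haV
    have h2 := (hpos h).1 (cc k') (cc k')
      (fun j => by unfold cc; rw [Complex.norm_real, Real.norm_eq_abs]; exact hk'' j)
      (fun j => by unfold cc; rw [Complex.norm_real, Real.norm_eq_abs]; exact hk'' j)
    unfold ar
    rw [haV', Complex.ofReal_re]
    rw [haV', Complex.norm_real, Real.norm_eq_abs] at h2
    exact ⟨ha, (le_abs_self _).trans h2⟩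
  obtain ⟨ha1, ha2⟩ := har k hk
  obtain ⟨a, had⟩ : ∃ a, a = ar k h := ⟨_, rfl⟩
  rw [← had] at ha1 ha2 ⊢
  have ha0 : 0 < a := hc0.trans_le ha1
  obtain ⟨N, hN⟩ : ∃ N, N = N2 (Nb y K) (bV (cc k) h y K δ) := ⟨_, rfl⟩
  obtain ⟨el, hel⟩ : ∃ el, el = Real.exp (Lr k h δ) := ⟨_, rfl⟩
  have hel0 : 0 < el := by rw [hel]; exact Real.exp_pos _
  obtain ⟨W, hW⟩ : ∃ W, W = Wt k h δ X := ⟨_, rfl⟩
  have hW' : W = X * Real.log X * el := by rw [hW, hel]; rfl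
  have hW0 : 0 < W := by rw [hW']; positivity
  rw [← hW]
  have hNe : |N - a * el| ≤ ε2 * el := by
    have h1 := hG.main k hk
    have h2 : (aV (cc k) (cc k) h).re = a := by rw [had]; rfl
    rw [h2, ← hN, Real.exp_neg, ← hel] at h1
    have h3 : N - a * el = (el⁻¹ * N - a) * el := by field_simp
    rw [h3, abs_mul, abs_of_pos hel0]
    exact mul_le_mul_of_nonneg_right h1 hel0.le
  have hNe1 := abs_le.1 hNe
  have hN0 : 0 ≤ N := by rw [hN]; exact N2_nonneg _ _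
  have hcae : c0 * ε1 ≤ a * ε1 := mul_le_mul_of_nonneg_right ha1 hε10.le
  have hε2a : ε2 ≤ a * ε1 := hε2c.trans hcae
  -- small quantities
  have hel_lo : δ ^ E ≤ el := by
    have h8 := (abs_le.1 (Lr_abs hδ hδ16 hR.le k h hk)).1
    rw [hel, Real.rpow_def_of_pos hδ]
    refine Real.exp_le_exp.2 ?_
    have hlog : Real.log δ = -Real.log (1 / δ) := by rw [one_div, Real.log_inv, neg_neg]
    rw [hlog, hE]
    linarith
  have hδE : 0 < δ ^ E := Real.rpow_pos_of_pos hδ _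
  have hsm : ∀ x : ℝ, E + 1 ≤ x → 3 * (δ ^ x * (X * Real.log X)) ≤ a * ε1 * W := by
    intro x hx
    have h1 : δ ^ x ≤ δ ^ (1:ℝ) * δ ^ E := by
      rw [← Real.rpow_add hδ]
      exact Real.rpow_le_rpow_of_exponent_ge hδ hδ1 (by linarith)
    have h2 : 3 * δ ^ x ≤ c0 * ε1 * δ ^ E := by
      calc 3 * δ ^ x ≤ 3 * (δ ^ (1:ℝ) * δ ^ E) := by linarith
        _ = 3 * δ ^ (1:ℝ) * δ ^ E := by ring
        _ ≤ c0 * ε1 * δ ^ E := mul_le_mul_of_nonneg_right hs1 hδE.le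
    calc 3 * (δ ^ x * (X * Real.log X)) = 3 * δ ^ x * (X * Real.log X) := by ring
      _ ≤ c0 * ε1 * δ ^ E * (X * Real.log X) := mul_le_mul_of_nonneg_right h2 (by positivity)
      _ ≤ a * ε1 * el * (X * Real.log X) := by gcongr
      _ = a * ε1 * W := by rw [hW']; ring
  have hsmD : 3 * (δ ^ D' * (X * Real.log X)) ≤ a * ε1 * W := hsm D' (by rw [hD']; linarith)
  have hpi3 := Real.pi_gt_three
  have hpi4 := Real.pi_le_four
  -- lengths
  have hlen : ∀ t : ℝ, θ' ≤ t → (Nb y K : ℝ) ≤ X ^ t := fun t ht =>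
    hG.len.trans (Real.rpow_le_rpow_of_exponent_le (by linarith) ht)
  -- all zeros
  have hall := (hSX (Nb y K) (hlen θS hθ'S) (bV (cc k) h y K δ)).2.2
  simp only [dp_bV] at hall
  rw [← hN] at hall
  have hall' : |(∑ s ∈ ZX X, mu s * ‖AV (cc k) h y K (pw δ s.im)‖ ^ 2) -
      Real.log X / (2 * Real.pi) * (X * N)| ≤ ε1 * Real.log X * (X * N) := hall
  -- isolated zeros
  have hiso := hIX (Nb y K) (hlen θI hθ'I) (bV (cc k) h y K δ)
  simp only [dp_bV] at hiso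
  rw [← hN] at hiso
  have hcZ := cmp_sum hG (by linarith) hδ htot k hk (ZX X) (Finset.Subset.refl _)
  have hcI := cmp_sum hG (by linarith) hδ htot k hk (ZI κ X) (ZI_sub κ X)
  -- bounds for the main terms
  obtain ⟨q, hq⟩ : ∃ q, q = a / (2 * Real.pi) * W := ⟨_, rfl⟩
  have hq0 : 0 < q := by rw [hq]; positivity
  have haW : a * W = 2 * Real.pi * q := by rw [hq]; field_simp
  have haWε : a * ε1 * W = 2 * Real.pi * ε1 * q := by
    calc a * ε1 * W = ε1 * (a * W) := by ring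
      _ = _ := by rw [haW]; ring
  have hεq : 0 < ε1 * q := by positivity
  have haWb : a * ε1 * W ≤ 8 * (ε1 * q) := by
    rw [haWε]
    nlinarith
  have hmainN : |Real.log X / (2 * Real.pi) * (X * N) - q| ≤ ε1 * q := by
    have h1 : Real.log X / (2 * Real.pi) * (X * N) - q = X * Real.log X / (2 * Real.pi) * (N - a * el) := by
      rw [hq, hW']; ring
    rw [h1, abs_mul, abs_of_pos (by positivity)]
    calc X * Real.log X / (2 * Real.pi) * |N - a * el| ≤ X * Real.log X / (2 * Real.pi) * ((a * ε1) * el) := by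
          gcongr
          exact hNe.trans (mul_le_mul_of_nonneg_right hε2a hel0.le)
      _ = ε1 * q := by rw [hq, hW']; ring
  have hlogN : ε1 * Real.log X * (X * N) ≤ 16 * (ε1 * q) := by
    have h1 : N ≤ 2 * a * el := by
      have h2 : N ≤ (a + ε2) * el := by linarith [hNe1.2]
      refine h2.trans (mul_le_mul_of_nonneg_right ?_ hel0.le)
      have : a * ε1 ≤ a * 1 := mul_le_mul_of_nonneg_left (by rw [hε1d]; linarith) ha0.le
      linarith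
    calc ε1 * Real.log X * (X * N) ≤ ε1 * Real.log X * (X * (2 * a * el)) := by gcongr
      _ = 2 * (a * ε1 * W) := by rw [hW']; ring
      _ ≤ 16 * (ε1 * q) := by linarith
  have hm1 := abs_le.1 hmainN
  have hc_lt := H370.cMTinv_gt_one
  refine ⟨ha1, by rw [hCa]; linarith, ?_, ?_⟩
  · -- all zeros
    have f1 := abs_le.1 hall'
    have f2 := abs_le.1 hcZ
    rw [← hq, abs_le]
    have hb2 : 33 * (ε1 * q) ≤ ε * q := by rw [hε1d]; nlinarith
    constructor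
    · linarith [f1.1, f2.1, hm1.1]
    · linarith [f1.2, f2.2, hm1.2]
  · -- the isolated zeros
    have e1 : ∑ s ∈ (ZI κ X).filter (fun s => s ∈ G0), G k h δ s.im =
        ∑ s ∈ (ZI κ X).filter (fun s => s ∈ G0), mu s * G k h δ s.im := by
      refine Finset.sum_congr rfl fun s hs => ?_
      rw [ZI_mu (Finset.mem_filter.1 hs).1, one_mul]
    have e3 : ∑ s ∈ ZI κ X, mu s * ‖AV (cc k) h y K (pw δ s.im)‖ ^ 2 =
        ∑ s ∈ ZI κ X, ‖AV (cc k) h y K (pw δ s.im)‖ ^ 2 := by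
      refine Finset.sum_congr rfl fun s hs => ?_
      rw [ZI_mu hs, one_mul]
    rw [e3] at hcI
    have f2 := abs_le.1 hcI
    rw [e1, ← hq]
    have f3 : (2 - H370.cMTinv - ε1) * (Real.log X / (2 * Real.pi)) * (X * N) =
        (2 - H370.cMTinv - ε1) * (Real.log X / (2 * Real.pi) * (X * N)) := by ring
    rw [f3] at hiso
    by_cases hneg : 2 - H370.cMTinv - ε1 ≤ 0
    · have h1 : (2 - H370.cMTinv - ε) * q ≤ 0 :=
        mul_nonpos_of_nonpos_of_nonneg (by rw [hε1d] at hneg; linarith) hq0.le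
      exact h1.trans (Finset.sum_nonneg fun s _ => mul_nonneg (mu_nonneg s) (SM.G_nn _ _ _ _))
    · push Not at hneg
      have h1 : (2 - H370.cMTinv - ε1) * ((1 - ε1) * q) ≤
          (2 - H370.cMTinv - ε1) * (Real.log X / (2 * Real.pi) * (X * N)) :=
        mul_le_mul_of_nonneg_left (by linarith [hm1.1]) hneg.le
      have h2 : (2 - H370.cMTinv - ε1) * ((1 - ε1) * q) ≥ (2 - H370.cMTinv - 2 * ε1) * q := by
        have : (2 - H370.cMTinv - ε1) * (ε1 * q) ≤ 1 * (ε1 * q) :=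
          mul_le_mul_of_nonneg_right (by linarith) hεq.le
        linarith
      have h3 : (2 - H370.cMTinv - ε) * q = (2 - H370.cMTinv - 2 * ε1) * q - 62 * (ε1 * q) := by
        rw [hε1d]; ring
      rw [h3]
      linarith [f2.1]

/-- a product of powers with total exponent at most `b` -/
lemma prod_le {m : ℕ} (y : Fin m → ℝ) (hy : ∀ j, 0 ≤ y j) (k : Fin m → ℝ) (hk : ∀ j, 0 ≤ k j) {b : ℝ}
    (hb : ∑ j, k j ≤ b) : ∏ j, y j ^ (2 * k j) ≤ 1 + ∑ j, (y j ^ 2) ^ b := by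
  have hk0 : 0 ≤ ∑ j, k j := Finset.sum_nonneg fun j _ => hk j
  have hb0 : 0 ≤ b := hk0.trans hb
  have hs0 : ∀ j, 0 ≤ (y j ^ 2) ^ b := fun j => Real.rpow_nonneg (sq_nonneg _) _
  by_cases h1 : ∀ j, y j ≤ 1
  · have h2 : ∏ j, y j ^ (2 * k j) ≤ 1 :=
      Finset.prod_le_one (fun j _ => Real.rpow_nonneg (hy j) _) fun j _ =>
        Real.rpow_le_one (hy j) (h1 j) (by linarith [hk j])
    linarith [Finset.sum_nonneg fun j (_ : j ∈ Finset.univ) => hs0 j]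
  · push Not at h1
    obtain ⟨j1, hj1⟩ := h1
    obtain ⟨j0, -, hj0⟩ := Finset.exists_max_image Finset.univ y ⟨j1, Finset.mem_univ _⟩
    have hY : 1 ≤ y j0 := hj1.le.trans (hj0 j1 (Finset.mem_univ _))
    have hY0 : 0 < y j0 := by linarith
    have h2 : ∏ j, y j ^ (2 * k j) ≤ ∏ j, y j0 ^ (2 * k j) :=
      Finset.prod_le_prod (fun j _ => Real.rpow_nonneg (hy j) _) fun j _ =>
        Real.rpow_le_rpow (hy j) (hj0 j (Finset.mem_univ _)) (by linarith [hk j])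
    have h3 : ∏ j, y j0 ^ (2 * k j) = y j0 ^ (2 * ∑ j, k j) := by
      rw [Finset.mul_sum, Real.rpow_sum_of_pos hY0]
    have h4 : y j0 ^ (2 * ∑ j, k j) ≤ (y j0 ^ 2) ^ b := by
      rw [← Real.rpow_natCast, ← Real.rpow_mul hY0.le]
      push_cast
      exact Real.rpow_le_rpow_of_exponent_le hY (by linarith)
    have h5 := Finset.single_le_sum (fun j _ => hs0 j) (Finset.mem_univ j0)
    linarith

/-- splitting at the threshold `l` -/
lemma thr {x l ν : ℝ} (hx : 0 ≤ x) (hl : 0 < l) (hν : 0 < ν) (hν1 : ν ≤ 1) :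
    x ^ (2 - 2 * ν) ≤ l ^ (2 - 2 * ν) + l ^ (-ν) * x ^ (2 - ν) := by
  rcases le_total x l with h | h
  · have h1 := Real.rpow_le_rpow hx h (by linarith : 0 ≤ 2 - 2 * ν)
    have h2 : 0 ≤ l ^ (-ν) * x ^ (2 - ν) := by positivity
    linarith
  · have hx0 : 0 < x := hl.trans_le h
    have h1 : x ^ (2 - 2 * ν) = x ^ (-ν) * x ^ (2 - ν) := by
      rw [← Real.rpow_add hx0]; congr 1; ring
    have h2 : x ^ (-ν) ≤ l ^ (-ν) := Real.rpow_le_rpow_of_nonpos hl h (by linarith)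
    have h3 : 0 ≤ l ^ (2 - 2 * ν) := by positivity
    rw [h1]
    have := mul_le_mul_of_nonneg_right h2 (Real.rpow_nonneg hx (2 - ν))
    linarith

end Pool.Agent.H6Z
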