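import Pool.Agent.H6Z.Smp
import Pool.Agent.Q84.UM.MVL

set_option autoImplicit false

/-! The approximations at the zeros. -/

namespace Pool.Agent.H6Z

open Finset Filter MeasureTheory Topology Complex
open Pool.Agent.N748.MG Pool.Agent.N748.MJ
open Pool.Agent.N748.MJ.SM (cc Lr G)
open Pool.Agent.Q97.UM (dp N2 cv)

/-- upper bound for the sums over the zeros -/
def S_UB : Prop := ∃ θ : ℝ, 0 < θ ∧ θ ≤ 1 / 40 ∧ ∀ᶠ T : ℝ in atTop, ∀ N : ℕ, (N : ℝ) ≤ T ^ θ → ∀ b : ℕ → ℂ,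
    ∑ s ∈ H370.Zf riemannZeta T (2 * T), mu s * ‖dp N b s.im‖ ^ 2 ≤ 2 * (Real.log T * (T * N2 N b))

lemma Nb_le {y : ℝ} (hy : 2 ≤ y) (K : ℕ) : (Nb y K : ℝ) ≤ Real.exp (K * Real.log y) := by
  unfold Nb
  push_cast
  have h1 : ((⌊y⌋₊ : ℕ) : ℝ) ≤ y := Nat.floor_le (by linarith)
  calc ((⌊y⌋₊ : ℕ) : ℝ) ^ K ≤ y ^ K := pow_le_pow_left₀ (Nat.cast_nonneg _) h1 K
    _ = Real.exp (K * Real.log y) := by
        rw [Real.exp_nat_mul, Real.exp_log (by linarith)]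

lemma Nb_rpow {y θ X : ℝ} (hy : 2 ≤ y) (K : ℕ) (hX : 0 < X) (h : ((K:ℝ) + 1) * Real.log y ≤ θ * Real.log X) :
    (Nb y K : ℝ) ≤ X ^ θ := by
  refine (Nb_le hy K).trans ?_
  rw [Real.rpow_def_of_pos hX]
  refine Real.exp_le_exp.2 ?_
  have hly : 0 < Real.log y := Real.log_pos (by linarith)
  nlinarith

/-- the fourth moment at the zeros -/
theorem fourth (hU : S_UB) (m : ℕ) (R : ℝ) (hR : 0 ≤ R) : ∃ C : ℝ, 0 < C ∧ ∀ᶠ X : ℝ in atTop, ∀ (y : ℝ) (K : ℕ) (δ : ℝ),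
    2 ≤ y → 0 < δ → δ ≤ 1 / 16 → C * ((K + 1) * Real.log y) ≤ Real.log X → ∀ (s : Fin m → ℂ) (h : Fin m → ℝ),
    (∀ j, ‖s j‖ ≤ R) →
    ∑ t ∈ H370.Zf riemannZeta X (2 * X), mu t * ‖AV s h y K (pw δ t.im)‖ ^ 4 ≤ 8 * (X * Real.log X * δ ^ (-C)) := by
  obtain ⟨θ, hθ, hθ1, hev⟩ := hU
  obtain ⟨C4, hC4, H4⟩ := L4V.main bndF MVS.main SIZ.main (L4.main MVS.main SIZ.main) m R hR
  obtain ⟨C, hC⟩ : ∃ C : ℝ, C = max C4 (2 / θ) := ⟨_, rfl⟩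
  have hCC4 : C4 ≤ C := by rw [hC]; exact le_max_left _ _
  have hCθ : 2 / θ ≤ C := by rw [hC]; exact le_max_right _ _
  have hC0 : 0 < C := hC4.trans_le hCC4
  refine ⟨C, hC0, ?_⟩
  filter_upwards [hev, eventually_ge_atTop (16:ℝ)] with X hX hX16 y K δ hy hδ hδ16 hK s h hs
  have hX0 : 0 < X := by linarith
  have hlX : 0 < Real.log X := Real.log_pos (by linarith)
  have hly : 0 < Real.log y := Real.log_pos (by linarith)
  have hKl : 0 ≤ ((K:ℝ) + 1) * Real.log y := by positivity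
  have hlen : ((K:ℝ) + 1) * Real.log y ≤ θ / 2 * Real.log X := by
    have h1 : 2 / θ * (((K:ℝ) + 1) * Real.log y) ≤ Real.log X :=
      (mul_le_mul_of_nonneg_right hCθ hKl).trans hK
    rw [div_mul_eq_mul_div, div_le_iff₀ hθ] at h1
    linarith
  obtain ⟨N, hN⟩ : ∃ N : ℕ, N = Nb y K := ⟨_, rfl⟩
  obtain ⟨b, hb⟩ : ∃ b : ℕ → ℂ, b = bV s h y K δ := ⟨_, rfl⟩
  have hb0 : ∀ n, N < n → b n = 0 := by
    intro n hn
    rw [hb]
    exact bV_zero s h y K δ n (by rw [← hN]; exact hn)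
  have hNθ2 : (N:ℝ) ≤ X ^ (θ / 2) := by
    rw [hN]
    exact Nb_rpow hy K hX0 hlen
  have hNN : ((N * N : ℕ) : ℝ) ≤ X ^ θ := by
    push_cast
    calc (N:ℝ) * N ≤ X ^ (θ / 2) * X ^ (θ / 2) := mul_le_mul hNθ2 hNθ2 (Nat.cast_nonneg _) (by positivity)
      _ = X ^ θ := by rw [← Real.rpow_add hX0]; congr 1; ring
  have hdp : ∀ t : ℝ, ‖dp (N * N) (cv b b) t‖ ^ 2 = ‖AV s h y K (pw δ t)‖ ^ 4 := by
    intro t
    rw [dp_sq hb0, hb, hN, dp_bV, norm_pow, ← pow_mul]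
  have h1 := hX (N * N) hNN (cv b b)
  simp only [hdp] at h1
  have hN4 : ((N * N : ℕ) : ℝ) ≤ X ^ (1 / 4 : ℝ) :=
    hNN.trans (Real.rpow_le_rpow_of_exponent_le (by linarith) (by linarith))
  have h2 := (Pool.Agent.Q84.UM.t_MVL X hX16 (N * N) hN4 (cv b b)).1
  simp only [hdp] at h2
  have hlog2 : C4 * ((K + 1) * Real.log y) ≤ Real.log (2 * X) := by
    have h3 : Real.log X ≤ Real.log (2 * X) := Real.log_le_log hX0 (by linarith)
    exact ((mul_le_mul_of_nonneg_right hCC4 hKl).trans hK).trans h3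
  have h3 := H4 y K δ (2 * X) hy hδ hδ16 (by linarith) hlog2 s h hs
  have hcont : Continuous fun t : ℝ => ‖AV s h y K (pw δ t)‖ ^ 4 := (JM.AV_cont s h y K δ).norm.pow 4
  have h4 : ∫ t in X..(2 * X), ‖AV s h y K (pw δ t)‖ ^ 4 ≤ ∫ t in (0:ℝ)..(2 * X), ‖AV s h y K (pw δ t)‖ ^ 4 := by
    rw [← intervalIntegral.integral_add_adjacent_intervals (hcont.intervalIntegrable 0 X)
      (hcont.intervalIntegrable X (2 * X))]
    have : 0 ≤ ∫ t in (0:ℝ)..X, ‖AV s h y K (pw δ t)‖ ^ 4 :=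
      intervalIntegral.integral_nonneg hX0.le fun t _ => by positivity
    linarith
  have h5 : X * N2 (N * N) (cv b b) ≤ 4 * (X * δ ^ (-C4)) := by linarith
  have h6 : δ ^ (-C4) ≤ δ ^ (-C) := Real.rpow_le_rpow_of_exponent_ge hδ (by linarith) (by linarith)
  refine h1.trans ?_
  have h7 : X * N2 (N * N) (cv b b) ≤ 4 * (X * δ ^ (-C)) :=
    h5.trans (by gcongr)
  calc 2 * (Real.log X * (X * N2 (N * N) (cv b b))) ≤ 2 * (Real.log X * (4 * (X * δ ^ (-C)))) := by gcongr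
    _ = _ := by ring

end Pool.Agent.H6Z
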