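import Pool.Agent.N748.MG.NIC
import Pool.Agent.N748.MG.Inp

set_option autoImplicit false

/-! The windows in which zeta is approximated near the critical line: adaptation of `Pool.Agent.N748.MG.NIC`. -/

namespace Pool.Agent.H6Z

open Finset Filter MeasureTheory Topology Complex
open Pool.Agent.N748 Pool.Agent.N748.MG

/-- the approximations hold at the height `u` -/
def Good (ca C y : ℝ) (K : ℕ) (δ u : ℝ) : Prop :=
  ‖∑ p ∈ PA y, (p:ℂ) ^ (-(pw δ u))‖ ≤ ca * Real.log (1 / δ) ∧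
    ‖riemannZeta (pw δ u) * AS (-1) y K (pw δ u) - 1‖ ≤ δ ^ C

/-- the choice of the parameters, and the windows in which the approximations hold -/
def S_NICW : Prop := ∀ D : ℝ, 0 < D → ∃ ca : ℝ, 0 < ca ∧ ∀ C : ℝ, 0 < C → ∃ B : ℝ, 0 < B ∧ Ev fun X δ =>
  ∃ (y : ℝ) (K : ℕ), 2 ≤ y ∧ C * Real.log (1 / δ) ≤ δ * Real.log y ∧ C * Real.log (1 / δ) ≤ K ∧
    C * ((K + 1) * Real.log y) ≤ Real.log X ∧ ∑ p ∈ PA y, 1 / (p:ℝ) ≤ 2 * Real.log (1 / δ) ∧
    δ * Real.log y ≤ B * Real.log (1 / δ) ∧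
    volume {t : ℝ | X ^ ((9:ℝ) / 10) + 1 ≤ t ∧ t ≤ X ∧ ∃ u : ℝ, t ≤ u ∧ u ≤ t + 1 ∧ ¬ Good ca C y K δ u} ≤
      ENNReal.ofReal (δ ^ D * X)

theorem differentiableOn_F (y : ℝ) (K : ℕ) :
    DifferentiableOn ℂ (fun s : ℂ => riemannZeta s * AS (-1) y K s - 1) {s : ℂ | 1 / 2 < s.re ∧ s.re < 1} := by
  intro s hs
  have hs1 : s ≠ 1 := by
    intro h
    rw [h] at hs
    have := hs.2
    simp at this
  refine DifferentiableAt.differentiableWithinAt ?_
  refine ((differentiableAt_riemannZeta hs1).mul ?_).sub_const 1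
  unfold AS
  refine DifferentiableAt.fun_sum fun n hn => ?_
  have hn0 : (n:ℂ) ≠ 0 := by
    unfold FS at hn
    rw [Finset.mem_filter] at hn
    exact_mod_cast hn.2.1
  exact (differentiableAt_const _).mul ((differentiableAt_id.neg).const_cpow (Or.inl hn0))

theorem nicw : S_NICW := by
  intro D hD
  obtain ⟨a0, b0, ha0, hb0, δx, hδx, hδx16, evx⟩ := HM.XS2.main HM.SUP.main (D + 3) (by linarith)
  refine ⟨a0, ha0, fun C hC => ?_⟩
  obtain ⟨a1, b1, ha1, hb1, hz⟩ := HM.ZM3.main HM.ZM1.main HM.ZM2.main (2 * C + D + 3) (by linarith)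
  obtain ⟨lam1, δ1, hδ1, hδ116, ev1⟩ := hz 2 le_rfl
  obtain ⟨Cs, hCs, hsup⟩ := HM.SUP.main
  obtain ⟨Cm, hCm, mert⟩ := Inp.mea
  obtain ⟨C1, hC1⟩ : ∃ C1 : ℝ, C1 = max (max C a1) 1 := ⟨_, rfl⟩
  obtain ⟨C2, hC2⟩ : ∃ C2 : ℝ, C2 = max (max C b1) 1 := ⟨_, rfl⟩
  have hC1C : C ≤ C1 := by rw [hC1]; exact (le_max_left _ _).trans (le_max_left _ _)
  have hC1a : a1 ≤ C1 := by rw [hC1]; exact (le_max_right _ _).trans (le_max_left _ _)
  have hC11 : 1 ≤ C1 := by rw [hC1]; exact le_max_right _ _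
  have hC2C : C ≤ C2 := by rw [hC2]; exact (le_max_left _ _).trans (le_max_left _ _)
  have hC2b : b1 ≤ C2 := by rw [hC2]; exact (le_max_right _ _).trans (le_max_left _ _)
  have hC21 : 1 ≤ C2 := by rw [hC2]; exact le_max_right _ _
  obtain ⟨lamB, hlamB⟩ : ∃ l : ℝ, l = C * (C2 + 2) * C1 + 100 * (C2 + 2) * C1 + b0 * C1 + |lam1| := ⟨_, rfl⟩
  refine ⟨C1, by linarith, ?_⟩
  have hd3 : 0 < Real.exp (-(2 * (Real.log C1 + Cm))) := Real.exp_pos _
  have E := (Ev.of_ev ev1).and ((Ev.of_ev evx).and ((Ev.of_le hδ1).and ((Ev.of_le hδx).and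
    ((Ev.of_le hd3).and ((Ev.lam lamB).and (Ev.linv.and
      ((Ev.small (C := Cs) (c := 2) (e := 1 / 6) (by norm_num) (by norm_num)).and
        (Ev.of_ev (eventually_ge_atTop (2:ℝ))))))))))
  refine E.mono ?_
  clear E
  rintro X δ hX1 hδ hδ16 ⟨h1, hx, hd1, hdx, hdd, hlam, hlinv, hsmall, hX2⟩
  have hL := log_inv_ge hδ hδ16
  obtain ⟨L, hLdef⟩ : ∃ L, L = Real.log (1 / δ) := ⟨_, rfl⟩
  rw [← hLdef] at hL hlam
  have hL0 : 0 < L := by linarith
  have hLL : L ≤ L ^ 2 := by nlinarith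
  obtain ⟨ly, hly⟩ : ∃ ly, ly = C1 * L / δ := ⟨_, rfl⟩
  have hly0 : 0 < ly := by rw [hly]; positivity
  have hδly : δ * ly = C1 * L := by rw [hly]; field_simp
  have hb1' : C * (C2 + 2) * C1 * L ^ 2 ≤ δ * Real.log X := by
    refine le_trans (mul_le_mul_of_nonneg_right ?_ (sq_nonneg L)) hlam
    have : 0 ≤ 100 * (C2 + 2) * C1 + b0 * C1 + |lam1| := by positivity
    rw [hlamB]; linarith
  have hb2' : 100 * (C2 + 2) * C1 * L ^ 2 ≤ δ * Real.log X := by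
    refine le_trans (mul_le_mul_of_nonneg_right ?_ (sq_nonneg L)) hlam
    have : 0 ≤ C * (C2 + 2) * C1 + b0 * C1 + |lam1| := by positivity
    rw [hlamB]; linarith
  have hb3' : b0 * C1 * L ^ 2 ≤ δ * Real.log X := by
    refine le_trans (mul_le_mul_of_nonneg_right ?_ (sq_nonneg L)) hlam
    have : 0 ≤ C * (C2 + 2) * C1 + 100 * (C2 + 2) * C1 + |lam1| := by positivity
    rw [hlamB]; linarith
  have hb4' : lam1 * L ≤ δ * Real.log X := by
    have h5 : |lam1| * L ^ 2 ≤ δ * Real.log X := by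
      refine le_trans (mul_le_mul_of_nonneg_right ?_ (sq_nonneg L)) hlam
      have : 0 ≤ C * (C2 + 2) * C1 + 100 * (C2 + 2) * C1 + b0 * C1 := by positivity
      rw [hlamB]; linarith
    refine le_trans ?_ h5
    calc lam1 * L ≤ |lam1| * L := mul_le_mul_of_nonneg_right (le_abs_self _) hL0.le
      _ ≤ |lam1| * L ^ 2 := mul_le_mul_of_nonneg_left hLL (abs_nonneg _)
  have hly_of : ∀ c : ℝ, 0 ≤ c → c * C1 * L ^ 2 ≤ δ * Real.log X → c * L * ly ≤ Real.log X := by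
    intro c hc h
    have : c * L * ly = c * C1 * L ^ 2 / δ := by rw [hly]; ring
    rw [this, div_le_iff₀ hδ]
    linarith
  obtain ⟨K, hK⟩ : ∃ K : ℕ, K = ⌈C2 * L⌉₊ := ⟨_, rfl⟩
  have hK1 : C2 * L ≤ K := by rw [hK]; exact Nat.le_ceil _
  have hK2 : (K : ℝ) + 1 ≤ (C2 + 2) * L := by
    have := Nat.ceil_lt_add_one (show 0 ≤ C2 * L by positivity)
    rw [← hK] at this
    nlinarith
  obtain ⟨y, hy⟩ : ∃ y, y = Real.exp ly := ⟨_, rfl⟩
  have hlogy : Real.log y = ly := by rw [hy]; exact Real.log_exp _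
  have hly16 : 16 ≤ ly := by
    rw [hly, le_div_iff₀ hδ]
    nlinarith
  have hy3 : 3 ≤ y := by
    have := Real.add_one_le_exp ly
    rw [← hy] at this
    linarith
  have hy2 : 2 ≤ y := by linarith
  have c2 : C * L ≤ δ * Real.log y := by
    rw [hlogy, hδly]
    exact mul_le_mul_of_nonneg_right hC1C hL0.le
  have c3 : C * L ≤ K := (mul_le_mul_of_nonneg_right hC2C hL0.le).trans hK1
  have c4 : C * ((K + 1) * Real.log y) ≤ Real.log X := by
    rw [hlogy]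
    refine le_trans ?_ (hly_of (C * (C2 + 2)) (by positivity) hb1')
    calc C * (((K : ℝ) + 1) * ly) ≤ C * (((C2 + 2) * L) * ly) :=
          mul_le_mul_of_nonneg_left (mul_le_mul_of_nonneg_right hK2 hly0.le) hC.le
      _ = C * (C2 + 2) * L * ly := by ring
  have c5 : ∑ p ∈ PA y, 1 / (p:ℝ) ≤ 2 * L := by
    refine (mert y hy3).trans ?_
    rw [hlogy, hly, Real.log_div (by positivity) hδ.ne', Real.log_mul (by positivity) hL0.ne']
    have e1 : Real.log δ = -L := by rw [hLdef, one_div, Real.log_inv, neg_neg]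
    have e2 := NIC.log_le_half hL
    have e3 : 2 * (Real.log C1 + Cm) ≤ L := by
      have := Real.log_le_log hδ hdd
      rw [Real.log_exp, e1] at this
      linarith
    rw [e1]
    linarith
  have c6 : K * Real.log y ≤ Real.log X / 100 := by
    rw [hlogy]
    have h6 := hly_of (100 * (C2 + 2)) (by positivity) hb2'
    have h7 : (K : ℝ) * ly ≤ (C2 + 2) * L * ly :=
      mul_le_mul_of_nonneg_right (by linarith) hly0.le
    linarith
  have c7 : a1 * L ≤ δ * Real.log y := by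
    rw [hlogy, hδly]
    exact mul_le_mul_of_nonneg_right hC1a hL0.le
  have c8 : b1 * L ≤ K := (mul_le_mul_of_nonneg_right hC2b hL0.le).trans hK1
  have c9 : b0 * L * Real.log y ≤ Real.log X := by
    rw [hlogy]
    exact hly_of b0 hb0.le hb3'
  have hX0 : 0 < X := by linarith
  have hmean := h1 δ hδ hd1 (by rw [← hLdef]; exact hb4') y K (by exact_mod_cast hy2) (by rw [← hLdef]; exact c7)
    (by rw [← hLdef]; exact c8) c6
  have hrare := hx δ hδ hdx 2 y le_rfl (by exact_mod_cast hy2) (by rw [← hLdef]; exact c9) hlinv 1 zero_le_one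
    (Real.one_le_rpow hX1 (by norm_num))
  rw [← hLdef]
  refine ⟨y, K, hy2, c2, c3, c4, c5, (by rw [hlogy, hδly]), ?_⟩
  obtain ⟨X9, hX9⟩ : ∃ X9, X9 = X ^ ((9:ℝ) / 10) := ⟨_, rfl⟩
  have hX91 : 1 ≤ X9 := by rw [hX9]; exact Real.one_le_rpow hX1 (by norm_num)
  have hX9X : X9 ≤ X := by
    rw [hX9]
    calc X ^ ((9:ℝ) / 10) ≤ X ^ (1 : ℝ) := Real.rpow_le_rpow_of_exponent_le hX1 (by norm_num)
      _ = X := Real.rpow_one X
  rw [← hX9]
  rw [← hX9] at hmean hrare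
  have hδD : 0 < δ ^ D := Real.rpow_pos_of_pos hδ _
  have hδ3 : δ ^ (D + 3) ≤ δ ^ D / 6 := by
    rw [Real.rpow_add hδ]
    have : δ ^ (3:ℝ) ≤ 1 / 6 := by
      calc δ ^ (3:ℝ) ≤ (1 / 16 : ℝ) ^ (3:ℝ) := Real.rpow_le_rpow hδ.le hδ16 (by norm_num)
        _ = (1 / 16 : ℝ) ^ (3:ℕ) := by rw [← Real.rpow_natCast]; norm_num
        _ ≤ 1 / 6 := by norm_num
    calc δ ^ D * δ ^ (3:ℝ) ≤ δ ^ D * (1 / 6) := mul_le_mul_of_nonneg_left this hδD.le
      _ = δ ^ D / 6 := by ring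
  have hs2 := hsup (fun s : ℂ => riemannZeta s * AS (-1) y K s - 1) (differentiableOn_F y K) δ X9 (2 * X)
    (X * δ ^ (2 * C + D + 3)) hδ hδ16 (hX9X.trans (le_mul_of_one_le_left hX0.le one_le_two)) (by positivity) (fun δ' hd1 hd2 => by
      have := hmean δ' hd1 hd2
      refine le_trans (le_of_eq ?_) this
      refine intervalIntegral.integral_congr fun t _ => ?_
      simp only [Inp.ez y hy2 K])
    1 (δ ^ C) zero_le_one (Real.rpow_pos_of_pos hδ _)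
  have hsub : {t : ℝ | X9 + 1 ≤ t ∧ t ≤ X ∧ ∃ u : ℝ, t ≤ u ∧ u ≤ t + 1 ∧ ¬ Good a0 C y K δ u} ⊆
      {t : ℝ | X9 + 1 ≤ t ∧ t ≤ X ∧ ∃ u : ℝ, t ≤ u ∧ u ≤ t + 1 ∧
        a0 * Real.log (1 / δ) < ‖GC.ec (1 / 2 + δ + u * I) (GC.xc (HM.PP 2 y))‖} ∪
      {t : ℝ | X9 + 1 ≤ t ∧ t + 1 + 1 ≤ 2 * X ∧ ∃ u : ℝ, t ≤ u ∧ u ≤ t + 1 ∧
        δ ^ C ≤ ‖riemannZeta (1 / 2 + δ + u * I) * AS (-1) y K (1 / 2 + δ + u * I) - 1‖} := by
    rintro t ⟨ht1, ht2, u, hu1, hu2, hg⟩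
    unfold Good at hg
    rw [not_and_or] at hg
    rcases hg with hg | hg
    · left
      refine ⟨ht1, ht2, u, hu1, hu2, ?_⟩
      have h4 : GC.ec (1 / 2 + δ + u * I) (GC.xc (HM.PP 2 y)) = ∑ p ∈ PA y, (p:ℂ) ^ (-(pw δ u)) := by
        unfold GC.xc
        rw [map_sum, Inp.PP_two]
        refine Finset.sum_congr rfl fun p _ => ?_
        rw [Inp.ecs, one_mul]
        rfl
      rw [h4]
      exact not_le.1 hg
    · right
      refine ⟨ht1, by linarith, u, hu1, hu2, ?_⟩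
      exact (not_le.1 hg).le
  refine (measure_mono hsub).trans ((measure_union_le _ _).trans ?_)
  refine (add_le_add hrare hs2).trans ?_
  rw [← ENNReal.ofReal_add (by positivity) (by positivity)]
  refine ENNReal.ofReal_le_ofReal ?_
  have e1 : (δ ^ C) ^ 2 = δ ^ (2 * C) := by
    rw [← Real.rpow_natCast, ← Real.rpow_mul hδ.le]
    congr 1
    push_cast
    ring
  have e2 : Cs * (1 + 2) * (X * δ ^ (2 * C + D + 3)) / (δ * (δ ^ C) ^ 2) = 3 * (Cs * δ ^ (2:ℝ)) * (δ ^ D * X) := by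
    rw [e1, show 2 * C + D + 3 = 2 * C + (D + (2 + 1)) by ring, Real.rpow_add hδ (2 * C), Real.rpow_add hδ D,
      Real.rpow_add hδ 2, Real.rpow_one]
    have h2c : 0 < δ ^ (2 * C) := Real.rpow_pos_of_pos hδ _
    field_simp
    ring
  rw [e2]
  have e3 : (1 + 2) * X * δ ^ (D + 3) ≤ 3 * X * (δ ^ D / 6) := by
    have := mul_le_mul_of_nonneg_left hδ3 (show 0 ≤ 3 * X by positivity)
    linarith
  have e4 : 3 * (Cs * δ ^ (2:ℝ)) * (δ ^ D * X) ≤ 3 * (1 / 6) * (δ ^ D * X) := by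
    apply mul_le_mul_of_nonneg_right _ (by positivity)
    linarith
  linarith

end Pool.Agent.H6Z
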