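import Pool.Agent.N748.MG.CMP
import Pool.Agent.N748.MG.EUL
import Pool.Agent.H6Z.Win

set_option autoImplicit false

/-! The logarithm of `|ζ|` and the Euler product at the good points. -/

namespace Pool.Agent.H6Z

open Finset Filter MeasureTheory Topology Complex
open Pool.Agent.N748.MG

/-- the logarithm of the modulus of the Euler product over the primes up to `y` -/
noncomputable def El (y : ℝ) (w : ℂ) : ℝ := -∑ p ∈ PA y, Real.log ‖1 - (p:ℂ) ^ (-w)‖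

lemma El_eq (y : ℝ) (w : ℂ) : El y w = -(CMP.Lam y w).re := by
  unfold El CMP.Lam
  rw [Complex.re_sum]
  congr 1
  exact Finset.sum_congr rfl fun p _ => (Complex.log_re _).symm

lemma core_log {Z A Λ : ℂ} {κ T : ℝ} (hΛ : ‖Λ‖ ≤ 2 * T) (hZ : ‖Z * A - 1‖ ≤ 1 / 4)
    (hA : ‖A - Complex.exp Λ‖ ≤ κ) (hκ : κ * Real.exp (2 * T) ≤ 1 / 8) :
    Z ≠ 0 ∧ |Real.log ‖Z‖ + Λ.re| ≤ 1 := by
  obtain ⟨E, hE⟩ : ∃ E, E = Real.exp (2 * T) := ⟨_, rfl⟩
  rw [← hE] at hκ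
  have hE0 : 0 < E := by rw [hE]; exact Real.exp_pos _
  have h1 : ‖Complex.exp Λ‖ * E ≥ 1 := by
    rw [Complex.norm_exp, hE, ← Real.exp_add]
    refine Real.one_le_exp ?_
    have := (abs_le.1 (Complex.abs_re_le_norm Λ)).1
    linarith
  have hne : ‖Complex.exp Λ‖ = Real.exp Λ.re := Complex.norm_exp Λ
  have h2 : ‖Complex.exp Λ‖ ≤ ‖A‖ + κ := by
    have : Complex.exp Λ = A - (A - Complex.exp Λ) := by ring
    rw [this]
    refine (norm_sub_le _ _).trans ?_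
    have : ‖A - (A - Complex.exp Λ)‖ = ‖Complex.exp Λ‖ := by congr 1; ring
    linarith
  have h3 : 7 / 8 ≤ ‖A‖ * E := by nlinarith
  have h4 : ‖Z‖ * ‖A‖ ≤ 5 / 4 := by
    rw [← norm_mul]
    have : Z * A = (Z * A - 1) + 1 := by ring
    rw [this]
    refine (norm_add_le _ _).trans ?_
    rw [norm_one]
    linarith
  have hZ0 : 0 ≤ ‖Z‖ := norm_nonneg _
  have hA0 : 0 ≤ ‖A‖ := norm_nonneg _
  have h5 : ‖Z‖ ≤ 10 / 7 * E := by
    have h6 : ‖Z‖ * (7 / 8) ≤ ‖Z‖ * (‖A‖ * E) := mul_le_mul_of_nonneg_left h3 hZ0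
    have h7 : ‖Z‖ * ‖A‖ * E ≤ 5 / 4 * E := mul_le_mul_of_nonneg_right h4 hE0.le
    nlinarith
  have hκ0 : 0 ≤ κ := (norm_nonneg _).trans hA
  have h8 : ‖Z * Complex.exp Λ - 1‖ ≤ 1 / 2 := by
    have : Z * Complex.exp Λ - 1 = (Z * A - 1) - Z * (A - Complex.exp Λ) := by ring
    rw [this]
    refine (norm_sub_le _ _).trans ?_
    rw [norm_mul]
    have h9 : ‖Z‖ * ‖A - Complex.exp Λ‖ ≤ (10 / 7 * E) * κ := mul_le_mul h5 hA (norm_nonneg _) (by positivity)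
    nlinarith
  have hZne : Z ≠ 0 := by
    intro h
    rw [h, zero_mul, zero_sub, norm_neg, norm_one] at hZ
    norm_num at hZ
  refine ⟨hZne, ?_⟩
  have hZp : 0 < ‖Z‖ := norm_pos_iff.2 hZne
  have h10 := abs_norm_sub_norm_le (Z * Complex.exp Λ) 1
  rw [norm_one, norm_mul, hne] at h10
  have h11 := abs_le.1 (h10.trans h8)
  have h12 : Real.log ‖Z‖ + Λ.re = Real.log (‖Z‖ * Real.exp Λ.re) := by
    rw [Real.log_mul hZp.ne' (Real.exp_pos _).ne', Real.log_exp]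
  rw [h12, abs_le]
  have hlb : 1 / 2 ≤ ‖Z‖ * Real.exp Λ.re := by linarith [h11.1]
  have hub : ‖Z‖ * Real.exp Λ.re ≤ 3 / 2 := by linarith [h11.2]
  constructor
  · have h13 : Real.log (1 / 2) ≤ Real.log (‖Z‖ * Real.exp Λ.re) := Real.log_le_log (by norm_num) hlb
    have h14 : Real.log (1 / 2) = -Real.log 2 := by rw [one_div, Real.log_inv]
    have := Real.log_two_lt_d9
    linarith
  · have h13 := Real.log_le_sub_one_of_pos (show 0 < ‖Z‖ * Real.exp Λ.re by linarith)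
    linarith

/-- at the good points `log |ζ|` is close to the logarithm of the Euler product -/
theorem good_log (ca : ℝ) (hca : 0 < ca) : ∃ C0 : ℝ, 0 < C0 ∧ ∀ (C y : ℝ) (K : ℕ) (δ : ℝ), C0 ≤ C → 2 ≤ y → 0 < δ →
    δ ≤ 1 / 16 → C * Real.log (1 / δ) ≤ K → ∑ p ∈ PA y, 1 / (p:ℝ) ≤ 2 * Real.log (1 / δ) → ∀ u : ℝ,
    Good ca C y K δ u → riemannZeta (pw δ u) ≠ 0 ∧ |Real.log ‖riemannZeta (pw δ u)‖ - El y (pw δ u)| ≤ 1 := by
  obtain ⟨C₁, hC₁, h₁⟩ := EUL.main 1 zero_le_one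
  obtain ⟨B, hB⟩ : ∃ B : ℝ, B = (C₁ + 2) * (ca + 3) := ⟨_, rfl⟩
  have hB0 : 0 < B := by rw [hB]; positivity
  refine ⟨5 * (B + 3) + 2, by positivity, ?_⟩
  intro C y K δ hC hy hδ hδ16 hK hv u hg
  obtain ⟨L, hL⟩ : ∃ L, L = Real.log (1 / δ) := ⟨_, rfl⟩
  have hL1 : 1 ≤ L := by rw [hL]; exact log_inv_ge hδ hδ16
  obtain ⟨g1, g2⟩ := hg
  rw [← hL] at hK hv g1
  have hw : 1 / 2 ≤ (pw δ u).re := by
    unfold pw
    simp
    linarith
  obtain ⟨T, hT⟩ : ∃ T, T = ca * L + 2 * L + 1 := ⟨_, rfl⟩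
  have hTL : T ≤ (ca + 3) * L := by rw [hT]; nlinarith
  have e1 := h₁ y K (pw δ u) (-1) (ca * L) (2 * L) hy hw (by norm_num) g1 hv
  rw [CMP.prod_eq hw, neg_neg, one_mul, ← hT] at e1
  have hΛ : ‖CMP.Lam y (pw δ u)‖ ≤ 2 * T := (CMP.norm_Lam hw g1 hv).trans (by rw [hT]; nlinarith [mul_pos hca (lt_of_lt_of_le one_pos hL1)])
  have hZ : ‖riemannZeta (pw δ u) * AS (-1) y K (pw δ u) - 1‖ ≤ 1 / 4 := by
    refine g2.trans ?_
    have h2 : δ ^ C ≤ δ ^ (1:ℝ) := Real.rpow_le_rpow_of_exponent_ge hδ (by linarith) (by linarith)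
    rw [Real.rpow_one] at h2
    linarith
  have hκ : (4 / 5 : ℝ) ^ K * Real.exp (C₁ * T) * Real.exp (2 * T) ≤ 1 / 8 := by
    have g0 : (4 : ℝ) / 5 ≤ Real.exp (-(1 / 5)) := by
      have := Real.add_one_le_exp (-(1 / 5 : ℝ))
      linarith
    have g3 : ((4 : ℝ) / 5) ^ K ≤ Real.exp (-((B + 3) * L)) := by
      calc ((4 : ℝ) / 5) ^ K ≤ Real.exp (-(1 / 5)) ^ K := pow_le_pow_left₀ (by norm_num) g0 K
        _ = Real.exp (-(K / 5)) := by
          rw [← Real.exp_nat_mul]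
          congr 1
          ring
        _ ≤ _ := by
          apply Real.exp_le_exp.2
          have : 5 * (B + 3) * L ≤ K := by nlinarith
          linarith
    have g4 : C₁ * T + 2 * T ≤ B * L := by
      calc C₁ * T + 2 * T = (C₁ + 2) * T := by ring
        _ ≤ (C₁ + 2) * ((ca + 3) * L) := mul_le_mul_of_nonneg_left hTL (by positivity)
        _ = B * L := by rw [hB]; ring
    calc _ = (4 / 5 : ℝ) ^ K * Real.exp (C₁ * T + 2 * T) := by rw [mul_assoc, ← Real.exp_add]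
      _ ≤ Real.exp (-((B + 3) * L)) * Real.exp (B * L) := by gcongr
      _ = Real.exp (-(3 * L)) := by rw [← Real.exp_add]; congr 1; ring
      _ ≤ Real.exp (-3) := Real.exp_le_exp.2 (by linarith)
      _ ≤ 1 / 8 := by
        rw [Real.exp_neg, ← one_div]
        refine one_div_le_one_div_of_le (by norm_num) ?_
        have h5 : (2:ℝ) ≤ Real.exp 1 := by
          have := Real.add_one_le_exp (1:ℝ)
          linarith
        have h6 : Real.exp 3 = Real.exp 1 ^ 3 := by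
          rw [← Real.exp_nat_mul]
          norm_num
        rw [h6]
        calc (8:ℝ) = 2 ^ 3 := by norm_num
          _ ≤ _ := pow_le_pow_left₀ (by norm_num) h5 3
  obtain ⟨r1, r2⟩ := core_log hΛ hZ e1 hκ
  refine ⟨r1, ?_⟩
  rw [El_eq, sub_neg_eq_add]
  exact r2

end Pool.Agent.H6Z
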