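import Pool.Agent.H6Z.Dj
import Pool.Agent.H6Z.Glog

set_option autoImplicit false

/-! The approximations at the zeros: the good zeros. -/

namespace Pool.Agent.H6Z

open Finset Filter MeasureTheory Topology Complex
open Pool.Agent.N748.MG Pool.Agent.N748.MJ
open Pool.Agent.N748.MJ.SM (cc Lr G)
open Pool.Agent.Q97.UM (dp N2 cv)

/-- the properties of the parameters and of the good zeros -/
structure GZ {m : ℕ} (R D θ ε C5 B X δ : ℝ) (h : Fin m → ℝ) (y : ℝ) (K : ℕ) (G0 : Finset ℂ) : Prop where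
  sub : G0 ⊆ H370.Zf riemannZeta X (2 * X)
  y2 : 2 ≤ y
  len : (Nb y K : ℝ) ≤ X ^ θ
  ylo : C5 * Real.log (1 / δ) ≤ δ * Real.log y
  yup : δ * Real.log y ≤ B * Real.log (1 / δ)
  yX : C5 * ((K + 1) * Real.log y) ≤ Real.log X
  KL : C5 * Real.log (1 / δ) ≤ K
  bad : ∑ s ∈ H370.Zf riemannZeta X (2 * X) \ G0, mu s ≤ δ ^ D * (X * Real.log X)
  nz : ∀ s ∈ G0, ∀ j, riemannZeta (pw δ (s.im + h j)) ≠ 0
  lg : ∀ s ∈ G0, ∀ j, |Real.log ‖riemannZeta (pw δ (s.im + h j))‖ - El y (pw δ (s.im + h j))| ≤ 1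
  cmp : ∀ k : Fin m → ℝ, (∀ j, |k j| ≤ R) → ∀ s ∈ G0, |G k h δ s.im - ‖AV (cc k) h y K (pw δ s.im)‖ ^ 2| ≤ δ ^ D
  bad2 : ∀ k : Fin m → ℝ, (∀ j, |k j| ≤ R) →
    ∑ s ∈ H370.Zf riemannZeta X (2 * X) \ G0, mu s * ‖AV (cc k) h y K (pw δ s.im)‖ ^ 2 ≤ δ ^ D * (X * Real.log X)
  main : ∀ k : Fin m → ℝ, (∀ j, |k j| ≤ R) →
    |Real.exp (-(Lr k h δ)) * N2 (Nb y K) (bV (cc k) h y K δ) - (aV (cc k) (cc k) h).re| ≤ ε

open Classical in
lemma sum_cover {m : ℕ} (S : Finset ℂ) (B : Fin m → Finset ℂ) (hc : ∀ s ∈ S, ∃ j, s ∈ B j) (f : ℂ → ℝ)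
    (hf : ∀ s, 0 ≤ f s) : ∑ s ∈ S, f s ≤ ∑ j, ∑ s ∈ B j, f s := by
  calc ∑ s ∈ S, f s ≤ ∑ s ∈ S, ∑ j, (if s ∈ B j then f s else 0) := by
        refine Finset.sum_le_sum fun s hs => ?_
        obtain ⟨j, hj⟩ := hc s hs
        have h1 := Finset.single_le_sum (f := fun j => if s ∈ B j then f s else 0)
          (fun j _ => by split_ifs; exacts [hf s, le_rfl]) (Finset.mem_univ j)
        simpa [hj] using h1
    _ = ∑ j, ∑ s ∈ S, (if s ∈ B j then f s else 0) := Finset.sum_comm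
    _ ≤ ∑ j, ∑ s ∈ B j, f s := by
        refine Finset.sum_le_sum fun j _ => ?_
        rw [← Finset.sum_filter]
        refine Finset.sum_le_sum_of_subset_of_nonneg ?_ fun s _ _ => hf s
        intro s hs
        exact (Finset.mem_filter.1 hs).2

theorem dj (hU : S_UB) (m : ℕ) (R D θ ε C5 : ℝ) (hR : 0 < R) (hD : 0 < D) (hθ : 0 < θ) (hε : 0 < ε) (hC5 : 0 < C5) :
    ∃ B : ℝ, 0 < B ∧ Ev fun X δ => ∀ h : Fin m → ℝ, (∀ j, |h j| ≤ X ^ ((1:ℝ) / 2)) →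
      ∃ (y : ℝ) (K : ℕ) (G0 : Finset ℂ), GZ R D θ ε C5 B X δ h y K G0 := by
  classical
  obtain ⟨C4, hC4, hfour⟩ := fourth hU m R hR.le
  obtain ⟨D1, hD1⟩ : ∃ D1 : ℝ, D1 = C4 + 2 * D + 2 := ⟨_, rfl⟩
  obtain ⟨Cn, hCn, hcount⟩ := count_bad
  obtain ⟨ca, hca, hnic⟩ := nicw (D1 + 1) (by rw [hD1]; linarith)
  obtain ⟨Cc, hCc0, hCc⟩ := cmpvF m R hR.le
  obtain ⟨Cm, δm, hCm, hδm, hmain⟩ := main_term m R hR.le ε hε
  obtain ⟨Cg, hCg, hgood⟩ := good_log ca hca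
  obtain ⟨Bc, hBc⟩ : ∃ Bc, Bc = Cc * (ca + 3) := ⟨_, rfl⟩
  have hBc0 : 0 < Bc := by rw [hBc]; positivity
  obtain ⟨Ac, hAc⟩ : ∃ Ac, Ac = Bc + D + 1 := ⟨_, rfl⟩
  have hAc0 : 0 < Ac := by rw [hAc]; positivity
  obtain ⟨C, hC⟩ : ∃ C : ℝ, C = 5 * (Ac + Bc) + 2 * C4 + Cm + Cg + 2 * C5 + 2 / θ := ⟨_, rfl⟩
  have hθi : 0 < 2 / θ := by positivity
  have hCAB : 5 * (Ac + Bc) ≤ C := by rw [hC]; linarith
  have hCC4 : 2 * C4 ≤ C := by rw [hC]; linarith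
  have hCCm : Cm ≤ C := by rw [hC]; linarith
  have hCCg : Cg ≤ C := by rw [hC]; linarith
  have hCC5 : 2 * C5 ≤ C := by rw [hC]; linarith
  have hCθ : 2 / θ ≤ C := by rw [hC]; linarith
  have hC0 : 0 < C := by linarith
  obtain ⟨B, hB, hevn⟩ := hnic C hC0
  refine ⟨B, hB, ?_⟩
  have hlim : ∀ᶠ X : ℝ in atTop, (3 * X) ^ ((9:ℝ) / 10) + 1 + X ^ ((1:ℝ) / 2) + 1 ≤ X := by
    have h1 : Tendsto (fun X : ℝ => (3 * X) ^ (-(1:ℝ) / 10)) atTop (𝓝 0) := by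
      have h2 := (tendsto_rpow_neg_atTop (show (0:ℝ) < 1 / 10 by norm_num))
      have h3 : Tendsto (fun X : ℝ => 3 * X) atTop atTop := tendsto_id.const_mul_atTop (by norm_num)
      have h4 := h2.comp h3
      refine h4.congr fun X => ?_
      simp only [Function.comp]
      norm_num
    have h5 : Tendsto (fun X : ℝ => X ^ (-(1:ℝ) / 2)) atTop (𝓝 0) := by
      have h2 := (tendsto_rpow_neg_atTop (show (0:ℝ) < 1 / 2 by norm_num))
      refine h2.congr fun X => ?_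
      norm_num
    filter_upwards [h1.eventually_le_const (show (0:ℝ) < 1 / 12 by norm_num),
      h5.eventually_le_const (show (0:ℝ) < 1 / 4 by norm_num), eventually_ge_atTop (8:ℝ)] with X e1 e2 e3
    have hX0 : 0 < X := by linarith
    have e4 : (3 * X) ^ ((9:ℝ) / 10) = (3 * X) * (3 * X) ^ (-(1:ℝ) / 10) := by
      conv_rhs => rw [← Real.rpow_one_add' (by positivity) (by norm_num)]
      norm_num
    have e5 : X ^ ((1:ℝ) / 2) = X * X ^ (-(1:ℝ) / 2) := by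
      conv_rhs => rw [← Real.rpow_one_add' (by positivity) (by norm_num)]
      norm_num
    rw [e4, e5]
    nlinarith
  have hEv := (((((((Ev.up hevn).and (Ev.of_le hδm)).and (Ev.of_ev hfour)).and (Ev.of_ev hlim)).and
    (Ev.small (C := 3 * Cn * (m : ℝ)) (c := 1) (e := 1) (by norm_num) (by norm_num))).and
    (Ev.of_ev (eventually_ge_atTop (16:ℝ)))).and (Ev.of_le (show (0:ℝ) < 1 / 16 by norm_num)))
  refine hEv.mono ?_
  rintro X δ hX1 hδ hδ16 ⟨⟨⟨⟨⟨⟨hup, hdm⟩, hfo⟩, hlimX⟩, hsm⟩, hX16⟩, -⟩ h hh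
  have hX0 : 0 < X := by linarith
  obtain ⟨y, K, hy, hy1, hK1, hKX, hv, hyB, hW⟩ := hup (3 * X) (by linarith)
  obtain ⟨L, hLd⟩ : ∃ L, L = Real.log (1 / δ) := ⟨_, rfl⟩
  have hL1 : 1 ≤ L := by rw [hLd]; exact log_inv_ge hδ hδ16
  have hL0 : 0 < L := by linarith
  have hδ1' : δ ≤ 1 := by linarith
  have hrp : ∀ a : ℝ, δ ^ a = Real.exp (-(a * L)) := fun a => by
    rw [hLd]; exact Pool.Agent.N748.MG.CM.rpow_eq hδ a
  have hly : 0 < Real.log y := Real.log_pos (by linarith)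
  have hlX : 0 < Real.log X := Real.log_pos (by linarith)
  have hKly : 0 ≤ ((K:ℝ) + 1) * Real.log y := by positivity
  have hlog3 : Real.log (3 * X) ≤ 2 * Real.log X := by
    have : 2 * Real.log X = Real.log (X * X) := by rw [Real.log_mul hX0.ne' hX0.ne']; ring
    rw [this]
    exact Real.log_le_log (by linarith) (by nlinarith)
  have hKX2 : ∀ c : ℝ, 2 * c ≤ C → c * ((K + 1) * Real.log y) ≤ Real.log X := by
    intro c hc
    have h1 : 2 * c * ((K + 1) * Real.log y) ≤ 2 * Real.log X :=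
      ((mul_le_mul_of_nonneg_right hc hKly).trans hKX).trans hlog3
    linarith
  have hKfour : C4 * ((K + 1) * Real.log y) ≤ Real.log X := hKX2 C4 (by linarith)
  have hlen : (Nb y K : ℝ) ≤ X ^ θ := by
    refine Nb_rpow hy K hX0 ?_
    have h1 := hKX2 (1 / θ) (by rw [mul_one_div]; exact hCθ)
    rw [one_div, inv_mul_le_iff₀ hθ] at h1
    exact h1
  -- the bad zeros
  obtain ⟨Zs, hZs⟩ : ∃ Zs : Finset ℂ, Zs = H370.Zf riemannZeta X (2 * X) := ⟨_, rfl⟩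
  obtain ⟨Bj, hBj⟩ : ∃ Bj : Fin m → Finset ℂ, Bj = fun j => Zs.filter (fun s => ¬ Good ca C y K δ (s.im + h j)) :=
    ⟨_, rfl⟩
  obtain ⟨G0, hG0⟩ : ∃ G0 : Finset ℂ, G0 = Zs.filter (fun s => ∀ j, Good ca C y K δ (s.im + h j)) := ⟨_, rfl⟩
  have hG0Z : G0 ⊆ Zs := by rw [hG0]; exact Finset.filter_subset _ _
  have hmem : ∀ s ∈ Zs, X < s.im ∧ s.im ≤ 2 * X := by
    intro s hs
    rw [hZs, H370.mem_Zf H370.good_zeta (by linarith : (1:ℝ) ≤ X)] at hs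
    exact ⟨hs.2.2.1, hs.2.2.2.1⟩
  have hBjle : ∀ j, ∑ s ∈ Bj j, mu s ≤ Cn * Real.log X * (δ ^ (D1 + 1) * (3 * X)) := by
    intro j
    refine hcount X (by linarith) (Bj j) ?_ (h j) _ {t : ℝ | (3 * X) ^ ((9:ℝ) / 10) + 1 ≤ t ∧ t ≤ 3 * X ∧
      ∃ u : ℝ, t ≤ u ∧ u ≤ t + 1 ∧ ¬ Good ca C y K δ u} ?_ (by positivity) hW
    · rw [hBj, ← hZs]
      exact Finset.filter_subset _ _
    · intro s hs t ht1 ht2
      rw [hBj, Finset.mem_filter] at hs
      obtain ⟨hs1, hs2⟩ := hs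
      obtain ⟨hs3, hs4⟩ := hmem s hs1
      have hj := abs_le.1 (hh j)
      have hXh : X ^ ((1:ℝ) / 2) + 1 ≤ X := by
        have : 0 ≤ (3 * X) ^ ((9:ℝ) / 10) := by positivity
        linarith
      exact ⟨by linarith [hj.1], by linarith [hj.2], s.im + h j, ht2, by linarith, hs2⟩
  have hcov : ∀ s ∈ Zs \ G0, ∃ j, s ∈ Bj j := by
    intro s hs
    rw [Finset.mem_sdiff, hG0, Finset.mem_filter, not_and] at hs
    obtain ⟨hs1, hs2⟩ := hs
    have hs3 := hs2 hs1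
    push Not at hs3
    obtain ⟨j, hj⟩ := hs3
    refine ⟨j, ?_⟩
    rw [hBj, Finset.mem_filter]
    exact ⟨hs1, hj⟩
  have hbad : ∑ s ∈ Zs \ G0, mu s ≤ δ ^ D1 * (X * Real.log X) := by
    calc ∑ s ∈ Zs \ G0, mu s ≤ ∑ j, ∑ s ∈ Bj j, mu s := sum_cover _ Bj hcov mu mu_nonneg
      _ ≤ ∑ _j : Fin m, Cn * Real.log X * (δ ^ (D1 + 1) * (3 * X)) := Finset.sum_le_sum fun j _ => hBjle j
      _ = (3 * Cn * (m:ℝ) * δ ^ (1:ℝ)) * (δ ^ D1 * (X * Real.log X)) := by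
          rw [Finset.sum_const, Finset.card_univ, Fintype.card_fin, nsmul_eq_mul, Real.rpow_add hδ]
          ring
      _ ≤ 1 * (δ ^ D1 * (X * Real.log X)) := mul_le_mul_of_nonneg_right hsm (by positivity)
      _ = _ := one_mul _
  have hgj : ∀ s ∈ G0, ∀ j, Good ca C y K δ (s.im + h j) := by
    intro s hs
    rw [hG0, Finset.mem_filter] at hs
    exact hs.2
  have hglog : ∀ s ∈ G0, ∀ j, riemannZeta (pw δ (s.im + h j)) ≠ 0 ∧
      |Real.log ‖riemannZeta (pw δ (s.im + h j))‖ - El y (pw δ (s.im + h j))| ≤ 1 := fun s hs j =>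
    hgood C y K δ hCCg hy hδ hδ16 hK1 hv _ (hgj s hs j)
  have hs' : ∀ k : Fin m → ℝ, (∀ j, |k j| ≤ R) → ∀ j, ‖cc k j‖ ≤ R := fun k hk j => by
    unfold cc
    rw [Complex.norm_real, Real.norm_eq_abs]
    exact hk j
  have hexpE : ∀ s : ℝ, s = Cc * (ca * L + 2 * L + 1) → Real.exp s ≤ Real.exp (Bc * L) := by
    intro s hs
    rw [hs, hBc]
    apply Real.exp_le_exp.2
    nlinarith
  have hK45 : ((4 : ℝ) / 5) ^ K ≤ Real.exp (-((Ac + Bc) * L)) := by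
    have g1 : (4 : ℝ) / 5 ≤ Real.exp (-(1 / 5)) := by
      have := Real.add_one_le_exp (-(1 / 5 : ℝ))
      linarith
    have g2 : 5 * (Ac + Bc) * L ≤ K := (mul_le_mul_of_nonneg_right hCAB hL0.le).trans (by rw [hLd]; exact hK1)
    calc ((4 : ℝ) / 5) ^ K ≤ Real.exp (-(1 / 5)) ^ K := pow_le_pow_left₀ (by norm_num) g1 K
      _ = Real.exp (-(K / 5)) := by
        rw [← Real.exp_nat_mul]
        congr 1
        ring
      _ ≤ _ := by
        apply Real.exp_le_exp.2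
        linarith
  have hcmp : ∀ k : Fin m → ℝ, (∀ j, |k j| ≤ R) → ∀ s ∈ G0,
      |G k h δ s.im - ‖AV (cc k) h y K (pw δ s.im)‖ ^ 2| ≤ δ ^ D := by
    intro k hk s hs
    have hre : 1 / 2 ≤ (pw δ s.im).re := by
      unfold pw
      simp
      linarith
    have g1 : ∀ j, ‖∑ p ∈ PA y, (p:ℂ) ^ (-(pw δ s.im + h j * I))‖ ≤ ca * L := by
      intro j
      rw [JM.pw_add, hLd]
      exact (hgj s hs j).1
    have k1 : ∀ j, ‖riemannZeta (pw δ s.im + h j * I) * AS (-1) y K (pw δ s.im + h j * I) - 1‖ ≤ δ ^ Ac := by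
      intro j
      rw [JM.pw_add]
      exact (hgj s hs j).2.trans (Real.rpow_le_rpow_of_exponent_ge hδ hδ1' (by linarith))
    have k2 : (4 / 5 : ℝ) ^ K * Real.exp (Cc * (ca * L + 2 * L + 1)) ≤ δ ^ Ac := by
      rw [hrp]
      calc _ ≤ Real.exp (-((Ac + Bc) * L)) * Real.exp (Bc * L) :=
            mul_le_mul hK45 (hexpE _ rfl) (Real.exp_pos _).le (Real.exp_pos _).le
        _ = Real.exp (-(Ac * L)) := by
          rw [← Real.exp_add]
          congr 1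
          ring
    have k3 : δ ^ Ac * Real.exp (Cc * (ca * L + 2 * L + 1)) ≤ δ ^ (D + 1) := by
      rw [hrp, hrp]
      calc _ ≤ Real.exp (-(Ac * L)) * Real.exp (Bc * L) :=
            mul_le_mul_of_nonneg_left (hexpE _ rfl) (Real.exp_pos _).le
        _ = _ := by
          rw [← Real.exp_add, hAc]
          congr 1
          ring
    have k3' : δ ^ (D + 1) ≤ δ ^ D := Real.rpow_le_rpow_of_exponent_ge hδ hδ1' (by linarith)
    have k4 : δ ^ (D + 1) ≤ 1 := Real.rpow_le_one hδ.le hδ1' (by positivity)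
    have k5 := (hCc y K (pw δ s.im) h (ca * L) (2 * L) (δ ^ Ac) hy hre (by positivity) g1 (by rw [hLd]; exact hv)
      (Real.rpow_pos_of_pos hδ _) k1 k2 (k3.trans k4) (cc k) (fun _ => 0) (hs' k hk)
      (fun j => by simp; exact hR.le)).trans (k3.trans k3')
    simp only [JM.pw_add] at k5
    rw [SM.sp_zero, SM.sm_zero, cj_cc] at k5
    have k6 := SM.prod_ZZ k h δ s.im
    rw [k6, Complex.mul_conj, Complex.normSq_eq_norm_sq, ← Complex.ofReal_sub, Complex.norm_real,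
      Real.norm_eq_abs] at k5
    exact k5
  have hbad2 : ∀ k : Fin m → ℝ, (∀ j, |k j| ≤ R) →
      ∑ s ∈ Zs \ G0, mu s * ‖AV (cc k) h y K (pw δ s.im)‖ ^ 2 ≤ δ ^ D * (X * Real.log X) := by
    intro k hk
    obtain ⟨lam, hlam⟩ : ∃ lam : ℝ, lam = δ ^ ((D1 + C4) / 2) := ⟨_, rfl⟩
    have hlam0 : 0 < lam := by rw [hlam]; exact Real.rpow_pos_of_pos hδ _
    have h4 := hfo y K δ hy hδ hδ16 hKfour (cc k) h (hs' k hk)
    rw [← hZs] at h4
    have h5 : ∀ s, mu s * ‖AV (cc k) h y K (pw δ s.im)‖ ^ 2 ≤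
        lam⁻¹ * mu s + lam * (mu s * ‖AV (cc k) h y K (pw δ s.im)‖ ^ 4) := by
      intro s
      obtain ⟨x, hx⟩ : ∃ x, x = ‖AV (cc k) h y K (pw δ s.im)‖ ^ 2 := ⟨_, rfl⟩
      have hx4 : ‖AV (cc k) h y K (pw δ s.im)‖ ^ 4 = x ^ 2 := by rw [hx]; ring
      rw [hx4, ← hx]
      have h6 : x ≤ lam⁻¹ + lam * x ^ 2 := by
        have h7 : 0 ≤ lam⁻¹ * (1 - lam * x) ^ 2 := by positivity
        have h8 : lam⁻¹ * (1 - lam * x) ^ 2 = lam⁻¹ - 2 * x + lam * x ^ 2 := by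
          field_simp
          ring
        have hx0 : 0 ≤ x := by rw [hx]; positivity
        linarith
      have := mul_le_mul_of_nonneg_left h6 (mu_nonneg s)
      linarith
    have h6 : ∑ s ∈ Zs \ G0, mu s * ‖AV (cc k) h y K (pw δ s.im)‖ ^ 4 ≤ 8 * (X * Real.log X * δ ^ (-C4)) :=
      (Finset.sum_le_sum_of_subset_of_nonneg Finset.sdiff_subset fun s _ _ =>
        mul_nonneg (mu_nonneg s) (by positivity)).trans h4
    have e1 : lam⁻¹ * δ ^ D1 = δ ^ (D + 1) := by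
      rw [hlam, ← Real.rpow_neg hδ.le, ← Real.rpow_add hδ]
      congr 1
      rw [hD1]; ring
    have e2 : lam * δ ^ (-C4) = δ ^ (D + 1) := by
      rw [hlam, ← Real.rpow_add hδ]
      congr 1
      rw [hD1]; ring
    have e3 : δ ^ (D + 1) = δ ^ D * δ := by rw [Real.rpow_add hδ, Real.rpow_one]
    calc ∑ s ∈ Zs \ G0, mu s * ‖AV (cc k) h y K (pw δ s.im)‖ ^ 2
        ≤ ∑ s ∈ Zs \ G0, (lam⁻¹ * mu s + lam * (mu s * ‖AV (cc k) h y K (pw δ s.im)‖ ^ 4)) :=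
          Finset.sum_le_sum fun s _ => h5 s
      _ = lam⁻¹ * ∑ s ∈ Zs \ G0, mu s + lam * ∑ s ∈ Zs \ G0, mu s * ‖AV (cc k) h y K (pw δ s.im)‖ ^ 4 := by
          rw [Finset.sum_add_distrib, ← Finset.mul_sum, ← Finset.mul_sum]
      _ ≤ lam⁻¹ * (δ ^ D1 * (X * Real.log X)) + lam * (8 * (X * Real.log X * δ ^ (-C4))) := by gcongr
      _ = (lam⁻¹ * δ ^ D1) * (X * Real.log X) + 8 * (lam * δ ^ (-C4)) * (X * Real.log X) := by ring
      _ = 9 * δ * (δ ^ D * (X * Real.log X)) := by rw [e1, e2, e3]; ring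
      _ ≤ 1 * (δ ^ D * (X * Real.log X)) := by
          apply mul_le_mul_of_nonneg_right _ (by positivity)
          linarith
      _ = _ := one_mul _
  have hyL : ∀ c : ℝ, c ≤ C → c * Real.log (1 / δ) ≤ δ * Real.log y := fun c hc =>
    (mul_le_mul_of_nonneg_right hc (by rw [← hLd]; exact hL0.le)).trans hy1
  have hKL : ∀ c : ℝ, c ≤ C → c * Real.log (1 / δ) ≤ K := fun c hc =>
    (mul_le_mul_of_nonneg_right hc (by rw [← hLd]; exact hL0.le)).trans hK1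
  have hδDD : δ ^ D1 ≤ δ ^ D := Real.rpow_le_rpow_of_exponent_ge hδ hδ1' (by rw [hD1]; linarith)
  refine ⟨y, K, G0, ?_⟩
  refine ⟨by rw [← hZs]; exact hG0Z, hy, hlen, hyL C5 (by linarith), hyB, hKX2 C5 hCC5, hKL C5 (by linarith), ?_,
    fun s hs j => (hglog s hs j).1, fun s hs j => (hglog s hs j).2, hcmp, ?_, ?_⟩
  · rw [← hZs]
    exact hbad.trans (mul_le_mul_of_nonneg_right hδDD (by positivity))
  · intro k hk
    rw [← hZs]
    exact hbad2 k hk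
  · intro k hk
    exact hmain δ hδ hdm y K hy (hyL Cm hCCm) (hKL Cm hCCm) k h hk

end Pool.Agent.H6Z
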