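import Pool.Agent.Y755.Hq4
import Pool.Agent.N748.HM.ZM1
import Pool.Agent.N748.HM.ZM2

set_option autoImplicit false

/-! The fourth moment of zeta on lines near the critical line. -/

namespace Pool.Agent.H6Z.Fl

open Finset Filter MeasureTheory Topology Complex
open Pool.Agent.Y755
open Pool.Agent.N748.HM

/-- mean square on a line near the critical line -/
lemma ip_line {x M : ℝ} (hx : 0 < x) {h : P1} (hb : Bd1 M h)
    (hh : ∀ n, n ≠ 0 → |h.coeff n| ≤ n.divisors.card) : ip x h h ≤ (1 + 1 / (2 * x)) ^ 4 := by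
  rw [ip_eq x h h (ZM1.supp_sub hb)]
  have h1 : ∑ n ∈ Icc 1 ⌊M⌋₊, h.coeff n * h.coeff n * wδ x n ≤ ZM2.Sk 2 ⌊M⌋₊ (2 * x) := by
    unfold ZM2.Sk
    refine sum_le_sum fun n hn => ?_
    rw [mem_Icc] at hn
    have h1 := hh n (by omega)
    have hn0 : (0:ℝ) < n := by exact_mod_cast hn.1
    have hw : wδ x n = (n:ℝ) ^ (-1 - 2 * x) := by
      unfold wδ
      rw [show (-1 - 2 * x : ℝ) = -(2 * x) - 1 by ring, Real.rpow_sub_one hn0.ne']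
      ring
    rw [hw]
    refine mul_le_mul_of_nonneg_right ?_ (by positivity)
    rw [← abs_mul_abs_self, sq]
    exact mul_le_mul h1 h1 (abs_nonneg _) (Nat.cast_nonneg (α := ℝ) n.divisors.card)
  refine h1.trans ?_
  have h0 : ZM2.Sk 0 ⌊M⌋₊ (2 * x) ≤ 1 + 1 / (2 * x) := by
    unfold ZM2.Sk
    simpa using ZM2.sum_rpow_le (by linarith : 0 < 2 * x) ⌊M⌋₊
  have h1 := (ZM2.Sk_succ 0 ⌊M⌋₊ (2 * x)).trans (pow_le_pow_left₀ (ZM2.Sk_nonneg _ _ _) h0 2)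
  have h2 := (ZM2.Sk_succ 1 ⌊M⌋₊ (2 * x)).trans (pow_le_pow_left₀ (ZM2.Sk_nonneg _ _ _) h1 2)
  calc ZM2.Sk 2 ⌊M⌋₊ (2 * x) ≤ _ := h2
    _ = _ := by ring

lemma zN1_coeff (N n : ℕ) : |(zN N * 1).coeff n| ≤ 1 := by
  rw [mul_one]; exact ZM1.zN_coeff N n

lemma D21_coeff (N n : ℕ) (hn : n ≠ 0) : |(D2 N 1).coeff n| ≤ n.divisors.card := by
  unfold D2
  exact ZM1.Dt_coeff (zN1_coeff N) N n hn

lemma D21_l1 (N : ℕ) : l1' (D2 N 1) ≤ (N:ℝ) ^ 2 := by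
  have := D2_l1 N 1
  rwa [l1'_one, mul_one] at this

/-- the pointwise inequality -/
lemma ptw2 (z d : ℂ) : ‖z ^ 2 - d‖ ^ 2 ≤ 2 * ‖z‖ ^ 4 + 2 * ‖d‖ ^ 2 := by
  have h1 : ‖z ^ 2 - d‖ ≤ ‖z‖ ^ 2 + ‖d‖ := by
    refine (norm_sub_le _ _).trans ?_
    rw [norm_pow]
  have h2 : ‖z ^ 2 - d‖ ^ 2 ≤ (‖z‖ ^ 2 + ‖d‖) ^ 2 := pow_le_pow_left₀ (norm_nonneg _) h1 2
  nlinarith [sq_nonneg (‖z‖ ^ 2 - ‖d‖)]

lemma ptw3 (z d : ℂ) : ‖z‖ ^ 4 ≤ 2 * ‖z ^ 2 - d‖ ^ 2 + 2 * ‖d‖ ^ 2 := by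
  have h1 : ‖z‖ ^ 2 ≤ ‖z ^ 2 - d‖ + ‖d‖ := by
    have := norm_add_le (z ^ 2 - d) d
    rwa [sub_add_cancel, norm_pow] at this
  have h2 : (‖z‖ ^ 2) ^ 2 ≤ (‖z ^ 2 - d‖ + ‖d‖) ^ 2 := pow_le_pow_left₀ (by positivity) h1 2
  nlinarith [sq_nonneg (‖z ^ 2 - d‖ - ‖d‖)]

/-- the critical line -/
lemma line {T : ℝ} (hT : 1000 ≤ T) {N : ℕ} (hN : 1 ≤ N) {a : ℝ} (ha : 0 ≤ a) (haT : a ≤ T) :
    ∫ t in a..T, qd2 (fun s => es s 1) (fun s => es s (D2 N 1)) (1 / 2) t ≤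
      2 * (4 / 5 * (T * Real.log T ^ 4)) + 2 * (T * (1 + Real.log N) ^ 4 + 2 * N * ((N:ℝ) ^ 2) ^ 2) := by
  have hT0 : 0 ≤ T := by linarith
  have hb1 : Bd1 1 (1 : P1) := Bd1.one
  have hD : Bd1 N (D2 N 1) := D2_Bd hb1
  have hN1 : (1:ℝ) ≤ N := by exact_mod_cast hN
  have cq : Continuous (qd2 (fun s => es s 1) (fun s => es s (D2 N 1)) (1 / 2)) :=
    qd2_cont (es_diff hb1) (es_diff hD) (by norm_num)
  have s1 : ∫ t in a..T, qd2 (fun s => es s 1) (fun s => es s (D2 N 1)) (1 / 2) t ≤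
      ∫ t in (0:ℝ)..T, qd2 (fun s => es s 1) (fun s => es s (D2 N 1)) (1 / 2) t :=
    intervalIntegral.integral_mono_interval ha haT le_rfl
      (Eventually.of_forall fun t => qd2_nonneg _ _ _ _) (cq.intervalIntegrable _ _)
  have cz : Continuous fun t : ℝ => ‖riemannZeta (((1 / 2 : ℝ) : ℂ) + t * I)‖ ^ 4 :=
    ((zeta_cont (by norm_num)).norm).pow 4
  have cd : Continuous fun t : ℝ => ‖es (((1 / 2 : ℝ) : ℂ) + t * I) (D2 N 1)‖ ^ 2 := ((ZM1.es_cont hD).norm).pow 2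
  have s2 : ∫ t in (0:ℝ)..T, qd2 (fun s => es s 1) (fun s => es s (D2 N 1)) (1 / 2) t ≤
      ∫ t in (0:ℝ)..T, (2 * ‖riemannZeta (((1 / 2 : ℝ) : ℂ) + t * I)‖ ^ 4 +
        2 * ‖es (((1 / 2 : ℝ) : ℂ) + t * I) (D2 N 1)‖ ^ 2) := by
    refine intervalIntegral.integral_mono_on hT0 (cq.intervalIntegrable _ _)
      (((cz.const_mul 2).add (cd.const_mul 2)).intervalIntegrable _ _) fun t _ => ?_
    show ‖riemannZeta (((1 / 2 : ℝ) : ℂ) + t * I) ^ 2 * es (((1 / 2 : ℝ) : ℂ) + t * I) 1 -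
      es (((1 / 2 : ℝ) : ℂ) + t * I) (D2 N 1)‖ ^ 2 ≤ _
    rw [map_one, mul_one]
    exact ptw2 _ _
  rw [intervalIntegral.integral_add ((cz.const_mul 2).intervalIntegrable 0 T) ((cd.const_mul 2).intervalIntegrable 0 T),
    intervalIntegral.integral_const_mul, intervalIntegral.integral_const_mul] at s2
  have f4 := Pool.Agent.TH158.FM.fourth_all T hT
  have e4 : ∀ t : ℝ, Pool.Agent.TH158.FM.pt (1 / 2) t = ((1 / 2 : ℝ) : ℂ) + t * I := fun t => rfl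
  simp_rw [e4] at f4
  have g2 := ZM1.ms (P := (N:ℝ) ^ 2) hN1 hD (D21_l1 N) (D21_coeff N) hT0
  linarith

/-- elementary inequality -/
lemma pow_exp {x Δ : ℝ} (hx : 0 ≤ x) (hΔ : 0 < Δ) : x ^ 4 * Real.exp (-(Δ * x / 8)) ≤ 98304 * (1 / Δ) ^ 4 := by
  have h1 := Real.pow_div_factorial_le_exp (Δ * x / 8) (by positivity) 4
  have h2 : ((4:ℕ).factorial : ℝ) = 24 := by norm_num [Nat.factorial]
  rw [h2] at h1
  have h3 : x ^ 4 ≤ 98304 * (1 / Δ) ^ 4 * Real.exp (Δ * x / 8) := by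
    have h4 : (Δ * x / 8) ^ 4 / 24 = x ^ 4 / (98304 * (1 / Δ) ^ 4) := by field_simp; ring
    rw [h4, div_le_iff₀ (by positivity)] at h1
    linarith
  have h5 : Real.exp (Δ * x / 8) * Real.exp (-(Δ * x / 8)) = 1 := by rw [← Real.exp_add]; simp
  calc x ^ 4 * Real.exp (-(Δ * x / 8)) ≤ 98304 * (1 / Δ) ^ 4 * Real.exp (Δ * x / 8) * Real.exp (-(Δ * x / 8)) :=
        mul_le_mul_of_nonneg_right h3 (Real.exp_pos _).le
    _ = _ := by rw [mul_assoc, h5, mul_one]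

/-- **The fourth moment on lines near the critical line** -/
theorem fm_line : ∃ C : ℝ, 0 < C ∧ ∀ᶠ T : ℝ in atTop, ∀ Δ : ℝ, 1 / Real.log T ≤ Δ → Δ ≤ 1 / 16 →
    ∫ t in (T ^ ((4:ℝ) / 5))..(T / 2), ‖riemannZeta (1 / 2 + Δ + t * I)‖ ^ 4 ≤ C * (T * (1 / Δ) ^ 4) := by
  have t0 : ∀ a b : ℝ, 0 < b → ∀ᶠ T : ℝ in atTop, a ≤ T ^ b := fun a b hb =>
    (tendsto_rpow_atTop hb).eventually_ge_atTop a
  refine ⟨2 * (128 * 2 * 7 * 98304) + 2 * 20, by norm_num, ?_⟩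
  filter_upwards [eventually_ge_atTop (Real.exp 100), eventually_ge_atTop ((10:ℝ) ^ 10), t0 2 (1 / 5) (by norm_num),
    t0 4 (1 / 20) (by norm_num), t0 4400000 (1 / 4) (by norm_num)]
    with T hTe hT10 hT5 hT20 hT4 Δ hΔ1 hΔ16
  have hT0 : 0 < T := by linarith
  have hT1 : 1 ≤ T := by linarith
  obtain ⟨L, hL⟩ : ∃ L, L = Real.log T := ⟨_, rfl⟩
  have hL100 : 100 ≤ L := by
    rw [hL, ← Real.log_exp 100]
    exact Real.log_le_log (Real.exp_pos _) hTe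
  have hΔ0 : 0 < Δ := lt_of_lt_of_le (by rw [← hL]; positivity) hΔ1
  obtain ⟨N, hN⟩ : ∃ N : ℕ, N = ⌊T ^ ((1:ℝ) / 16)⌋₊ := ⟨_, rfl⟩
  have h16 : (1:ℝ) ≤ T ^ ((1:ℝ) / 16) := Real.one_le_rpow hT1 (by norm_num)
  have hNle : (N:ℝ) ≤ T ^ ((1:ℝ) / 16) := by rw [hN]; exact Nat.floor_le (by positivity)
  have hN1 : 1 ≤ N := by rw [hN]; exact Nat.floor_pos.2 h16
  have hN1r : (1:ℝ) ≤ N := by exact_mod_cast hN1
  have hNge : T ^ ((1:ℝ) / 16) ≤ 2 * N := by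
    have := Nat.lt_floor_add_one (T ^ ((1:ℝ) / 16))
    rw [← hN] at this
    linarith
  have hb1 : Bd1 1 (1 : P1) := Bd1.one
  have hD : Bd1 N (D2 N 1) := D2_Bd hb1
  have hpr : ∀ a b : ℝ, T ^ a * T ^ b = T ^ (a + b) := fun a b => (Real.rpow_add hT0 a b).symm
  have hle : ∀ x : ℝ, x ≤ 1 → T ^ x ≤ T := fun x hx => by
    calc T ^ x ≤ T ^ (1:ℝ) := Real.rpow_le_rpow_of_exponent_le hT1 hx
      _ = T := Real.rpow_one T
  -- ranges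
  have r1 : T ^ ((4:ℝ) / 5) ≤ T / 2 := by
    have h1 : T ^ ((4:ℝ) / 5) * T ^ ((1:ℝ) / 5) = T := by rw [hpr]; norm_num
    have h2 : T ^ ((4:ℝ) / 5) * 2 ≤ T ^ ((4:ℝ) / 5) * T ^ ((1:ℝ) / 5) := mul_le_mul_of_nonneg_left hT5 (by positivity)
    linarith
  have r2 : T ^ ((3:ℝ) / 4) ≤ T ^ ((4:ℝ) / 5) - T ^ ((1:ℝ) / 4) := by
    have h1 : T ^ ((3:ℝ) / 4) * T ^ ((1:ℝ) / 20) = T ^ ((4:ℝ) / 5) := by rw [hpr]; norm_num
    have h2 : T ^ ((3:ℝ) / 4) * 4 ≤ T ^ ((3:ℝ) / 4) * T ^ ((1:ℝ) / 20) := mul_le_mul_of_nonneg_left hT20 (by positivity)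
    have h3 : T ^ ((1:ℝ) / 4) ≤ T ^ ((3:ℝ) / 4) := Real.rpow_le_rpow_of_exponent_le hT1 (by norm_num)
    linarith [Real.rpow_nonneg hT0.le ((3:ℝ) / 4)]
  have r3 : T / 2 + T ^ ((1:ℝ) / 4) ≤ T := by
    have h3 : T ^ ((1:ℝ) / 4) ≤ T ^ ((4:ℝ) / 5) := Real.rpow_le_rpow_of_exponent_le hT1 (by norm_num)
    linarith
  have hone := hp_one4 (N := N) (δ := Δ) hN1 hb1 hT10 hΔ1 hΔ16 r1 r2 r3
  rw [l1'_one, one_pow, mul_one] at hone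
  have hline := line (T := T) (N := N) (a := T ^ ((3:ℝ) / 4)) (by linarith) hN1 (by positivity) (hle _ (by norm_num))
  have hlogN : Real.log N ≤ L / 16 := by
    have h1 := Real.log_le_log (by linarith) hNle
    rwa [Real.log_rpow hT0, ← hL, one_div, inv_mul_eq_div] at h1
  have hlogN0 : 0 ≤ Real.log N := Real.log_nonneg hN1r
  have hN5 : 2 * (N:ℝ) * ((N:ℝ) ^ 2) ^ 2 ≤ 2 * T := by
    have h1 : (N:ℝ) * ((N:ℝ) ^ 2) ^ 2 ≤ T ^ ((5:ℝ) / 16) := by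
      calc (N:ℝ) * ((N:ℝ) ^ 2) ^ 2 = (N:ℝ) ^ 5 := by ring
        _ ≤ (T ^ ((1:ℝ) / 16)) ^ 5 := pow_le_pow_left₀ (by linarith) hNle 5
        _ = T ^ ((5:ℝ) / 16) := by rw [← Real.rpow_natCast, ← Real.rpow_mul hT0.le]; norm_num
    have := hle ((5:ℝ) / 16) (by norm_num)
    linarith
  have hL4 : 1 ≤ L ^ 4 := one_le_pow₀ (by linarith)
  have hTL : T ≤ T * L ^ 4 := by nlinarith
  have hl4 : T * (1 + Real.log N) ^ 4 ≤ T * L ^ 4 := by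
    refine mul_le_mul_of_nonneg_left ?_ hT0.le
    exact pow_le_pow_left₀ (by linarith) (by linarith) 4
  rw [← hL] at hline
  have hline2 : ∫ t in (T ^ ((3:ℝ) / 4))..T, qd2 (fun s => es s 1) (fun s => es s (D2 N 1)) (1 / 2) t ≤
      6 * (T * L ^ 4) - 1 * (T * L ^ 4) / 5 + 2 * T := by
    linarith
  have hsm : 2200000 * (1 + (N:ℝ) ^ 4) * T ^ (-(1 / 2 : ℝ)) ≤ 1 := by
    have h1 : (N:ℝ) ^ 4 ≤ T ^ ((1:ℝ) / 4) := by
      calc (N:ℝ) ^ 4 ≤ (T ^ ((1:ℝ) / 16)) ^ 4 := pow_le_pow_left₀ (by linarith) hNle 4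
        _ = T ^ ((1:ℝ) / 4) := by rw [← Real.rpow_natCast, ← Real.rpow_mul hT0.le]; norm_num
    have h2 : (1:ℝ) ≤ T ^ ((1:ℝ) / 4) := Real.one_le_rpow hT1 (by norm_num)
    have h3 : T ^ ((1:ℝ) / 4) * T ^ (-(1 / 2 : ℝ)) * T ^ ((1:ℝ) / 4) = 1 := by
      rw [hpr, hpr]; norm_num
    have h4 : 0 ≤ T ^ (-(1 / 2 : ℝ)) := by positivity
    calc 2200000 * (1 + (N:ℝ) ^ 4) * T ^ (-(1 / 2 : ℝ)) ≤
        2200000 * (T ^ ((1:ℝ) / 4) + T ^ ((1:ℝ) / 4)) * T ^ (-(1 / 2 : ℝ)) := by gcongr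
      _ = 4400000 * (T ^ ((1:ℝ) / 4) * T ^ (-(1 / 2 : ℝ))) := by ring
      _ ≤ T ^ ((1:ℝ) / 4) * (T ^ ((1:ℝ) / 4) * T ^ (-(1 / 2 : ℝ))) :=
          mul_le_mul_of_nonneg_right hT4 (by positivity)
      _ = T ^ ((1:ℝ) / 4) * T ^ (-(1 / 2 : ℝ)) * T ^ ((1:ℝ) / 4) := by ring
      _ = 1 := h3
  have hNΔ : (N:ℝ) ^ (-(2 * Δ)) ≤ 2 * Real.exp (-(Δ * L / 8)) := by
    have h1 : (N:ℝ) ^ (-(2 * Δ)) ≤ (T ^ ((1:ℝ) / 16) / 2) ^ (-(2 * Δ)) :=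
      Real.rpow_le_rpow_of_nonpos (by positivity) (by linarith) (by linarith)
    have h2 : (T ^ ((1:ℝ) / 16) / 2) ^ (-(2 * Δ)) = Real.exp (-(Δ * L / 8)) * 2 ^ (2 * Δ) := by
      rw [Real.div_rpow (by positivity) (by norm_num), ← Real.rpow_mul hT0.le, Real.rpow_def_of_pos hT0, ← hL,
        Real.rpow_neg (by norm_num), div_inv_eq_mul]
      congr 2
      ring
    have h3 : (2:ℝ) ^ (2 * Δ) ≤ 2 := by
      calc (2:ℝ) ^ (2 * Δ) ≤ 2 ^ (1:ℝ) := Real.rpow_le_rpow_of_exponent_le (by norm_num) (by linarith)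
        _ = 2 := Real.rpow_one 2
    rw [h2] at h1
    have := mul_le_mul_of_nonneg_left h3 (Real.exp_pos (-(Δ * L / 8))).le
    linarith
  have hI1 : ∫ t in (T ^ ((4:ℝ) / 5))..(T / 2), qd2 (fun s => es s 1) (fun s => es s (D2 N 1)) (1 / 2 + Δ) t ≤
      128 * 2 * 7 * 98304 * (T * (1 / Δ) ^ 4) := by
    have hi0 : 0 ≤ ∫ t in (T ^ ((3:ℝ) / 4))..T, qd2 (fun s => es s 1) (fun s => es s (D2 N 1)) (1 / 2) t :=
      intervalIntegral.integral_nonneg (hle _ (by norm_num)) fun x _ => qd2_nonneg _ _ _ _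
    have h1 : (∫ t in (T ^ ((3:ℝ) / 4))..T, qd2 (fun s => es s 1) (fun s => es s (D2 N 1)) (1 / 2) t) +
        2200000 * (1 + (N:ℝ) ^ 4) * T ^ (-(1 / 2 : ℝ)) ≤ 7 * (T * L ^ 4) := by
      have h2 : T * 100 ≤ T * L ^ 4 := by
        refine mul_le_mul_of_nonneg_left ?_ hT0.le
        have : (100:ℝ) ^ 4 ≤ L ^ 4 := pow_le_pow_left₀ (by norm_num) hL100 4
        linarith
      linarith
    have h2 := pow_exp (x := L) (by linarith) hΔ0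
    calc _ ≤ _ := hone
      _ ≤ 128 * (2 * Real.exp (-(Δ * L / 8))) * (7 * (T * L ^ 4)) := by
          refine mul_le_mul (mul_le_mul_of_nonneg_left hNΔ (by norm_num)) h1 ?_ (by positivity)
          positivity
      _ = 128 * 2 * 7 * T * (L ^ 4 * Real.exp (-(Δ * L / 8))) := by ring
      _ ≤ 128 * 2 * 7 * T * (98304 * (1 / Δ) ^ 4) := mul_le_mul_of_nonneg_left h2 (by positivity)
      _ = _ := by ring
  have hI2 : ∫ t in (T ^ ((4:ℝ) / 5))..(T / 2), ‖es (1 / 2 + Δ + t * Complex.I) (D2 N 1)‖ ^ 2 ≤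
      20 * (T * (1 / Δ) ^ 4) := by
    have h1 := mvt_up (X1 := T ^ ((4:ℝ) / 5)) (X2 := T / 2) hΔ0.le (by positivity) hD
    have h2 := ip_line hΔ0 hD (D21_coeff N)
    have hi : 1 ≤ 1 / Δ := by rw [one_le_div hΔ0]; linarith
    have h3 : (1 + 1 / (2 * Δ)) ^ 4 ≤ 16 * (1 / Δ) ^ 4 := by
      have h4 : 1 + 1 / (2 * Δ) ≤ 2 * (1 / Δ) := by
        have : 1 / (2 * Δ) = (1 / Δ) / 2 := by field_simp
        rw [this]; linarith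
      calc (1 + 1 / (2 * Δ)) ^ 4 ≤ (2 * (1 / Δ)) ^ 4 := pow_le_pow_left₀ (by positivity) h4 4
        _ = _ := by ring
    have h4 : 4 * (N:ℝ) * l1' (D2 N 1) ^ 2 ≤ 4 * T := by
      have h5 : l1' (D2 N 1) ^ 2 ≤ ((N:ℝ) ^ 2) ^ 2 := pow_le_pow_left₀ (l1'_nonneg _) (D21_l1 N) 2
      have h6 := mul_le_mul_of_nonneg_left h5 (by positivity : 0 ≤ 4 * (N:ℝ))
      linarith
    have h5 : T ≤ T * (1 / Δ) ^ 4 := by
      have := one_le_pow₀ hi (n := 4)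
      nlinarith
    have h6 : T / 2 * ip Δ (D2 N 1) (D2 N 1) ≤ T / 2 * (16 * (1 / Δ) ^ 4) :=
      mul_le_mul_of_nonneg_left (h2.trans h3) (by positivity)
    linarith
  have ez : ∀ t : ℝ, (((1 / 2 + Δ : ℝ) : ℂ) + t * I) = 1 / 2 + Δ + t * I := by
    intro t; push_cast; ring
  have cz : Continuous fun t : ℝ => ‖riemannZeta (1 / 2 + Δ + t * I)‖ ^ 4 := by
    have h1 : Continuous fun t : ℝ => ‖riemannZeta (((1 / 2 + Δ : ℝ) : ℂ) + t * I)‖ ^ 4 :=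
      ((zeta_cont (σ := 1 / 2 + Δ) (by linarith)).norm).pow 4
    simpa only [ez] using h1
  have cq : Continuous (qd2 (fun s => es s 1) (fun s => es s (D2 N 1)) (1 / 2 + Δ)) :=
    qd2_cont (es_diff hb1) (es_diff hD) (by linarith)
  have cd : Continuous fun t : ℝ => ‖es (1 / 2 + Δ + t * Complex.I) (D2 N 1)‖ ^ 2 := es_cont0 Δ hD
  calc ∫ t in (T ^ ((4:ℝ) / 5))..(T / 2), ‖riemannZeta (1 / 2 + Δ + t * I)‖ ^ 4
      ≤ ∫ t in (T ^ ((4:ℝ) / 5))..(T / 2), (2 * qd2 (fun s => es s 1) (fun s => es s (D2 N 1)) (1 / 2 + Δ) t +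
        2 * ‖es (1 / 2 + Δ + t * Complex.I) (D2 N 1)‖ ^ 2) := by
        refine intervalIntegral.integral_mono_on r1 (cz.intervalIntegrable _ _)
          (((cq.const_mul 2).add (cd.const_mul 2)).intervalIntegrable _ _) fun t _ => ?_
        show _ ≤ 2 * ‖riemannZeta (((1 / 2 + Δ : ℝ) : ℂ) + t * I) ^ 2 * es (((1 / 2 + Δ : ℝ) : ℂ) + t * I) 1 -
          es (((1 / 2 + Δ : ℝ) : ℂ) + t * I) (D2 N 1)‖ ^ 2 + _
        rw [map_one, mul_one, ez]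
        exact ptw3 _ _
    _ = 2 * (∫ t in (T ^ ((4:ℝ) / 5))..(T / 2), qd2 (fun s => es s 1) (fun s => es s (D2 N 1)) (1 / 2 + Δ) t) +
        2 * ∫ t in (T ^ ((4:ℝ) / 5))..(T / 2), ‖es (1 / 2 + Δ + t * Complex.I) (D2 N 1)‖ ^ 2 := by
        rw [intervalIntegral.integral_add ((cq.const_mul 2).intervalIntegrable _ _)
          ((cd.const_mul 2).intervalIntegrable _ _), intervalIntegral.integral_const_mul,
          intervalIntegral.integral_const_mul]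
    _ ≤ _ := by linarith

end Pool.Agent.H6Z.Fl
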