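import Pool.Agent.H6Z.Fz
import Pool.Agent.H6Z.Core3

set_option autoImplicit false

/-! Moments near the critical line without truncation, total order below four. -/

namespace Pool.Agent.H6Z

open Finset Filter MeasureTheory Topology Complex
open Pool.Agent.N748.MG Pool.Agent.N748.MJ
open Pool.Agent.N748.MJ.SM (cc Lr G)

lemma mz_zf (δ t : ℝ) : mz δ t = Fz.zf δ t := rfl

lemma pow_thr {x l b : ℝ} (hx : 0 ≤ x) (hl : 0 < l) (hb0 : 0 ≤ b) (hb : b ≤ 2) :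
    (x ^ 2) ^ b ≤ l ^ b + l ^ (-(2 - b)) * x ^ 4 := by
  have hx2 : 0 ≤ x ^ 2 := sq_nonneg x
  rcases le_total (x ^ 2) l with h | h
  · have h1 := Real.rpow_le_rpow hx2 h hb0
    have h2 : 0 ≤ l ^ (-(2 - b)) * x ^ 4 := by positivity
    linarith
  · have hx0 : 0 < x ^ 2 := hl.trans_le h
    have h1 : (x ^ 2) ^ b = (x ^ 2) ^ (-(2 - b)) * x ^ 4 := by
      have e : x ^ 4 = (x ^ 2) ^ (2:ℝ) := by
        rw [show (2:ℝ) = ((2:ℕ):ℝ) by norm_num, Real.rpow_natCast]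
        ring
      rw [e, ← Real.rpow_add hx0]
      congr 1
      ring
    have h2 : (x ^ 2) ^ (-(2 - b)) ≤ l ^ (-(2 - b)) := Real.rpow_le_rpow_of_nonpos hl h (by linarith)
    have h3 : 0 ≤ l ^ b := by positivity
    rw [h1]
    have := mul_le_mul_of_nonneg_right h2 (show 0 ≤ x ^ 4 by positivity)
    linarith

/-- the part outside a small set -/
lemma out_le {m : ℕ} {b δ X l C4 : ℝ} {k h : Fin m → ℝ} {A : Set ℝ} (hA : MeasurableSet A) (hAs : A ⊆ Set.Icc 0 X)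
    (hX : 0 < X) (hl : 0 < l) (hb0 : 0 ≤ b) (hb : b ≤ 2) (hδ16 : δ ≤ 1 / 16)
    (hk : ∀ j, 0 ≤ k j) (hkb : ∑ j, k j ≤ b) (h4 : ∀ j, ∫ t in (0:ℝ)..X, Fz.zf δ (t + h j) ^ 4 ≤ C4) :
    ∫ t in A, G k h δ t ≤ (volume A).toReal * (1 + m * l ^ b) + l ^ (-(2 - b)) * (m * C4) := by
  have hfin : volume A < ⊤ := lt_of_le_of_lt (measure_mono hAs) (by simp)
  have hδ2 : δ < 1 / 2 := by linarith
  have hcj : ∀ j : Fin m, Continuous fun t => Fz.zf δ (t + h j) ^ 4 := fun j =>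
    (Fz.zf4_cont hδ2).comp (by fun_prop)
  have hij : ∀ j : Fin m, IntegrableOn (fun t => Fz.zf δ (t + h j) ^ 4) A := fun j =>
    ((hcj j).integrableOn_Icc (a := 0) (b := X)).mono_set hAs
  have hG : IntegrableOn (fun t => G k h δ t) A :=
    ((SM.G_cont (h := h) hδ16 hk).integrableOn_Icc (a := 0) (b := X)).mono_set hAs
  have hl0 : 0 ≤ l ^ (-(2 - b)) := by positivity
  have hR : IntegrableOn (fun t => (1 + m * l ^ b) + l ^ (-(2 - b)) * ∑ j : Fin m, Fz.zf δ (t + h j) ^ 4) A :=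
    (integrableOn_const hfin.ne).add ((integrable_finsetSum _ fun j _ => hij j).const_mul _)
  have h1 : ∫ t in A, G k h δ t ≤ ∫ t in A, ((1 + m * l ^ b) + l ^ (-(2 - b)) * ∑ j : Fin m, Fz.zf δ (t + h j) ^ 4) := by
    refine setIntegral_mono_on hG hR hA fun t _ => ?_
    have h2 := prod_le (fun j => mz δ (t + h j)) (fun j => norm_nonneg _) k hk hkb
    have h3 : ∑ j : Fin m, (mz δ (t + h j) ^ 2) ^ b ≤ ∑ j : Fin m, (l ^ b + l ^ (-(2 - b)) * Fz.zf δ (t + h j) ^ 4) :=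
      Finset.sum_le_sum fun j _ => pow_thr (norm_nonneg _) hl hb0 hb
    rw [Finset.sum_add_distrib, ← Finset.mul_sum] at h3
    simp only [Finset.sum_const, Finset.card_univ, Fintype.card_fin, nsmul_eq_mul] at h3
    show G k h δ t ≤ _
    unfold G
    linarith
  refine h1.trans (le_of_eq_of_le (integral_add (integrableOn_const hfin.ne)
    ((integrable_finsetSum _ fun j _ => hij j).const_mul _)) ?_)
  rw [integral_const_mul, integral_finsetSum _ fun j _ => hij j]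
  have e1 : ∫ _t in A, (1 + m * l ^ b) = (volume A).toReal * (1 + m * l ^ b) := by
    rw [setIntegral_const, smul_eq_mul]
    rfl
  rw [e1]
  have h5 : ∀ j : Fin m, ∫ t in A, Fz.zf δ (t + h j) ^ 4 ≤ C4 := by
    intro j
    refine le_trans ?_ (h4 j)
    rw [intervalIntegral.integral_of_le hX.le, ← integral_Icc_eq_integral_Ioc]
    refine setIntegral_mono_set ((hcj j).integrableOn_Icc) (Eventually.of_forall fun t => ?_) (Eventually.of_forall hAs)
    have := Fz.zf_nonneg δ (t + h j)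
    show 0 ≤ Fz.zf δ (t + h j) ^ 4
    positivity
  have h6 : ∑ j : Fin m, ∫ t in A, Fz.zf δ (t + h j) ^ 4 ≤ m * C4 := by
    calc ∑ j : Fin m, ∫ t in A, Fz.zf δ (t + h j) ^ 4 ≤ ∑ _j : Fin m, C4 := Finset.sum_le_sum fun j _ => h5 j
      _ = m * C4 := by simp
  have := mul_le_mul_of_nonneg_left h6 hl0
  linarith

theorem lowi (ε : ℝ) (hε : 0 < ε) (m : ℕ) (b : ℝ) (hb0 : 0 ≤ b) (hb : b < 2) : ∃ c0 : ℝ, 0 < c0 ∧ Ev fun X δ =>
    ∀ h : Fin m → ℝ, (∀ j, |h j| ≤ X ^ ((1:ℝ) / 2)) → ∀ k : Fin m → ℝ, (∀ j, 0 ≤ k j) → ∑ j, k j ≤ b →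
      c0 ≤ ar k h ∧ |(∫ t in (0:ℝ)..X, G k h δ t) - X * (ar k h * Real.exp (Lr k h δ))| ≤
        ε * (X * (ar k h * Real.exp (Lr k h δ))) := by
  obtain ⟨c0, C0, hc0, hC0, hpos⟩ := posF m 2 (by norm_num)
  obtain ⟨E, hE⟩ : ∃ E : ℝ, E = (m * 2) ^ 2 := ⟨_, rfl⟩
  have hE0 : 0 ≤ E := by rw [hE]; positivity
  obtain ⟨W, hW⟩ : ∃ W : ℝ, W = (E + 6) / (2 - b) := ⟨_, rfl⟩
  have h2b : 0 < 2 - b := by linarith
  have hW0 : 0 < W := by rw [hW]; positivity
  have hWb : W * (2 - b) = E + 6 := by rw [hW]; field_simp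
  obtain ⟨D, hD⟩ : ∃ D : ℝ, D = W * b + E + 1 := ⟨_, rfl⟩
  have hD0 : 0 < D := by rw [hD]; positivity
  obtain ⟨C4, hC4, h4⟩ := Fz.shifted
  obtain ⟨ε', hε'⟩ : ∃ ε' : ℝ, ε' = c0 * (ε / 2) := ⟨_, rfl⟩
  have hε'0 : 0 < ε' := by rw [hε']; positivity
  have hJ := jmF m 2 D (by norm_num) hD0 ε' hε'0
  refine ⟨c0, hc0, ?_⟩
  have hev := ((((hJ.and (Ev.of_ev h4)).and (Ev.lam (2 ^ 17))).and
    (Ev.small (C := 1 + m + m * C4) (c := 1) (e := c0 * (ε / 2)) (by norm_num) (by positivity)))).and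
    (Ev.of_ev (eventually_ge_atTop (16:ℝ)))
  refine hev.mono ?_
  rintro X δ hX1 hδ hδ16 ⟨⟨⟨⟨hJX, h4X⟩, hlam⟩, hsm⟩, hX16⟩ h hh k hk hkb
  have hX0 : 0 < X := by linarith
  have hlX : 0 < Real.log X := Real.log_pos (by linarith)
  have hδ1 : δ ≤ 1 := by linarith
  have hk2 : ∀ j, |k j| ≤ 2 := by
    intro j
    rw [abs_of_nonneg (hk j)]
    have := Finset.single_le_sum (fun j _ => hk j) (Finset.mem_univ j)
    linarith
  have hlog := log_inv_ge hδ hδ16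
  have hrange : 2 ^ 17 / Real.log X ≤ δ := by
    rw [div_le_iff₀ hlX]
    nlinarith
  obtain ⟨a, ha, haV⟩ := (hpos h).2 k hk2
  have haV' : aV (cc k) (cc k) h = (a : ℂ) := haV
  have har : ar k h = a := by unfold ar; rw [haV', Complex.ofReal_re]
  have ha0 : 0 < a := hc0.trans_le ha
  rw [har]
  refine ⟨ha, ?_⟩
  obtain ⟨N, hN, hNs, hNv, -, hNj⟩ := hJX h hh
  have h1 := SM.real_form hX0 ha0.le haV' (hNj (cc k) (fun _ => 0)
    (fun j => by unfold cc; rw [Complex.norm_real, Real.norm_eq_abs]; exact hk2 j) (fun j => by simp))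
  obtain ⟨el, hel⟩ : ∃ el, el = Real.exp (Lr k h δ) := ⟨_, rfl⟩
  have hel0 : 0 < el := by rw [hel]; exact Real.exp_pos _
  rw [Real.exp_neg, ← hel] at h1
  rw [← hel]
  have hel_lo : δ ^ E ≤ el := by
    have h8 := (abs_le.1 (Lr_abs hδ hδ16 (by norm_num) k h hk2)).1
    rw [hel, Real.rpow_def_of_pos hδ]
    refine Real.exp_le_exp.2 ?_
    have hlog : Real.log δ = -Real.log (1 / δ) := by rw [one_div, Real.log_inv, neg_neg]
    rw [hlog, hE]
    linarith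
  have hδE : 0 < δ ^ E := Real.rpow_pos_of_pos hδ _
  -- the good set
  have h2 : |(∫ t in N, G k h δ t) - X * (a * el)| ≤ ε / 2 * (X * (a * el)) := by
    have e1 : (∫ t in N, G k h δ t) - X * (a * el) = el * (el⁻¹ * (∫ t in N, G k h δ t) - X * a) := by field_simp
    rw [e1, abs_mul, abs_of_pos hel0]
    calc el * |el⁻¹ * (∫ t in N, G k h δ t) - X * a| ≤ el * (ε' * X) := mul_le_mul_of_nonneg_left h1 hel0.le
      _ = c0 * (ε / 2 * (X * el)) := by rw [hε']; ring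
      _ ≤ a * (ε / 2 * (X * el)) := mul_le_mul_of_nonneg_right ha (by positivity)
      _ = ε / 2 * (X * (a * el)) := by ring
  -- the exceptional set
  have hGc := SM.G_cont (h := h) hδ16 hk
  have hGi : IntegrableOn (fun t => G k h δ t) (Set.Icc 0 X) := hGc.integrableOn_Icc
  have hsplit : ∫ t in (0:ℝ)..X, G k h δ t = (∫ t in N, G k h δ t) + ∫ t in Set.Icc 0 X \ N, G k h δ t := by
    rw [intervalIntegral.integral_of_le hX0.le, ← integral_Icc_eq_integral_Ioc,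
      ← setIntegral_union Set.disjoint_sdiff_right (measurableSet_Icc.diff hN) (hGi.mono_set hNs)
        (hGi.mono_set Set.diff_subset), Set.union_diff_cancel hNs]
  have hAv : (volume (Set.Icc 0 X \ N)).toReal ≤ δ ^ D * X := by
    refine ENNReal.toReal_le_of_le_ofReal ?_ hNv
    have := Real.rpow_pos_of_pos hδ D
    positivity
  have h3 := out_le (m := m) (b := b) (δ := δ) (X := X) (l := δ ^ (-W)) (C4 := C4 * (X * (1 / δ) ^ 4)) (k := k) (h := h)
    (A := Set.Icc 0 X \ N) (measurableSet_Icc.diff hN) Set.diff_subset hX0 (Real.rpow_pos_of_pos hδ _) hb0 hb.le hδ16 hk hkb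
    (fun j => h4X δ (h j) hrange hδ16 (hh j))
  have h0 : 0 ≤ ∫ t in Set.Icc 0 X \ N, G k h δ t := integral_nonneg fun t => SM.G_nn k h δ t
  have hpw : ∀ x y : ℝ, δ ^ x * δ ^ y = δ ^ (x + y) := fun x y => (Real.rpow_add hδ x y).symm
  have e2 : (δ ^ (-W)) ^ b = δ ^ (-(W * b)) := by rw [← Real.rpow_mul hδ.le]; congr 1; ring
  have e3 : (δ ^ (-W)) ^ (-(2 - b)) = δ ^ (E + 6) := by rw [← Real.rpow_mul hδ.le, ← hWb]; congr 1; ring
  have e4 : (1 / δ) ^ 4 = δ ^ (-(4:ℝ)) := by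
    rw [Real.rpow_neg hδ.le, one_div, inv_pow]
    norm_num
  rw [e2, e3, e4] at h3
  have hmle : ∀ x y : ℝ, y ≤ x → δ ^ x ≤ δ ^ y := fun x y hxy => Real.rpow_le_rpow_of_exponent_ge hδ hδ1 hxy
  have h5 : (volume (Set.Icc 0 X \ N)).toReal * (1 + m * δ ^ (-(W * b))) ≤ (1 + m) * (δ ^ (1:ℝ) * δ ^ E) * X := by
    have h6 : 1 + m * δ ^ (-(W * b)) ≤ (1 + m) * δ ^ (-(W * b)) := by
      have h7 : 1 ≤ δ ^ (-(W * b)) := by
        have := hmle 0 (-(W * b)) (by have : 0 ≤ W * b := by positivity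
                                      linarith)
        rwa [Real.rpow_zero] at this
      linarith
    calc (volume (Set.Icc 0 X \ N)).toReal * (1 + m * δ ^ (-(W * b))) ≤ (δ ^ D * X) * ((1 + m) * δ ^ (-(W * b))) := by
          have : 0 ≤ δ ^ D * X := by positivity
          exact mul_le_mul hAv h6 (by positivity) this
      _ = (1 + m) * (δ ^ D * δ ^ (-(W * b))) * X := by ring
      _ = (1 + m) * (δ ^ (1:ℝ) * δ ^ E) * X := by
          rw [hpw, hpw, hD]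
          congr 3
          ring
  have h7 : δ ^ (E + 6) * (m * (C4 * (X * δ ^ (-(4:ℝ))))) ≤ m * C4 * (δ ^ (1:ℝ) * δ ^ E) * X := by
    calc δ ^ (E + 6) * (m * (C4 * (X * δ ^ (-(4:ℝ))))) = m * C4 * (δ ^ (E + 6) * δ ^ (-(4:ℝ))) * X := by ring
      _ ≤ m * C4 * (δ ^ (1:ℝ) * δ ^ E) * X := by
          rw [hpw, hpw]
          have := hmle (E + 6 + -4) (1 + E) (by linarith)
          gcongr
  have h8 : ∫ t in Set.Icc 0 X \ N, G k h δ t ≤ ε / 2 * (X * (a * el)) := by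
    have h9 : ((1 + m) + m * C4) * (δ ^ (1:ℝ) * δ ^ E) * X ≤ c0 * (ε / 2) * δ ^ E * X := by
      have h10 : (1 + m + m * C4) * δ ^ (1:ℝ) * (δ ^ E * X) ≤ c0 * (ε / 2) * (δ ^ E * X) :=
        mul_le_mul_of_nonneg_right hsm (by positivity)
      linarith
    have h11 : c0 * (ε / 2) * δ ^ E * X ≤ a * (ε / 2) * el * X := by gcongr
    have h12 : a * (ε / 2) * el * X = ε / 2 * (X * (a * el)) := by ring
    linarith
  rw [hsplit]
  have h13 := abs_le.1 h2
  rw [abs_le]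
  constructor <;> linarith [h13.1, h13.2]

end Pool.Agent.H6Z
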