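import Pool.Agent.N748.MJ.Fin
import Pool.Agent.Q84.UM.DPM
import Pool.Agent.H6Z.Cnt
import Pool.Agent.H6Z.Win

set_option autoImplicit false

/-! The truncated products as Dirichlet polynomials on the critical line. -/

namespace Pool.Agent.H6Z

open Finset Filter MeasureTheory Topology Complex
open Pool.Agent.N748.MG Pool.Agent.N748.MJ
open Pool.Agent.N748.MJ.SM (cc Lr G)
open Pool.Agent.Q97.UM (dp N2 cv)

/-- the coefficients of the truncated product, on the critical line -/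
noncomputable def bV {m : ℕ} (s : Fin m → ℂ) (h : Fin m → ℝ) (y : ℝ) (K : ℕ) (δ : ℝ) (n : ℕ) : ℂ :=
  open Classical in if n ∈ FS y K then dV s h n * (n:ℂ) ^ (-(δ:ℂ)) else 0

/-- the length -/
noncomputable def Nb (y : ℝ) (K : ℕ) : ℕ := ⌊y⌋₊ ^ K

lemma FS_mem {y : ℝ} {K n : ℕ} (h : n ∈ FS y K) : n ∈ Finset.Icc 1 (Nb y K) := by
  unfold FS at h
  rw [Finset.mem_filter, Finset.mem_range] at h
  rw [Finset.mem_Icc]
  unfold Nb
  exact ⟨Nat.one_le_iff_ne_zero.2 h.2.1, by omega⟩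

lemma bV_zero {m : ℕ} (s : Fin m → ℂ) (h : Fin m → ℝ) (y : ℝ) (K : ℕ) (δ : ℝ) (n : ℕ) (hn : Nb y K < n) :
    bV s h y K δ n = 0 := by
  unfold bV
  rw [if_neg]
  intro h1
  have := (Finset.mem_Icc.1 (FS_mem h1)).2
  omega

lemma dp_bV {m : ℕ} (s : Fin m → ℂ) (h : Fin m → ℝ) (y : ℝ) (K : ℕ) (δ t : ℝ) :
    dp (Nb y K) (bV s h y K δ) t = AV s h y K (pw δ t) := by
  classical
  unfold dp AV
  have h1 : FS y K ⊆ Finset.Icc 1 (Nb y K) := fun n hn => FS_mem hn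
  rw [← Finset.sum_subset h1 (f := fun n => bV s h y K δ n * (n : ℂ) ^ (-(1 / 2 + t * I)))]
  · refine Finset.sum_congr rfl fun n hn => ?_
    have hn0 : (n:ℂ) ≠ 0 := by
      have := (Finset.mem_Icc.1 (FS_mem hn)).1
      exact_mod_cast (by omega : n ≠ 0)
    unfold bV pw
    rw [if_pos hn, mul_assoc, ← Complex.cpow_add _ _ hn0]
    congr 2
    ring
  · intro n _ hn
    unfold bV
    rw [if_neg hn, zero_mul]

lemma cj_cc {m : ℕ} (k : Fin m → ℝ) : cj (cc k) = cc k := by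
  funext j
  simp [cj, cc]

/-- the mean square -/
lemma N2_bV {m : ℕ} (k : Fin m → ℝ) (h : Fin m → ℝ) (y : ℝ) (K : ℕ) (δ : ℝ) :
    ((N2 (Nb y K) (bV (cc k) h y K δ) : ℝ) : ℂ) =
      ∑ n ∈ FS y K, dV (cc k) h n * (starRingEnd ℂ) (dV (cj (cc k)) h n) * (((n:ℝ) ^ (-(1 + 2 * δ)) : ℝ) : ℂ) := by
  classical
  have h1 : FS y K ⊆ Finset.Icc 1 (Nb y K) := fun n hn => FS_mem hn
  unfold N2
  rw [← Finset.sum_subset h1 (f := fun n => ‖bV (cc k) h y K δ n‖ ^ 2 / (n:ℝ))]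
  · rw [Complex.ofReal_sum]
    refine Finset.sum_congr rfl fun n hn => ?_
    have hn1 : (1:ℝ) ≤ n := by
      have := (Finset.mem_Icc.1 (FS_mem hn)).1
      exact_mod_cast this
    have hn0 : (0:ℝ) < n := by linarith
    unfold bV
    rw [if_pos hn, cj_cc, Complex.mul_conj, ← Complex.ofReal_mul]
    congr 1
    rw [norm_mul, mul_pow, ← Complex.normSq_eq_norm_sq]
    have e1 : ‖(n:ℂ) ^ (-(δ:ℂ))‖ = (n:ℝ) ^ (-δ) := by
      have := Complex.norm_cpow_eq_rpow_re_of_pos hn0 (-(δ:ℂ))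
      simpa using this
    have e2 : ((n:ℝ) ^ (-δ)) ^ 2 / (n:ℝ) = (n:ℝ) ^ (-(1 + 2 * δ)) := by
      rw [← Real.rpow_natCast, ← Real.rpow_mul hn0.le, div_eq_mul_inv, ← Real.rpow_neg_one,
        ← Real.rpow_add hn0]
      congr 1
      push_cast
      ring
    rw [e1, mul_div_assoc, e2]
  · intro n _ hn
    unfold bV
    rw [if_neg hn]
    simp

lemma N2_nonneg (N : ℕ) (b : ℕ → ℂ) : 0 ≤ N2 N b := by
  unfold N2
  positivity

/-- the square of a Dirichlet polynomial -/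
lemma dp_sq {N : ℕ} {b : ℕ → ℂ} (hb : ∀ n, N < n → b n = 0) (t : ℝ) :
    dp (N * N) (cv b b) t = dp N b t ^ 2 := by
  rw [sq, Pool.Agent.Q84.UM.t_DPM.1 N N b b t hb hb]

/-- the main term -/
theorem main_term (m : ℕ) (R : ℝ) (hR : 0 ≤ R) (ε : ℝ) (hε : 0 < ε) :
    ∃ C δ0 : ℝ, 0 < C ∧ 0 < δ0 ∧ ∀ δ : ℝ, 0 < δ → δ ≤ δ0 →
      ∀ (y : ℝ) (K : ℕ), 2 ≤ y → C * Real.log (1 / δ) ≤ δ * Real.log y → C * Real.log (1 / δ) ≤ K →
      ∀ (k h : Fin m → ℝ), (∀ j, |k j| ≤ R) →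
      |Real.exp (-(Lr k h δ)) * N2 (Nb y K) (bV (cc k) h y K δ) - (aV (cc k) (cc k) h).re| ≤ ε := by
  obtain ⟨E, hE⟩ : ∃ E : ℝ, E = (m * R) ^ 2 := ⟨_, rfl⟩
  have hE0 : 0 ≤ E := by rw [hE]; positivity
  obtain ⟨C1, δ1, hC1, hδ1, H1⟩ := DIA1V.main bndF DIA1.main m R (E + 1) hR (by positivity)
  obtain ⟨δ2, hδ2, H2⟩ := DIA2V.main bndF gvbF LZB.main m R hR (ε / 2) (by positivity)
  obtain ⟨c, C, hc, hC, hpos⟩ := posF m R hR
  refine ⟨C1, min (min δ1 δ2) (min (1 / 16) (ε / 2)), hC1, by positivity, ?_⟩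
  intro δ hδ hδ0 y K hy h1 h2 k h hk
  have hd1 : δ ≤ δ1 := hδ0.trans ((min_le_left _ _).trans (min_le_left _ _))
  have hd2 : δ ≤ δ2 := hδ0.trans ((min_le_left _ _).trans (min_le_right _ _))
  have hd16 : δ ≤ 1 / 16 := hδ0.trans ((min_le_right _ _).trans (min_le_left _ _))
  have hdε : δ ≤ ε / 2 := hδ0.trans ((min_le_right _ _).trans (min_le_right _ _))
  have hs : ∀ j, ‖cc k j‖ ≤ R := fun j => by
    unfold cc
    rw [Complex.norm_real, Real.norm_eq_abs]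
    exact hk j
  have a1 := H1 δ hδ hd1 y K hy h1 h2 (cc k) (cc k) h hs hs
  have a2 := H2 δ hδ hd2 (cc k) (cc k) h hs hs
  have a3 := JM.LM_norm hδ hd16 hR LZB.main (cc k) (cc k) h hs hs
  rw [← hE] at a3
  rw [← N2_bV] at a1
  obtain ⟨a, ha, haV⟩ := (hpos h).2 k hk
  have haV' : aV (cc k) (cc k) h = (a : ℂ) := haV
  rw [haV', Complex.ofReal_re]
  rw [haV'] at a2
  obtain ⟨u, hu⟩ : ∃ u : ℂ, u = Complex.exp (-(LM (cc k) (cc k) h δ)) := ⟨_, rfl⟩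
  obtain ⟨S1, hS1⟩ : ∃ S1 : ℝ, S1 = N2 (Nb y K) (bV (cc k) h y K δ) := ⟨_, rfl⟩
  obtain ⟨S2, hS2⟩ : ∃ S2 : ℂ, S2 = ∑' n : ℕ, dV (cc k) h n * (starRingEnd ℂ) (dV (cj (cc k)) h n) *
    (((n:ℝ) ^ (-(1 + 2 * δ)) : ℝ) : ℂ) := ⟨_, rfl⟩
  rw [← hS1, ← hS2] at a1
  rw [← hu, ← hS2] at a2
  rw [← hu] at a3
  rw [← hS1]
  have b1 : ‖u * (S1 - S2)‖ ≤ ε / 2 := by
    rw [norm_mul]
    calc ‖u‖ * ‖(S1 : ℂ) - S2‖ ≤ δ ^ (-E) * δ ^ (E + 1) :=
          mul_le_mul a3 a1 (norm_nonneg _) (Real.rpow_pos_of_pos hδ _).le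
      _ = δ := by
          rw [← Real.rpow_add hδ, show -E + (E + 1) = 1 by ring, Real.rpow_one]
      _ ≤ ε / 2 := hdε
  have b2 : ‖u * S1 - a‖ ≤ ε := by
    have e : u * S1 - a = u * (S1 - S2) + (u * S2 - a) := by ring
    rw [e]
    refine (norm_add_le _ _).trans ?_
    linarith
  have b3 := abs_norm_sub_norm_le (u * (S1:ℂ)) (a:ℂ)
  have hS10 : 0 ≤ S1 := by rw [hS1]; exact N2_nonneg _ _
  have ha0 : 0 ≤ a := hc.le.trans ha
  rw [norm_mul, Complex.norm_real, Complex.norm_real, Real.norm_of_nonneg hS10, Real.norm_of_nonneg ha0, hu,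
    Complex.norm_exp, Complex.neg_re, SM.LM_re] at b3
  rw [← hu] at b3
  exact b3.trans b2

end Pool.Agent.H6Z
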