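import Pool.Agent.H6Z.Dj2

set_option autoImplicit false

/-! The typical sizes in the moment measures. -/

namespace Pool.Agent.H6Z

open Finset Filter MeasureTheory Topology Complex
open Pool.Agent.N748.MG Pool.Agent.N748.MJ
open Pool.Agent.N748.MJ.SM (cc Lr G kp)
open Pool.Agent.Q97.UM (dp N2 cv)

/-- `log |ζ(1 + 2δ + iu)|` -/
noncomputable def lz (δ u : ℝ) : ℝ := Real.log ‖riemannZeta (((1 + 2 * δ : ℝ) : ℂ) + u * I)‖

lemma LZ_re {δ : ℝ} (hδ : 0 < δ) (h16 : δ ≤ 1 / 16) (u : ℝ) : (LZ (1 + 2 * δ) u).re = lz δ u := by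
  unfold lz
  rw [← (LZB.main δ hδ h16 u).2, Complex.norm_exp, Real.log_exp]

lemma lz_neg (δ u : ℝ) : lz δ (-u) = lz δ u := by
  unfold lz
  have h1 : (((1 + 2 * δ : ℝ) : ℂ) + ((-u : ℝ) : ℂ) * I) =
      (starRingEnd ℂ) (((1 + 2 * δ : ℝ) : ℂ) + (u : ℂ) * I) := by
    rw [map_add, map_mul, Complex.conj_ofReal, Complex.conj_ofReal, Complex.conj_I]
    push_cast
    ring
  rw [h1, riemannZeta_conj, RCLike.norm_conj]

lemma lz_abs {δ : ℝ} (hδ : 0 < δ) (h16 : δ ≤ 1 / 16) (u : ℝ) : |lz δ u| ≤ Real.log (1 / δ) := by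
  rw [← LZ_re hδ h16]
  exact (Complex.abs_re_le_norm _).trans (LZB.main δ hδ h16 u).1

/-- the typical value of the logarithm -/
noncomputable def mn {m : ℕ} (k h : Fin m → ℝ) (δ u : ℝ) : ℝ := ∑ l, k l * lz δ (u - h l)

lemma Lr_eq {m : ℕ} {δ : ℝ} (hδ : 0 < δ) (h16 : δ ≤ 1 / 16) (k h : Fin m → ℝ) :
    Lr k h δ = ∑ j, k j * mn k h δ (h j) := by
  unfold Lr mn
  refine Finset.sum_congr rfl fun j _ => ?_
  rw [Finset.mul_sum]
  refine Finset.sum_congr rfl fun l _ => ?_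
  rw [LZ_re hδ h16]
  ring

lemma mn_kp {m : ℕ} (k h : Fin m → ℝ) (δ τ u : ℝ) (i : Fin m) :
    mn (kp k τ i) h δ u = mn k h δ u + τ * lz δ (u - h i) := by
  unfold mn kp
  have : ∀ l, (k l + if l = i then τ else 0) * lz δ (u - h l) =
      k l * lz δ (u - h l) + if l = i then τ * lz δ (u - h l) else 0 := by
    intro l
    split_ifs <;> ring
  simp_rw [this]
  rw [Finset.sum_add_distrib, Finset.sum_ite_eq' Finset.univ i, if_pos (Finset.mem_univ i)]

lemma Lr_kp {m : ℕ} {δ : ℝ} (hδ : 0 < δ) (h16 : δ ≤ 1 / 16) (k h : Fin m → ℝ) (τ : ℝ) (i : Fin m) :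
    Lr (kp k τ i) h δ = Lr k h δ + 2 * τ * mn k h δ (h i) + τ ^ 2 * lz δ 0 := by
  rw [Lr_eq hδ h16, Lr_eq hδ h16]
  simp_rw [mn_kp]
  have h1 : ∀ j, kp k τ i j * (mn k h δ (h j) + τ * lz δ (h j - h i)) =
      k j * mn k h δ (h j) + τ * (k j * lz δ (h j - h i)) +
        (if j = i then τ * mn k h δ (h j) + τ ^ 2 * lz δ (h j - h i) else 0) := by
    intro j
    unfold kp
    split_ifs <;> ring
  simp_rw [h1]
  rw [Finset.sum_add_distrib, Finset.sum_add_distrib, Finset.sum_ite_eq' Finset.univ i, if_pos (Finset.mem_univ i),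
    ← Finset.mul_sum, sub_self]
  have h2 : ∑ j, k j * lz δ (h j - h i) = mn k h δ (h i) := by
    unfold mn
    refine Finset.sum_congr rfl fun j _ => ?_
    rw [← lz_neg δ (h j - h i), neg_sub]
  rw [h2]
  ring

lemma mn_abs {m : ℕ} {δ R : ℝ} (hδ : 0 < δ) (h16 : δ ≤ 1 / 16) (k h : Fin m → ℝ) (hk : ∀ j, |k j| ≤ R) (u : ℝ) :
    |mn k h δ u| ≤ m * R * Real.log (1 / δ) := by
  unfold mn
  calc |∑ l, k l * lz δ (u - h l)| ≤ ∑ l, |k l * lz δ (u - h l)| := Finset.abs_sum_le_sum_abs _ _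
    _ ≤ ∑ _l : Fin m, R * Real.log (1 / δ) := by
        refine Finset.sum_le_sum fun l _ => ?_
        rw [abs_mul]
        exact mul_le_mul (hk l) (lz_abs hδ h16 _) (abs_nonneg _) ((abs_nonneg _).trans (hk l))
    _ = _ := by
        rw [Finset.sum_const, Finset.card_univ, Fintype.card_fin, nsmul_eq_mul]
        ring

lemma Lr_abs {m : ℕ} {δ R : ℝ} (hδ : 0 < δ) (h16 : δ ≤ 1 / 16) (hR : 0 ≤ R) (k h : Fin m → ℝ) (hk : ∀ j, |k j| ≤ R) :
    |Lr k h δ| ≤ (m * R) ^ 2 * Real.log (1 / δ) := by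
  rw [Lr_eq hδ h16]
  have hL : 0 ≤ Real.log (1 / δ) := by linarith [log_inv_ge hδ h16]
  calc |∑ j, k j * mn k h δ (h j)| ≤ ∑ j, |k j * mn k h δ (h j)| := Finset.abs_sum_le_sum_abs _ _
    _ ≤ ∑ _l : Fin m, R * (m * R * Real.log (1 / δ)) := by
        refine Finset.sum_le_sum fun l _ => ?_
        rw [abs_mul]
        exact mul_le_mul (hk l) (mn_abs hδ h16 k h hk _) (abs_nonneg _) hR
    _ = _ := by
        rw [Finset.sum_const, Finset.card_univ, Fintype.card_fin, nsmul_eq_mul]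
        ring

/-- the heights at which all factors have the typical size -/
def Ty {m : ℕ} (k h : Fin m → ℝ) (η δ u : ℝ) : Prop := ∀ j, mz δ (u + h j) ≠ 0 ∧
  |Real.log (mz δ (u + h j)) - mn k h δ (h j)| ≤ η * Real.log (1 / δ)

/-- Chernoff's inequality, pointwise -/
lemma chern {m : ℕ} {k h : Fin m → ℝ} {η δ u : ℝ} (hη : 0 < η) (h0 : ∀ j, mz δ (u + h j) ≠ 0) (hn : ¬ Ty k h η δ u) :
    G k h δ u ≤ ∑ j, (G (kp k η j) h δ u * Real.exp (-(2 * η * (mn k h δ (h j) + η * Real.log (1 / δ)))) +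
      G (kp k (-η) j) h δ u * Real.exp (2 * η * (mn k h δ (h j) - η * Real.log (1 / δ)))) := by
  obtain ⟨L, hL⟩ : ∃ L, L = Real.log (1 / δ) := ⟨_, rfl⟩
  unfold Ty at hn
  rw [← hL] at hn ⊢
  push Not at hn
  obtain ⟨j, hj⟩ := hn
  have hjj := hj (h0 j)
  have hzp : 0 < mz δ (u + h j) := lt_of_le_of_ne (norm_nonneg _) (Ne.symm (h0 j))
  have hnn : ∀ i, 0 ≤ G (kp k η i) h δ u * Real.exp (-(2 * η * (mn k h δ (h i) + η * L))) +
      G (kp k (-η) i) h δ u * Real.exp (2 * η * (mn k h δ (h i) - η * L)) := fun i =>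
    add_nonneg (mul_nonneg (SM.G_nn _ _ _ _) (Real.exp_pos _).le) (mul_nonneg (SM.G_nn _ _ _ _) (Real.exp_pos _).le)
  refine le_trans ?_ (Finset.single_le_sum (fun i _ => hnn i) (Finset.mem_univ j))
  have hG0 : 0 ≤ G k h δ u := SM.G_nn _ _ _ _
  rw [SM.G_kp hzp, SM.G_kp hzp]
  obtain ⟨z, hz⟩ : ∃ z, z = Real.log (mz δ (u + h j)) := ⟨_, rfl⟩
  have hze : ∀ a : ℝ, mz δ (u + h j) ^ a = Real.exp (z * a) := fun a => by
    rw [Real.rpow_def_of_pos hzp, ← hz]
  rw [hze, hze, mul_assoc (G k h δ u) (Real.exp (z * (2 * η))), mul_assoc (G k h δ u) (Real.exp (z * (2 * -η))),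
    ← Real.exp_add, ← Real.exp_add]
  rw [← hz] at hjj
  rcases lt_abs.1 hjj with h1 | h1
  · have e1 : 1 ≤ Real.exp (z * (2 * η) + -(2 * η * (mn k h δ (h j) + η * L))) := by
      refine Real.one_le_exp ?_
      have : 0 ≤ 2 * η * (z - mn k h δ (h j) - η * L) := by
        apply mul_nonneg (by positivity)
        linarith
      linarith
    have e2 : 0 ≤ G k h δ u * Real.exp (z * (2 * -η) + 2 * η * (mn k h δ (h j) - η * L)) :=
      mul_nonneg hG0 (Real.exp_pos _).le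
    have e3 := mul_le_mul_of_nonneg_left e1 hG0
    linarith
  · have e1 : 1 ≤ Real.exp (z * (2 * -η) + 2 * η * (mn k h δ (h j) - η * L)) := by
      refine Real.one_le_exp ?_
      have : 0 ≤ 2 * η * (-(z - mn k h δ (h j)) - η * L) := by
        apply mul_nonneg (by positivity)
        linarith
      linarith
    have e2 : 0 ≤ G k h δ u * Real.exp (z * (2 * η) + -(2 * η * (mn k h δ (h j) + η * L))) :=
      mul_nonneg hG0 (Real.exp_pos _).le
    have e3 := mul_le_mul_of_nonneg_left e1 hG0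
    linarith

/-- the weights at the typical heights are bounded -/
lemma G_Ty {m : ℕ} {k h : Fin m → ℝ} {η δ u R : ℝ} (hδ : 0 < δ) (h16 : δ ≤ 1 / 16) (hη : 0 ≤ η) (hR : 0 ≤ R)
    (hk : ∀ j, |k j| ≤ R) (ht : Ty k h η δ u) : G k h δ u ≤ δ ^ (-(2 * (m * R) * (m * R + η))) := by
  obtain ⟨L, hL⟩ : ∃ L, L = Real.log (1 / δ) := ⟨_, rfl⟩
  have hL1 : 1 ≤ L := by rw [hL]; exact log_inv_ge hδ h16
  have hlog : Real.log δ = -L := by rw [hL, one_div, Real.log_inv, neg_neg]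
  unfold G
  have h1 : ∀ j, mz δ (u + h j) ^ (2 * k j) ≤ Real.exp (2 * R * ((m * R + η) * L)) := by
    intro j
    obtain ⟨h0, h2⟩ := ht j
    have hzp : 0 < mz δ (u + h j) := lt_of_le_of_ne (norm_nonneg _) (Ne.symm h0)
    rw [Real.rpow_def_of_pos hzp]
    refine Real.exp_le_exp.2 ?_
    rw [← hL] at h2
    have h3 := mn_abs hδ h16 k h hk (h j)
    rw [← hL] at h3
    have h4 : |Real.log (mz δ (u + h j))| ≤ (m * R + η) * L := by
      have : Real.log (mz δ (u + h j)) = (Real.log (mz δ (u + h j)) - mn k h δ (h j)) + mn k h δ (h j) := by ring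
      rw [this]
      refine (abs_add_le _ _).trans ?_
      linarith
    calc Real.log (mz δ (u + h j)) * (2 * k j) ≤ |Real.log (mz δ (u + h j)) * (2 * k j)| := le_abs_self _
      _ = |Real.log (mz δ (u + h j))| * (2 * |k j|) := by rw [abs_mul, abs_mul, abs_two]
      _ ≤ ((m * R + η) * L) * (2 * R) := by
          apply mul_le_mul h4 _ (by positivity) (by positivity)
          linarith [hk j]
      _ = _ := by ring
  calc ∏ j, mz δ (u + h j) ^ (2 * k j) ≤ ∏ _j : Fin m, Real.exp (2 * R * ((m * R + η) * L)) :=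
        Finset.prod_le_prod (fun j _ => Real.rpow_nonneg (norm_nonneg _) _) fun j _ => h1 j
    _ = Real.exp (m * (2 * R * ((m * R + η) * L))) := by
        rw [Finset.prod_const, Finset.card_univ, Fintype.card_fin, ← Real.exp_nat_mul]
    _ = _ := by
        rw [Real.rpow_def_of_pos hδ, hlog]
        congr 1
        ring

end Pool.Agent.H6Z
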